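import Mathlib

/-!
# Uniform algebras with good spectrum, and the wedge of discs
-/

set_option autoImplicit false
set_option linter.unusedSectionVars false
set_option linter.unusedVariables false
set_option synthInstance.maxHeartbeats 400000

open Set Topology Filter MeasureTheory
open scoped ENNReal NNReal

namespace Pool.Agent.Q194.Bishop

noncomputable section

section General

variable {S : Type} [TopologicalSpace S] [CompactSpace S]

/-- The standing hypotheses on the algebra `A ⊆ C(S)`: uniformly closed (the constants belong to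
every unital subalgebra), every continuous nonzero multiplicative linear functional is the
evaluation at exactly one point of `S`, and every element of `A` with inverse in `A` is an
exponential of an element of `A`. -/
structure GoodAlgebra (A : Subalgebra ℂ C(S, ℂ)) : Prop where
  closed : IsClosed (A : Set C(S, ℂ))
  chars : ∀ φ : A →ₐ[ℂ] ℂ, Continuous φ → ∃! s : S, ∀ f : A, φ f = f.1 s
  logs : ∀ f ∈ A, (∃ g ∈ A, f * g = 1) → ∃ h ∈ A, ∀ s, f s = Complex.exp (h s)

lemma norm_le_iff' {f : C(S, ℂ)} {C : ℝ} (hC : 0 ≤ C) : ‖f‖ ≤ C ↔ ∀ x, ‖f x‖ ≤ C :=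
  ContinuousMap.norm_le f hC

lemma exp_of_near (A : Subalgebra ℂ C(S, ℂ)) (hA : IsClosed (A : Set C(S, ℂ))) (u : C(S, ℂ))
    (hu : u ∈ A) (h1 : ‖u - 1‖ < 1) : ∃ L ∈ A, ∀ s, u s = Complex.exp (L s) := by
  set v : C(S, ℂ) := u - 1 with hv
  have hvA : v ∈ A := A.sub_mem hu A.one_mem
  let T : ℕ → C(S, ℂ) := fun n => ((-1 : ℂ) ^ (n + 1) / n) • v ^ n
  have hvn : ∀ n : ℕ, ‖v ^ n‖ ≤ ‖v‖ ^ n := by
    intro n
    rw [norm_le_iff' (by positivity)]
    intro x
    rw [ContinuousMap.pow_apply, norm_pow]
    exact pow_le_pow_left₀ (norm_nonneg _) (ContinuousMap.norm_coe_le_norm v x) n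
  have hT : Summable T := by
    apply Summable.of_norm
    refine Summable.of_nonneg_of_le (fun n => norm_nonneg _) (fun n => ?_)
      (summable_geometric_of_lt_one (norm_nonneg v) h1)
    rw [norm_smul]
    have h2 : ‖((-1 : ℂ) ^ (n + 1) / n)‖ ≤ 1 := by
      rw [norm_div, norm_pow, norm_neg, norm_one, one_pow]
      rcases Nat.eq_zero_or_pos n with h | h
      · subst h; simp
      · have h3 : (1 : ℝ) ≤ ‖(n : ℂ)‖ := by
          rw [Complex.norm_natCast]; exact_mod_cast h
        exact (div_le_one (by linarith)).2 h3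
    calc ‖((-1 : ℂ) ^ (n + 1) / n)‖ * ‖v ^ n‖ ≤ 1 * ‖v‖ ^ n :=
          mul_le_mul h2 (hvn n) (norm_nonneg _) zero_le_one
      _ = ‖v‖ ^ n := one_mul _
  have hL : (∑' n, T n) ∈ A := by
    have h3 := hT.hasSum
    apply hA.mem_of_tendsto h3
    filter_upwards with F
    exact A.sum_mem (fun n _ => A.smul_mem (A.pow_mem hvA n) _)
  refine ⟨∑' n, T n, hL, ?_⟩
  intro s
  have hvs : ‖v s‖ < 1 := lt_of_le_of_lt (ContinuousMap.norm_coe_le_norm v s) h1
  have h3 : HasSum (fun n => T n s) ((∑' n, T n) s) := by
    have := hT.hasSum.map (ContinuousMap.evalCLM ℂ s : C(S, ℂ) →L[ℂ] ℂ)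
      (ContinuousMap.evalCLM ℂ s : C(S, ℂ) →L[ℂ] ℂ).continuous
    exact this
  have h4 := Complex.hasSum_taylorSeries_log hvs
  have h5 : (fun n => T n s) = (fun n : ℕ => (-1 : ℂ) ^ (n + 1) * v s ^ n / n) := by
    funext n
    simp only [T, ContinuousMap.smul_apply, ContinuousMap.pow_apply, smul_eq_mul]
    ring
  rw [h5] at h3
  rw [h3.unique h4, Complex.exp_log]
  · simp [hv]
  · intro h6
    have : v s = -1 := by linear_combination h6
    rw [this] at hvs
    simp at hvs

/-- If a continuous path of invertible elements of `A` starts at an exponential then it ends at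
an exponential. -/
theorem exp_of_path (A : Subalgebra ℂ C(S, ℂ)) (hA : IsClosed (A : Set C(S, ℂ)))
    (F : unitInterval → C(S, ℂ)) (hF : Continuous F) (hmem : ∀ t, F t ∈ A)
    (hinv : ∀ t, ∃ g ∈ A, F t * g = 1) (h0 : ∃ h ∈ A, ∀ s, F 0 s = Complex.exp (h s)) :
    ∃ h ∈ A, ∀ s, F 1 s = Complex.exp (h s) := by
  let Q : unitInterval → Prop := fun t => ∃ h ∈ A, ∀ s, F t s = Complex.exp (h s)
  have hQ : IsLocallyConstant Q := by
    rw [IsLocallyConstant.iff_eventually_eq]
    intro t0
    obtain ⟨g, hgA, hg⟩ := hinv t0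
    have hc : Continuous (fun t => ‖F t * g - 1‖) := by fun_prop
    have hlt : ‖F t0 * g - 1‖ < 1 := by rw [hg]; simp
    filter_upwards [hc.continuousAt.eventually (gt_mem_nhds hlt)] with t ht
    obtain ⟨L, hLA, hL⟩ := exp_of_near A hA (F t * g) (A.mul_mem (hmem t) hgA) ht
    have key : ∀ s, F t s = F t0 s * Complex.exp (L s) := by
      intro s
      have h1 : F t0 s * g s = 1 := by
        have := congrArg (fun f : C(S, ℂ) => f s) hg
        simpa using this
      have h2 : F t s * g s = Complex.exp (L s) := by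
        have := hL s
        simpa using this
      rw [← h2]
      linear_combination (-(F t s)) * h1
    apply propext
    constructor
    · rintro ⟨h, hh, hh'⟩
      refine ⟨h - L, A.sub_mem hh hLA, ?_⟩
      intro s
      have h1 := hh' s
      rw [key s] at h1
      rw [ContinuousMap.sub_apply, Complex.exp_sub, ← h1]
      field_simp
    · rintro ⟨h, hh, hh'⟩
      refine ⟨h + L, A.add_mem hh hLA, ?_⟩
      intro s
      rw [ContinuousMap.add_apply, Complex.exp_add, ← hh' s, key s]
  have := hQ.apply_eq_of_preconnectedSpace 0 1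
  show Q 1
  rw [← this]
  exact h0

/-- A continuous character is bounded by one on the unit ball. -/
lemma char_bound (A : Subalgebra ℂ C(S, ℂ)) (φ : A →ₐ[ℂ] ℂ) (hφ : Continuous φ) (f : A)
    (hf : ∀ x, ‖f.1 x‖ ≤ 1) : ‖φ f‖ ≤ 1 := by
  by_contra hcon
  push Not at hcon
  let ψ : A →L[ℂ] ℂ := ⟨φ.toLinearMap, hφ⟩
  have h1 : ∀ n : ℕ, ‖φ f‖ ^ n ≤ ‖ψ‖ := by
    intro n
    have h2 := ψ.le_opNorm (f ^ n)
    have h3 : ψ (f ^ n) = φ f ^ n := by
      show φ (f ^ n) = _
      rw [map_pow]
    have h4 : ‖f ^ n‖ ≤ 1 := by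
      show ‖((f ^ n : A) : C(S, ℂ))‖ ≤ 1
      rw [norm_le_iff' zero_le_one]
      intro x
      have : ((f ^ n : A) : C(S, ℂ)) x = (f.1 x) ^ n := by simp
      rw [this, norm_pow]
      exact pow_le_one₀ (norm_nonneg _) (hf x)
    rw [h3, norm_pow] at h2
    calc _ ≤ ‖ψ‖ * ‖f ^ n‖ := h2
      _ ≤ ‖ψ‖ * 1 := mul_le_mul_of_nonneg_left h4 ψ.opNorm_nonneg
      _ = ‖ψ‖ := mul_one _
  obtain ⟨n, hn⟩ := pow_unbounded_of_one_lt ‖ψ‖ hcon
  exact absurd (h1 n) (not_le.2 hn)

/-- A continuous character of the closed algebra generated by `G` which agrees with the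
evaluation at `s` on `G` is the evaluation at `s`. -/
lemma char_eq_eval (G : Set C(S, ℂ))
    (φ : (Algebra.adjoin ℂ G).topologicalClosure →ₐ[ℂ] ℂ) (hφ : Continuous φ) (s : S)
    (h : ∀ (g : C(S, ℂ)) (hg : g ∈ G), φ ⟨g, Subalgebra.le_topologicalClosure _
      (Algebra.subset_adjoin hg)⟩ = g s) (f : (Algebra.adjoin ℂ G).topologicalClosure) :
    φ f = f.1 s := by
  have h1 : ∀ (g : C(S, ℂ)) (hg : g ∈ Algebra.adjoin ℂ G),
      φ ⟨g, Subalgebra.le_topologicalClosure _ hg⟩ = g s := by
    intro g hg
    induction hg using Algebra.adjoin_induction with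
    | mem x hx => exact h x hx
    | algebraMap r =>
      have : (⟨algebraMap ℂ C(S, ℂ) r, Subalgebra.le_topologicalClosure _
        ((Algebra.adjoin ℂ G).algebraMap_mem r)⟩ : (Algebra.adjoin ℂ G).topologicalClosure)
        = algebraMap ℂ _ r := rfl
      rw [this, AlgHom.commutes]
      simp
    | add x y hx hy h1 h2 =>
      have : (⟨x + y, Subalgebra.le_topologicalClosure _
        ((Algebra.adjoin ℂ G).add_mem hx hy)⟩ : (Algebra.adjoin ℂ G).topologicalClosure)
        = ⟨x, Subalgebra.le_topologicalClosure _ hx⟩ + ⟨y, Subalgebra.le_topologicalClosure _ hy⟩ := rfl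
      rw [this, map_add, h1, h2]
      simp
    | mul x y hx hy h1 h2 =>
      have : (⟨x * y, Subalgebra.le_topologicalClosure _
        ((Algebra.adjoin ℂ G).mul_mem hx hy)⟩ : (Algebra.adjoin ℂ G).topologicalClosure)
        = ⟨x, Subalgebra.le_topologicalClosure _ hx⟩ * ⟨y, Subalgebra.le_topologicalClosure _ hy⟩ := rfl
      rw [this, map_mul, h1, h2]
      simp
  have hf := f.2
  have hf' : (f : C(S, ℂ)) ∈ closure ((Algebra.adjoin ℂ G : Subalgebra ℂ C(S, ℂ)) : Set C(S, ℂ)) := hf
  obtain ⟨x, hx, hlim⟩ := mem_closure_iff_seq_limit.1 hf'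
  let y : ℕ → (Algebra.adjoin ℂ G).topologicalClosure := fun n =>
    ⟨x n, Subalgebra.le_topologicalClosure _ (hx n)⟩
  have hy : Tendsto y atTop (𝓝 f) := by
    rw [tendsto_subtype_rng]
    exact hlim
  have h2 : Tendsto (fun n => φ (y n)) atTop (𝓝 (φ f)) := (hφ.tendsto f).comp hy
  have h3 : Tendsto (fun n => x n s) atTop (𝓝 (f.1 s)) :=
    ((ContinuousMap.evalCLM ℂ s : C(S, ℂ) →L[ℂ] ℂ).continuous.tendsto _).comp hlim
  have h4 : (fun n => φ (y n)) = fun n => x n s := by
    funext n
    exact h1 (x n) (hx n)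
  rw [h4] at h2
  exact tendsto_nhds_unique h2 h3

/-- precomposition with a map that sends generators into the closed algebra preserves it -/
lemma comp_mem {S' : Type} [TopologicalSpace S'] [CompactSpace S'] (G : Set C(S, ℂ)) (d : C(S', S))
    (B : Subalgebra ℂ C(S', ℂ)) (hB : IsClosed (B : Set C(S', ℂ)))
    (h : ∀ g ∈ G, g.comp d ∈ B) (f : C(S, ℂ)) (hf : f ∈ (Algebra.adjoin ℂ G).topologicalClosure) :
    f.comp d ∈ B := by
  have h1 : ∀ (g : C(S, ℂ)) (hg : g ∈ Algebra.adjoin ℂ G), g.comp d ∈ B := by
    intro g hg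
    induction hg using Algebra.adjoin_induction with
    | mem x hx => exact h x hx
    | algebraMap r => exact B.algebraMap_mem r
    | add x y hx hy h1 h2 => exact B.add_mem h1 h2
    | mul x y hx hy h1 h2 => exact B.mul_mem h1 h2
  have hf' : f ∈ closure ((Algebra.adjoin ℂ G : Subalgebra ℂ C(S, ℂ)) : Set C(S, ℂ)) := hf
  have hc : Continuous (fun g : C(S, ℂ) => g.comp d) := ContinuousMap.continuous_precomp d
  have h2 : IsClosed {g : C(S, ℂ) | g.comp d ∈ B} := hB.preimage hc
  exact closure_minimal (fun g hg => h1 g hg) h2 hf'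

end General

/-! ### The wedge of discs -/

/-- The wedge of closed unit discs indexed by `I`: points of the product of the discs with at most
one nonzero coordinate. -/
def Wedge (I : Type) : Type :=
  {x : I → ℂ // (∀ i, ‖x i‖ ≤ 1) ∧ ∀ i j, i ≠ j → x i * x j = 0}

variable {I : Type}

instance : TopologicalSpace (Wedge I) := inferInstanceAs (TopologicalSpace {x : I → ℂ // _})

instance : T2Space (Wedge I) := inferInstanceAs (T2Space {x : I → ℂ // _})

instance : CompactSpace (Wedge I) := by
  have h1 : IsCompact (Set.pi univ (fun _ : I => Metric.closedBall (0 : ℂ) 1)) :=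
    isCompact_univ_pi (fun _ => isCompact_closedBall 0 1)
  have h2 : IsClosed {x : I → ℂ | (∀ i, ‖x i‖ ≤ 1) ∧ ∀ i j, i ≠ j → x i * x j = 0} := by
    have e : {x : I → ℂ | (∀ i, ‖x i‖ ≤ 1) ∧ ∀ i j, i ≠ j → x i * x j = 0}
        = (⋂ i, {x : I → ℂ | ‖x i‖ ≤ 1}) ∩ ⋂ i, ⋂ j, ⋂ (_ : i ≠ j), {x : I → ℂ | x i * x j = 0} := by
      ext x; simp
    rw [e]
    exact (isClosed_iInter (fun i => isClosed_le (by fun_prop) continuous_const)).inter
      (isClosed_iInter (fun i => isClosed_iInter (fun j => isClosed_iInter (fun _ =>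
        isClosed_eq (by fun_prop) continuous_const))))
  have h3 : IsCompact {x : I → ℂ | (∀ i, ‖x i‖ ≤ 1) ∧ ∀ i j, i ≠ j → x i * x j = 0} := by
    refine h1.of_isClosed_subset h2 ?_
    intro x hx i _
    simpa using hx.1 i
  exact isCompact_iff_compactSpace.1 h3

/-- coordinate functions -/
def coord (i : I) : C(Wedge I, ℂ) := ⟨fun x => x.1 i, by
  have h1 : Continuous (fun x : Wedge I => x.1) := continuous_subtype_val
  exact (continuous_apply i).comp h1⟩

@[simp] lemma coord_apply (i : I) (x : Wedge I) : coord i x = x.1 i := rfl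

/-- the uniform algebra generated by the coordinate functions -/
def WA (I : Type) : Subalgebra ℂ C(Wedge I, ℂ) :=
  (Algebra.adjoin ℂ (Set.range (coord (I := I)))).topologicalClosure

lemma coord_mem (i : I) : coord i ∈ WA I :=
  Subalgebra.le_topologicalClosure _ (Algebra.subset_adjoin ⟨i, rfl⟩)

lemma closed_WA : IsClosed (WA I : Set C(Wedge I, ℂ)) := Subalgebra.isClosed_topologicalClosure _

/-- dilation -/
def dil (t : unitInterval) (x : Wedge I) : Wedge I :=
  ⟨fun i => ((t : ℝ) : ℂ) * x.1 i, by
    refine ⟨fun i => ?_, fun i j hij => ?_⟩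
    · rw [norm_mul, Complex.norm_real, Real.norm_eq_abs, abs_of_nonneg t.2.1]
      exact mul_le_one₀ t.2.2 (norm_nonneg _) (x.2.1 i)
    · have := x.2.2 i j hij
      linear_combination (((t : ℝ) : ℂ) ^ 2) * this⟩

lemma continuous_dil : Continuous (fun p : unitInterval × Wedge I => dil p.1 p.2) := by
  apply Continuous.subtype_mk
  apply continuous_pi
  intro i
  have h1 : Continuous (fun x : Wedge I => x.1 i) := (coord i).continuous
  exact ((Complex.continuous_ofReal.comp (continuous_subtype_val.comp continuous_fst))).mul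
    (h1.comp continuous_snd)

theorem good_WA : GoodAlgebra (WA I) where
  closed := closed_WA
  chars := by
    intro φ hφ
    have hb : ∀ i, ‖φ ⟨coord i, coord_mem i⟩‖ ≤ 1 := fun i =>
      char_bound (WA I) φ hφ _ (fun x => x.2.1 i)
    let s : Wedge I := ⟨fun i => φ ⟨coord i, coord_mem i⟩, hb, by
      intro i j hij
      rw [← map_mul]
      have : (⟨coord i, coord_mem i⟩ * ⟨coord j, coord_mem j⟩ : WA I) = 0 := by
        apply Subtype.ext
        ext x
        exact x.2.2 i j hij
      rw [this, map_zero]⟩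
    refine ⟨s, ?_, ?_⟩
    · intro f
      refine char_eq_eval (Set.range (coord (I := I))) φ hφ s ?_ f
      rintro g ⟨i, rfl⟩
      rfl
    · intro s' hs'
      apply Subtype.ext
      funext i
      have := hs' ⟨coord i, coord_mem i⟩
      exact this.symm
  logs := by
    rintro f hf ⟨g, hg, hfg⟩
    let Fm : C(unitInterval × Wedge I, ℂ) := ⟨fun p => f (dil p.1 p.2), f.continuous.comp continuous_dil⟩
    have hd : ∀ t : unitInterval, Continuous (fun x : Wedge I => dil t x) := fun t =>
      continuous_dil.comp (continuous_const.prodMk continuous_id)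
    have hcomp : ∀ (t : unitInterval) (u : C(Wedge I, ℂ)), u ∈ WA I →
        u.comp ⟨fun x => dil t x, hd t⟩ ∈ WA I := by
      intro t u hu
      refine comp_mem _ _ (WA I) closed_WA ?_ u hu
      rintro v ⟨i, rfl⟩
      have : (coord i).comp ⟨fun x => dil t x, hd t⟩ = (((t : ℝ) : ℂ)) • coord i := by
        ext x
        rfl
      rw [this]
      exact (WA I).smul_mem (coord_mem i) _
    have hpath := exp_of_path (WA I) closed_WA (fun t => Fm.curry t) Fm.curry.continuous
      (fun t => hcomp t f hf) (fun t => ?_) ?_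
    · obtain ⟨h, hh, hh'⟩ := hpath
      refine ⟨h, hh, ?_⟩
      intro s
      rw [← hh' s]
      show f s = f (dil 1 s)
      congr 1
      apply Subtype.ext
      funext i
      simp [dil]
    · refine ⟨g.comp ⟨fun x => dil t x, hd t⟩, hcomp t g hg, ?_⟩
      ext s
      have := congrArg (fun u : C(Wedge I, ℂ) => u (dil t s)) hfg
      exact this
    · have hne : ∀ s, f s ≠ 0 := by
        intro s hs
        have := congrArg (fun u : C(Wedge I, ℂ) => u s) hfg
        simp [hs] at this
      by_cases hS : Nonempty (Wedge I)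
      · obtain ⟨s0⟩ := hS
        refine ⟨algebraMap ℂ _ (Complex.log (f (dil 0 s0))), (WA I).algebraMap_mem _, ?_⟩
        intro s
        have e1 : (algebraMap ℂ C(Wedge I, ℂ) (Complex.log (f (dil 0 s0)))) s
            = Complex.log (f (dil 0 s0)) := by simp
        rw [e1, Complex.exp_log (hne _)]
        show f (dil 0 s) = f (dil 0 s0)
        congr 1
        apply Subtype.ext
        funext i
        simp [dil]
      · exact ⟨0, (WA I).zero_mem, fun s => absurd ⟨s⟩ hS⟩

/-! ### measures on the boundary circles of the wedge -/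

section Circle

/-- normalised Haar measure on the circle -/
abbrev hm : Measure UnitAddCircle := AddCircle.haarAddCircle

lemma integrable_cont {E : Type} [NormedAddCommGroup E] {X : Type} [TopologicalSpace X]
    [CompactSpace X] [MeasurableSpace X] [OpensMeasurableSpace X] (m : Measure X)
    [IsFiniteMeasure m] [SecondCountableTopologyEither X E] {f : X → E} (hf : Continuous f) :
    Integrable f m := by
  obtain ⟨C, hC⟩ : ∃ C, ∀ x, ‖f x‖ ≤ C := by
    obtain ⟨C, hC⟩ := (isCompact_univ (X := X)).exists_bound_of_continuousOn hf.continuousOn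
    exact ⟨C, fun x => hC x (mem_univ _)⟩
  exact Integrable.of_bound hf.aestronglyMeasurable C (Eventually.of_forall hC)

lemma integral_fourier (n : ℤ) (hn : n ≠ 0) : ∫ t, fourier n t ∂hm = 0 := by
  have h1 := (orthonormal_iff_ite.1 (orthonormal_fourier (T := 1))) 0 n
  rw [if_neg (Ne.symm hn), ContinuousMap.inner_toLp] at h1
  simpa using h1

/-- A real integrable function on the circle all of whose Fourier coefficients vanish is zero. -/
theorem ae_zero_of_fourier (u : UnitAddCircle → ℝ) (hu : Integrable u hm)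
    (h : ∀ n : ℤ, ∫ t, fourier n t * (u t : ℂ) ∂hm = 0) : u =ᵐ[hm] 0 := by
  have huC : Integrable (fun t => (u t : ℂ)) hm := hu.ofReal
  have hint : ∀ φ : C(UnitAddCircle, ℂ), Integrable (fun t => φ t * (u t : ℂ)) hm := by
    intro φ
    exact huC.bdd_mul (c := ‖φ‖) φ.continuous.aestronglyMeasurable
      (Eventually.of_forall (fun t => ContinuousMap.norm_coe_le_norm φ t))
  let L : C(UnitAddCircle, ℂ) →L[ℂ] ℂ := LinearMap.mkContinuous
    { toFun := fun φ => ∫ t, φ t * (u t : ℂ) ∂hm
      map_add' := by
        intro φ ψ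
        rw [← integral_add (hint φ) (hint ψ)]
        congr 1
        funext t
        simp only [ContinuousMap.add_apply]
        ring
      map_smul' := by
        intro c φ
        simp only [ContinuousMap.smul_apply, smul_eq_mul, RingHom.id_apply]
        rw [← integral_const_mul]
        congr 1
        funext t
        ring } (∫ t, ‖(u t : ℂ)‖ ∂hm) (by
        intro φ
        show ‖∫ t, φ t * (u t : ℂ) ∂hm‖ ≤ _
        refine (norm_integral_le_integral_norm _).trans ?_
        rw [mul_comm, ← integral_const_mul]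
        apply integral_mono (hint φ).norm (huC.norm.const_mul _)
        intro t
        simp only [norm_mul]
        exact mul_le_mul_of_nonneg_right (ContinuousMap.norm_coe_le_norm φ t) (norm_nonneg _))
  have hker : ∀ φ : C(UnitAddCircle, ℂ), L φ = 0 := by
    intro φ
    have h1 : (Submodule.span ℂ (Set.range (fourier (T := 1)))) ≤ LinearMap.ker L.toLinearMap := by
      rw [Submodule.span_le]
      rintro _ ⟨n, rfl⟩
      exact h n
    have h2 : IsClosed ((LinearMap.ker L.toLinearMap : Submodule ℂ _) : Set C(UnitAddCircle, ℂ)) :=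
      L.isClosed_ker
    have h3 := Submodule.topologicalClosure_minimal _ h1 h2
    rw [span_fourier_closure_eq_top] at h3
    exact h3 (Submodule.mem_top)
  -- the positive and the negative part give the same measure
  have hpos : ∀ (φ : BoundedContinuousFunction UnitAddCircle ℝ), ∫ t, φ t * u t ∂hm = 0 := by
    intro φ
    have h1 := hker ⟨fun t => (φ t : ℂ), by fun_prop⟩
    have h2 : ∫ t, ((φ t * u t : ℝ) : ℂ) ∂hm = 0 := by
      rw [← h1]
      show _ = ∫ t, (φ t : ℂ) * (u t : ℂ) ∂hm
      congr 1
      funext t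
      push_cast
      rfl
    rw [integral_complex_ofReal] at h2
    exact_mod_cast h2
  let f₁ : UnitAddCircle → ℝ≥0∞ := fun t => ENNReal.ofReal (u t)
  let f₂ : UnitAddCircle → ℝ≥0∞ := fun t => ENNReal.ofReal (-u t)
  have hf₁ : AEMeasurable f₁ hm := hu.aestronglyMeasurable.aemeasurable.ennreal_ofReal
  have hf₂ : AEMeasurable f₂ hm := hu.aestronglyMeasurable.aemeasurable.neg.ennreal_ofReal
  have hfin₁ : ∫⁻ t, f₁ t ∂hm ≠ ⊤ := hu.lintegral_lt_top.ne
  have hfin₂ : ∫⁻ t, f₂ t ∂hm ≠ ⊤ := hu.neg.lintegral_lt_top.ne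
  have : IsFiniteMeasure (hm.withDensity f₁) := isFiniteMeasure_withDensity hfin₁
  have : IsFiniteMeasure (hm.withDensity f₂) := isFiniteMeasure_withDensity hfin₂
  have hmeas : hm.withDensity f₁ = hm.withDensity f₂ := by
    apply ext_of_forall_integral_eq_of_IsFiniteMeasure
    intro φ
    rw [integral_withDensity_eq_integral_toReal_smul₀ hf₁ (Eventually.of_forall (fun t => ENNReal.ofReal_lt_top)),
      integral_withDensity_eq_integral_toReal_smul₀ hf₂ (Eventually.of_forall (fun t => ENNReal.ofReal_lt_top))]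
    have e1 : Integrable (fun t => (f₁ t).toReal • φ t) hm := by
      have : Integrable (fun t => φ t * max (u t) 0) hm := hu.pos_part.bdd_mul (c := ‖φ‖)
        φ.continuous.aestronglyMeasurable (Eventually.of_forall (fun t => φ.norm_coe_le_norm t))
      refine this.congr (Eventually.of_forall (fun t => ?_))
      simp only [f₁, smul_eq_mul, ENNReal.toReal_ofReal']
      ring
    have e2 : Integrable (fun t => (f₂ t).toReal • φ t) hm := by
      have : Integrable (fun t => φ t * max (-u t) 0) hm := hu.neg_part.bdd_mul (c := ‖φ‖)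
        φ.continuous.aestronglyMeasurable (Eventually.of_forall (fun t => φ.norm_coe_le_norm t))
      refine this.congr (Eventually.of_forall (fun t => ?_))
      simp only [f₂, smul_eq_mul, ENNReal.toReal_ofReal']
      ring
    rw [← sub_eq_zero, ← integral_sub e1 e2, ← hpos φ]
    congr 1
    funext t
    simp only [f₁, f₂, smul_eq_mul, ENNReal.toReal_ofReal']
    rcases le_total 0 (u t) with h0 | h0
    · rw [max_eq_left h0, max_eq_right (by linarith)]; ring
    · rw [max_eq_right h0, max_eq_left (by linarith)]; ring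
  rw [withDensity_eq_iff hf₁ hf₂ hfin₁] at hmeas
  filter_upwards [hmeas] with t ht
  simp only [f₁, f₂] at ht
  have h1 := congrArg ENNReal.toReal ht
  rw [ENNReal.toReal_ofReal', ENNReal.toReal_ofReal'] at h1
  show u t = 0
  rcases le_total 0 (u t) with h0 | h0
  · rw [max_eq_left h0, max_eq_right (by linarith)] at h1; exact h1
  · rw [max_eq_right h0, max_eq_left (by linarith)] at h1; linarith

/-- A real integrable function on the circle whose Fourier coefficients of nonzero index vanish
is constant. -/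
theorem ae_const_of_fourier (u : UnitAddCircle → ℝ) (hu : Integrable u hm)
    (h : ∀ n : ℤ, n ≠ 0 → ∫ t, fourier n t * (u t : ℂ) ∂hm = 0) :
    ∀ᵐ t ∂hm, u t = ∫ s, u s ∂hm := by
  set c : ℝ := ∫ s, u s ∂hm with hc
  have h1 : (fun t => u t - c) =ᵐ[hm] 0 := by
    apply ae_zero_of_fourier _ (hu.sub (integrable_const c))
    intro n
    have huC : Integrable (fun t => (u t : ℂ)) hm := hu.ofReal
    have i1 : Integrable (fun t => fourier n t * (u t : ℂ)) hm :=
      huC.bdd_mul (c := ‖(fourier n : C(UnitAddCircle, ℂ))‖) (fourier n).continuous.aestronglyMeasurable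
      (Eventually.of_forall (fun t => ContinuousMap.norm_coe_le_norm (fourier n) t))
    have i2 : Integrable (fun t => (c : ℂ) * fourier n t) hm :=
      (integrable_cont hm (fourier n).continuous).const_mul _
    have e : (fun t => fourier n t * ((u t - c : ℝ) : ℂ))
        = fun t => fourier n t * (u t : ℂ) - (c : ℂ) * fourier n t := by
      funext t
      push_cast
      ring
    show ∫ t, fourier n t * ((u t - c : ℝ) : ℂ) ∂hm = 0
    rw [e, integral_sub i1 i2, integral_const_mul]
    by_cases hn : n = 0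
    · subst hn
      have e0 : (fun t : UnitAddCircle => fourier 0 t * (u t : ℂ)) = fun t => (u t : ℂ) := by
        funext t; simp
      rw [e0, integral_complex_ofReal, ← hc]
      simp
    · rw [h n hn, integral_fourier n hn]
      simp
  filter_upwards [h1] with t ht
  have : u t - c = 0 := ht
  linarith

end Circle

section WedgeMeasure

instance : MeasurableSpace (Wedge I) := borel _

instance : BorelSpace (Wedge I) := ⟨rfl⟩

/-- the base point of the wedge -/
def origin : Wedge I := ⟨fun _ => 0, by simp⟩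

variable [DecidableEq I]

/-- the parametrisation of the boundary circle of the disc number `i` -/
def jc (i : I) : C(UnitAddCircle, Wedge I) :=
  ⟨fun t => ⟨Pi.single i (fourier 1 t), by
    refine ⟨fun k => ?_, fun k l hkl => ?_⟩
    · by_cases h : k = i
      · subst h; simp [Circle.norm_coe]
      · simp [h]
    · by_cases h : k = i
      · have : l ≠ i := fun h' => hkl (h.trans h'.symm)
        simp [this]
      · simp [h]⟩, by
    apply Continuous.subtype_mk
    exact (continuous_single i).comp (fourier 1).continuous⟩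

lemma jc_same (i : I) (t : UnitAddCircle) : (jc i t).1 i = fourier 1 t := by
  show (Pi.single i (fourier 1 t) : I → ℂ) i = _
  simp

lemma jc_ne {i k : I} (h : k ≠ i) (t : UnitAddCircle) : (jc i t).1 k = 0 := by
  show (Pi.single i (fourier 1 t) : I → ℂ) k = _
  simp [h]

lemma fourier_pow (t : UnitAddCircle) (n : ℕ) : (fourier 1 t : ℂ) ^ n = fourier (n : ℤ) t := by
  induction n with
  | zero => simp
  | succ n ih =>
    rw [pow_succ, ih]
    push_cast
    rw [fourier_add]

/-- evaluation of the mean over a boundary circle minus the value at the base point -/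
def meanDiff (i : I) : C(Wedge I, ℂ) →L[ℂ] ℂ :=
  LinearMap.mkContinuous
    { toFun := fun f => ∫ t, f (jc i t) ∂hm - f origin
      map_add' := by
        intro f g
        have h1 : Integrable (fun t => f (jc i t)) hm := integrable_cont hm (by fun_prop)
        have h2 : Integrable (fun t => g (jc i t)) hm := integrable_cont hm (by fun_prop)
        simp only [ContinuousMap.add_apply]
        rw [integral_add h1 h2]
        ring
      map_smul' := by
        intro c f
        simp only [ContinuousMap.smul_apply, smul_eq_mul, RingHom.id_apply]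
        rw [integral_const_mul]
        ring } 2 (by
      intro f
      show ‖∫ t, f (jc i t) ∂hm - f origin‖ ≤ _
      have h1 : ‖∫ t, f (jc i t) ∂hm‖ ≤ ‖f‖ := by
        have := norm_integral_le_of_norm_le_const (μ := hm) (f := fun t => f (jc i t)) (C := ‖f‖)
          (Eventually.of_forall (fun t => ContinuousMap.norm_coe_le_norm f _))
        simpa using this
      have h2 : ‖f origin‖ ≤ ‖f‖ := ContinuousMap.norm_coe_le_norm f _
      calc _ ≤ ‖∫ t, f (jc i t) ∂hm‖ + ‖f origin‖ := norm_sub_le _ _
        _ ≤ 2 * ‖f‖ := by linarith)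

theorem mean_value (i : I) (f : C(Wedge I, ℂ)) (hf : f ∈ WA I) :
    ∫ t, f (jc i t) ∂hm = f origin := by
  have h1 : ∀ g ∈ Algebra.adjoin ℂ (Set.range (coord (I := I))), ∃ p : Polynomial ℂ,
      (∀ t, g (jc i t) = p.eval (fourier 1 t)) ∧ g origin = p.eval 0 := by
    intro g hg
    induction hg using Algebra.adjoin_induction with
    | mem x hx =>
      obtain ⟨k, rfl⟩ := hx
      by_cases hk : k = i
      · subst hk
        exact ⟨Polynomial.X, fun t => by rw [coord_apply, jc_same]; simp, by
          rw [Polynomial.eval_X]; rfl⟩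
      · exact ⟨0, fun t => by rw [coord_apply, jc_ne hk]; simp, by
          rw [Polynomial.eval_zero]; rfl⟩
    | algebraMap r => exact ⟨Polynomial.C r, fun t => by simp, by simp⟩
    | add x y hx hy h1 h2 =>
      obtain ⟨p, hp1, hp2⟩ := h1
      obtain ⟨q, hq1, hq2⟩ := h2
      exact ⟨p + q, fun t => by simp [hp1, hq1], by simp [hp2, hq2]⟩
    | mul x y hx hy h1 h2 =>
      obtain ⟨p, hp1, hp2⟩ := h1
      obtain ⟨q, hq1, hq2⟩ := h2
      exact ⟨p * q, fun t => by simp [hp1, hq1], by simp [hp2, hq2]⟩
  have h2 : ∀ g ∈ Algebra.adjoin ℂ (Set.range (coord (I := I))), meanDiff i g = 0 := by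
    intro g hg
    obtain ⟨p, hp1, hp2⟩ := h1 g hg
    show ∫ t, g (jc i t) ∂hm - g origin = 0
    have e1 : (fun t => g (jc i t)) = fun t => ∑ k ∈ Finset.range (p.natDegree + 1),
        p.coeff k * fourier (k : ℤ) t := by
      funext t
      rw [hp1, Polynomial.eval_eq_sum_range]
      apply Finset.sum_congr rfl
      intro k _
      rw [fourier_pow]
    rw [e1, integral_finsetSum, hp2]
    · have e2 : ∀ k ∈ Finset.range (p.natDegree + 1),
          ∫ t, p.coeff k * fourier (k : ℤ) t ∂hm = if k = 0 then p.coeff 0 else 0 := by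
        intro k _
        rw [integral_const_mul]
        by_cases hk : k = 0
        · subst hk; simp
        · rw [integral_fourier _ (by exact_mod_cast hk)]
          simp [hk]
      rw [Finset.sum_congr rfl e2, Finset.sum_ite_eq' (Finset.range (p.natDegree + 1)) 0]
      simp [Polynomial.coeff_zero_eq_eval_zero]
    · intro k _
      exact (integrable_cont hm (fourier (k : ℤ)).continuous).const_mul _
  have hf' : f ∈ closure ((Algebra.adjoin ℂ (Set.range (coord (I := I))) :
    Subalgebra ℂ C(Wedge I, ℂ)) : Set C(Wedge I, ℂ)) := hf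
  have h3 : IsClosed {g : C(Wedge I, ℂ) | meanDiff i g = 0} :=
    isClosed_eq (meanDiff i).continuous continuous_const
  have h4 : meanDiff i f = 0 := closure_minimal (fun g hg => h2 g hg) h3 hf'
  have h5 : ∫ t, f (jc i t) ∂hm - f origin = 0 := h4
  exact sub_eq_zero.1 h5

/-- the weighted sum of the normalised arc length measures of the boundary circles -/
def lam (w : I → ℝ≥0) : Measure (Wedge I) := Measure.sum (fun i => (w i : ℝ≥0∞) • hm.map (jc i))

lemma lam_finite (w : I → ℝ≥0) (hw : Summable w) : IsFiniteMeasure (lam w) := by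
  refine ⟨?_⟩
  unfold lam
  rw [Measure.sum_apply _ MeasurableSet.univ]
  have : ∀ i, ((w i : ℝ≥0∞) • hm.map (jc i)) Set.univ = (w i : ℝ≥0∞) := by
    intro i
    rw [Measure.smul_apply, Measure.map_apply (jc i).continuous.measurable MeasurableSet.univ]
    simp
  simp only [this]
  exact (ENNReal.tsum_coe_ne_top_iff_summable.2 hw).lt_top

lemma integrable_jc {E : Type} [NormedAddCommGroup E] {w : I → ℝ≥0} {F : Wedge I → E}
    (hF : Integrable F (lam w)) {i : I} (hi : w i ≠ 0) : Integrable (fun t => F (jc i t)) hm := by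
  have h1 : Integrable F ((w i : ℝ≥0∞) • hm.map (jc i)) :=
    hF.mono_measure (Measure.le_sum (fun i => (w i : ℝ≥0∞) • hm.map (jc i)) i)
  rw [integrable_smul_measure (by exact_mod_cast hi) ENNReal.coe_ne_top] at h1
  exact h1.comp_measurable (jc i).continuous.measurable

lemma hasSum_lam {E : Type} [NormedAddCommGroup E] [NormedSpace ℝ E] {w : I → ℝ≥0}
    {F : Wedge I → E} (hF : Integrable F (lam w)) :
    HasSum (fun i => (w i : ℝ) • ∫ t, F (jc i t) ∂hm) (∫ x, F x ∂(lam w)) := by
  have h1 := hasSum_integral_measure (μ := fun i => (w i : ℝ≥0∞) • hm.map (jc i)) hF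
  have h2 : (fun i => ∫ x, F x ∂((w i : ℝ≥0∞) • hm.map (jc i)))
      = fun i => (w i : ℝ) • ∫ t, F (jc i t) ∂hm := by
    funext i
    rw [integral_smul_measure]
    by_cases hi : w i = 0
    · simp [hi]
    · have h3 : Integrable F ((w i : ℝ≥0∞) • hm.map (jc i)) :=
        hF.mono_measure (Measure.le_sum (fun i => (w i : ℝ≥0∞) • hm.map (jc i)) i)
      rw [integrable_smul_measure (by exact_mod_cast hi) ENNReal.coe_ne_top] at h3
      rw [integral_map (jc i).continuous.aemeasurable h3.aestronglyMeasurable]
      simp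
  rw [h2] at h1
  exact h1

/-- A real measure `k dλ` that annihilates the algebra is constant on every circle. -/
theorem ann {w : I → ℝ≥0} (k : Wedge I → ℝ) (hk : Integrable k (lam w))
    (hann : ∀ f ∈ WA I, ∫ x, f x * (k x : ℂ) ∂(lam w) = 0) :
    (∀ i, w i ≠ 0 → ∀ᵐ t ∂hm, k (jc i t) = ∫ s, k (jc i s) ∂hm) ∧
    HasSum (fun i => (w i : ℝ) * ∫ t, k (jc i t) ∂hm) 0 := by
  have hkC : Integrable (fun x => (k x : ℂ)) (lam w) := hk.ofReal
  constructor
  · intro i hi
    apply ae_const_of_fourier _ (integrable_jc hk hi)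
    have hpos : ∀ n : ℕ, n ≠ 0 → ∫ t, fourier (n : ℤ) t * (k (jc i t) : ℂ) ∂hm = 0 := by
      intro n hn
      have h1 := hann (coord i ^ n) ((WA I).pow_mem (coord_mem i) n)
      have hint : Integrable (fun x => (coord i ^ n) x * (k x : ℂ)) (lam w) :=
        hkC.bdd_mul (c := ‖(coord i ^ n : C(Wedge I, ℂ))‖)
          (coord i ^ n : C(Wedge I, ℂ)).continuous.measurable.aestronglyMeasurable
          (Eventually.of_forall (fun t => ContinuousMap.norm_coe_le_norm _ t))
      have h2 := hasSum_lam hint
      rw [h1] at h2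
      have h3 : HasSum (fun l => (w l : ℝ) • ∫ t, (coord i ^ n) (jc l t) * (k (jc l t) : ℂ) ∂hm)
          ((w i : ℝ) • ∫ t, (coord i ^ n) (jc i t) * (k (jc i t) : ℂ) ∂hm) := by
        apply hasSum_single
        intro l hl
        have : (fun t => (coord i ^ n) (jc l t) * (k (jc l t) : ℂ)) = fun _ => 0 := by
          funext t
          rw [ContinuousMap.pow_apply, coord_apply, jc_ne (Ne.symm hl), zero_pow hn, zero_mul]
        rw [this]
        simp
      have h4 := h2.unique h3
      have h5 : ∫ t, (coord i ^ n) (jc i t) * (k (jc i t) : ℂ) ∂hm = 0 := by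
        have h6 : ((w i : ℝ)) ≠ 0 := by exact_mod_cast hi
        exact (smul_eq_zero.1 h4.symm).resolve_left h6
      rw [← h5]
      congr 1
      funext t
      rw [ContinuousMap.pow_apply, coord_apply, jc_same, fourier_pow]
    intro n hn
    obtain ⟨m, rfl | rfl⟩ := n.eq_nat_or_neg
    · exact hpos m (by exact_mod_cast hn)
    · have hm' : m ≠ 0 := by
        rintro rfl
        simp at hn
      have h1 := congrArg (starRingEnd ℂ) (hpos m hm')
      rw [← integral_conj, map_zero] at h1
      rw [← h1]
      congr 1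
      funext t
      rw [map_mul, Complex.conj_ofReal, fourier_neg]
  · have h1 := hann 1 (WA I).one_mem
    have h2 := hasSum_lam hk
    have h3 : ∫ x, k x ∂(lam w) = 0 := by
      have : ∫ x, (k x : ℂ) ∂(lam w) = 0 := by simpa using h1
      rw [integral_complex_ofReal] at this
      exact_mod_cast this
    rw [h3] at h2
    exact h2

end WedgeMeasure

end

end Pool.Agent.Q194.Bishop
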