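import Pool.Agent.Q194.Bishop

/-!
# Measures on the wedge of discs: equivalence, log-modulus order, extremality
-/

set_option autoImplicit false
set_option linter.unusedSectionVars false
set_option linter.unusedVariables false
set_option synthInstance.maxHeartbeats 400000

open Set Topology Filter MeasureTheory
open scoped ENNReal NNReal ComplexConjugate

namespace Pool.Agent.Q194.Bishop

noncomputable section

section Defs

variable {S : Type} [TopologicalSpace S] [CompactSpace S] [MeasurableSpace S] [BorelSpace S]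

/-- Two finite positive measures are equivalent relative to `A` if they have the same integrals
of all elements of `A`. -/
def Equivalent (A : Subalgebra ℂ C(S, ℂ)) (μ ν : FiniteMeasure S) : Prop :=
  ∀ f ∈ A, ∫ x, f x ∂(μ : Measure S) = ∫ x, f x ∂(ν : Measure S)

/-- `E(μ)`: the finite measures that are absolutely continuous with respect to `μ` and equivalent
to `μ`. -/
def EE (A : Subalgebra ℂ C(S, ℂ)) (μ : FiniteMeasure S) : Set (FiniteMeasure S) :=
  {ν | (ν : Measure S) ≪ (μ : Measure S) ∧ Equivalent A μ ν}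

/-- `∫ log|f| dν` with values in `[-∞, ∞]`: the integral of the positive part minus the integral
of the negative part of `log|f|`, where `log 0 = -∞`. -/
def logInt (f : C(S, ℂ)) (ν : FiniteMeasure S) : EReal :=
  ((∫⁻ x, ENNReal.ofReal (Real.log ‖f x‖) ∂(ν : Measure S) : ℝ≥0∞) : EReal)
    - ((∫⁻ x, (if f x = 0 then (⊤ : ℝ≥0∞) else ENNReal.ofReal (-Real.log ‖f x‖))
        ∂(ν : Measure S) : ℝ≥0∞) : EReal)

/-- `μ ⪯ ν`: `∫ log|f| dμ ≤ ∫ log|f| dν` for all `f ∈ A`. -/
def LogLe (A : Subalgebra ℂ C(S, ℂ)) (μ ν : FiniteMeasure S) : Prop :=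
  ∀ f ∈ A, logInt f μ ≤ logInt f ν

end Defs

/-! ### the density functions -/

instance {I : Type} [Countable I] : SecondCountableTopology (Wedge I) :=
  (Topology.IsEmbedding.subtypeVal (p := fun x : I → ℂ =>
    (∀ i, ‖x i‖ ≤ 1) ∧ ∀ i j, i ≠ j → x i * x j = 0)).secondCountableTopology

instance {I : Type} [Countable I] : TopologicalSpace.MetrizableSpace (Wedge I) :=
  TopologicalSpace.metrizableSpace_of_t3_secondCountable _

/-- the density on the circle, with a zero at the point `1` -/
def gg (t : UnitAddCircle) : ℝ := ‖1 - (fourier 1 t : ℂ)‖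

lemma gg_nonneg (t : UnitAddCircle) : 0 ≤ gg t := norm_nonneg _

lemma gg_cont : Continuous gg := by
  unfold gg
  fun_prop

lemma gg_le (t : UnitAddCircle) : gg t ≤ 2 := by
  unfold gg
  have h1 : ‖(fourier 1 t : ℂ)‖ = 1 := by simp [Circle.norm_coe]
  calc _ ≤ ‖(1 : ℂ)‖ + ‖(fourier 1 t : ℂ)‖ := norm_sub_le _ _
    _ = 2 := by rw [h1]; norm_num

lemma gg_zero : gg 0 = 0 := by
  unfold gg
  simp

lemma gg_ae_pos : ∀ᵐ t ∂hm, 0 < gg t := by
  have hN : Nontrivial UnitAddCircle := ⟨0, ((1 / 2 : ℝ) : UnitAddCircle), by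
    intro h
    obtain ⟨n, hn⟩ := (AddCircle.coe_eq_zero_iff (1 : ℝ)).1 h.symm
    rw [zsmul_eq_mul, mul_one] at hn
    have h2 : (2 * n : ℝ) = 1 := by linarith
    have h3 : 2 * n = 1 := by exact_mod_cast h2
    omega⟩
  have hB : (𝓝[≠] (0 : UnitAddCircle)).NeBot :=
    ConnectedSpace.neBot_nhdsWithin_compl_of_nontrivial_of_t1space 0
  have h1 : ∀ᵐ t ∂(hm : Measure UnitAddCircle), t ≠ 0 := by
    rw [ae_iff]
    simp only [not_not]
    have : {t : UnitAddCircle | t = 0} = {0} := by ext; simp
    rw [this]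
    exact measure_singleton 0
  filter_upwards [h1] with t ht
  have : gg t ≠ 0 := by
    intro h
    apply ht
    unfold gg at h
    rw [norm_eq_zero, sub_eq_zero] at h
    have h4 : AddCircle.toCircle t = AddCircle.toCircle (0 : UnitAddCircle) := by
      rw [AddCircle.toCircle_zero]
      apply Subtype.ext
      simpa using h.symm
    exact AddCircle.injective_toCircle one_ne_zero h4
  exact lt_of_le_of_ne (gg_nonneg t) (Ne.symm this)

/-- the set where `gg < ε` has positive measure -/
lemma gg_small (ε : ℝ) (hε : 0 < ε) : 0 < hm {t | gg t < ε} := by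
  exact (isOpen_lt gg_cont continuous_const).measure_pos hm
    ⟨0, by show gg 0 < ε; rw [gg_zero]; exact hε⟩

/-- If `a ≥ -gg` almost everywhere then `a ≥ 0`. -/
lemma nonneg_of_ge (a : ℝ) (h : ∀ᵐ t ∂hm, -gg t ≤ a) : 0 ≤ a := by
  by_contra hcon
  push Not at hcon
  have h1 := gg_small (-a) (by linarith)
  have h2 : ∀ᵐ t ∂hm, ¬ (gg t < -a) := by
    filter_upwards [h] with t ht
    intro h3
    linarith
  rw [ae_iff] at h2
  simp only [not_not] at h2
  rw [h2] at h1
  exact lt_irrefl _ h1

/-- If `|a| ≤ C gg` almost everywhere then `a = 0`. -/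
lemma zero_of_le (a C : ℝ) (h : ∀ᵐ t ∂hm, |a| ≤ C * gg t) : a = 0 := by
  by_contra hcon
  have ha : 0 < |a| := abs_pos.2 hcon
  have hC : 0 < |C| + 1 := by positivity
  have h1 := gg_small (|a| / (|C| + 1)) (by positivity)
  have h2 : ∀ᵐ t ∂hm, ¬ (gg t < |a| / (|C| + 1)) := by
    filter_upwards [h] with t ht
    intro h3
    rw [lt_div_iff₀ hC] at h3
    have h4 : C * gg t ≤ |C| * gg t := mul_le_mul_of_nonneg_right (le_abs_self C) (gg_nonneg t)
    nlinarith [gg_nonneg t]
  rw [ae_iff] at h2
  simp only [not_not] at h2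
  rw [h2] at h1
  exact lt_irrefl _ h1

section Mu

variable {I : Type} [Countable I] [DecidableEq I]

lemma ae_lam {w : I → ℝ≥0} {P : Wedge I → Prop} (hP : MeasurableSet {x | P x})
    (h : ∀ i, ∀ᵐ t ∂hm, P (jc i t)) : ∀ᵐ x ∂(lam w), P x := by
  unfold lam
  rw [Measure.ae_sum_iff]
  intro i
  exact Measure.ae_smul_measure ((ae_map_iff (jc i).continuous.aemeasurable hP).2 (h i)) _

/-- the measure `G dλ` on the boundary circles -/
def muM (w : I → ℝ≥0) (G : Wedge I → ℝ) : Measure (Wedge I) :=
  (lam w).withDensity (fun x => ENNReal.ofReal (G x))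

variable {E : Type} [NormedAddCommGroup E] [NormedSpace ℝ E] {w : I → ℝ≥0} {G : Wedge I → ℝ}

lemma muM_integrable_iff (hG : Measurable G) (hG0 : ∀ x, 0 ≤ G x) {F : Wedge I → E} :
    Integrable F (muM w G) ↔ Integrable (fun x => G x • F x) (lam w) := by
  unfold muM
  rw [integrable_withDensity_iff_integrable_smul' hG.ennreal_ofReal
    (Eventually.of_forall (fun x => ENNReal.ofReal_lt_top))]
  have : (fun x => (ENNReal.ofReal (G x)).toReal • F x) = fun x => G x • F x := by
    funext x
    rw [ENNReal.toReal_ofReal (hG0 x)]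
  rw [this]

lemma muM_integral (hG : Measurable G) (hG0 : ∀ x, 0 ≤ G x) (F : Wedge I → E) :
    ∫ x, F x ∂(muM w G) = ∫ x, G x • F x ∂(lam w) := by
  unfold muM
  rw [integral_withDensity_eq_integral_toReal_smul hG.ennreal_ofReal
    (Eventually.of_forall (fun x => ENNReal.ofReal_lt_top))]
  congr 1
  funext x
  rw [ENNReal.toReal_ofReal (hG0 x)]

lemma muM_finite (hw : Summable w) (C : ℝ) (hC : ∀ x, G x ≤ C) : IsFiniteMeasure (muM w G) := by
  have := lam_finite w hw
  apply isFiniteMeasure_withDensity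
  refine ne_of_lt (lt_of_le_of_lt (lintegral_mono (fun x => ENNReal.ofReal_le_ofReal (hC x))) ?_)
  rw [lintegral_const]
  exact ENNReal.mul_lt_top ENNReal.ofReal_lt_top (measure_lt_top _ _)

theorem rn (hw : Summable w) (hw0 : ∀ i, w i ≠ 0) (hG : Measurable G) (hG0 : ∀ x, 0 ≤ G x)
    (C : ℝ) (hC : ∀ x, G x ≤ C) (μ ν : FiniteMeasure (Wedge I))
    (hμ : (μ : Measure (Wedge I)) = muM w G) (hν : (ν : Measure (Wedge I)) ≪ (μ : Measure (Wedge I)))
    (he : Equivalent (WA I) μ ν) :
    ∃ (a : I → ℝ) (h : Wedge I → ℝ), Measurable h ∧ (∀ x, 0 ≤ h x) ∧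
      (ν : Measure (Wedge I)) = muM w (fun x => h x * G x) ∧
      (∀ i, ∀ᵐ t ∂hm, (h (jc i t) - 1) * G (jc i t) = a i) ∧
      HasSum (fun i => (w i : ℝ) * a i) 0 := by
  have hlf := lam_finite w hw
  have hmf := muM_finite (G := G) hw C hC
  set r : Wedge I → ℝ≥0∞ := (ν : Measure (Wedge I)).rnDeriv (μ : Measure (Wedge I)) with hr
  have hrm : Measurable r := Measure.measurable_rnDeriv _ _
  set h : Wedge I → ℝ := fun x => (r x).toReal with hh
  have hhm : Measurable h := hrm.ennreal_toReal
  have hh0 : ∀ x, 0 ≤ h x := fun x => ENNReal.toReal_nonneg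
  have e1 : (ν : Measure (Wedge I)) = muM w (fun x => h x * G x) := by
    have a1 := Measure.withDensity_rnDeriv_eq _ _ hν
    rw [← a1]
    have a2 : r =ᵐ[(μ : Measure (Wedge I))] fun x => ENNReal.ofReal (h x) := by
      filter_upwards [Measure.rnDeriv_lt_top (ν : Measure (Wedge I)) (μ : Measure (Wedge I))] with x hx
      exact (ENNReal.ofReal_toReal hx.ne).symm
    rw [withDensity_congr_ae a2, hμ]
    unfold muM
    rw [← withDensity_mul _ hG.ennreal_ofReal hhm.ennreal_ofReal]
    congr 1
    funext x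
    show ENNReal.ofReal (G x) * ENNReal.ofReal (h x) = _
    rw [← ENNReal.ofReal_mul (hG0 x), mul_comm]
  have hGi : Integrable G (lam w) := by
    have : Integrable (fun _ => (1 : ℝ)) (muM w G) := integrable_const _
    rw [muM_integrable_iff hG hG0] at this
    simpa using this
  have hhG : Measurable (fun x => h x * G x) := hhm.mul hG
  have hhG0 : ∀ x, 0 ≤ h x * G x := fun x => mul_nonneg (hh0 x) (hG0 x)
  have hhGi : Integrable (fun x => h x * G x) (lam w) := by
    have : Integrable (fun _ => (1 : ℝ)) (muM w (fun x => h x * G x)) := by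
      rw [← e1]; exact integrable_const _
    rw [muM_integrable_iff hhG hhG0] at this
    simpa using this
  have hk : Integrable (fun x => (h x - 1) * G x) (lam w) := by
    have := hhGi.sub hGi
    refine this.congr (Eventually.of_forall (fun x => ?_))
    simp only [Pi.sub_apply]
    ring
  have hann : ∀ f ∈ WA I, ∫ x, f x * (((h x - 1) * G x : ℝ) : ℂ) ∂(lam w) = 0 := by
    intro f hf
    have b1 := he f hf
    rw [hμ, e1, muM_integral hG hG0, muM_integral hhG hhG0] at b1
    have fi1 : Integrable (fun x => (G x) • f x) (lam w) := by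
      rw [← muM_integrable_iff hG hG0]
      exact integrable_cont _ f.continuous
    have fi2 : Integrable (fun x => (h x * G x) • f x) (lam w) := by
      rw [← muM_integrable_iff hhG hhG0, ← e1]
      exact integrable_cont _ f.continuous
    have e2 : (fun x => f x * (((h x - 1) * G x : ℝ) : ℂ))
        = fun x => (h x * G x) • f x - (G x) • f x := by
      funext x
      simp only [Complex.real_smul]
      push_cast
      ring
    rw [e2, integral_sub fi2 fi1, b1, sub_self]
  obtain ⟨c1, c2⟩ := ann (fun x => (h x - 1) * G x) hk hann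
  exact ⟨fun i => ∫ s, (h (jc i s) - 1) * G (jc i s) ∂hm, h, hhm, hh0, e1,
    fun i => c1 i (hw0 i), c2⟩

end Mu

end

end Pool.Agent.Q194.Bishop
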