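import Mathlib.Analysis.Complex.AbsMax
import Mathlib.Analysis.Complex.LocallyUniformLimit
import Mathlib.Analysis.Complex.CauchyIntegral
import Mathlib.Analysis.Analytic.Uniqueness
import Mathlib.Analysis.Analytic.IsolatedZeros
import Mathlib.Topology.ContinuousMap.Compact
import Mathlib.Topology.ContinuousMap.Polynomial
import Mathlib.Topology.Algebra.Algebra
import Mathlib.RingTheory.Adjoin.Polynomial.Basic
import Mathlib.Analysis.Normed.Algebra.Basic
import Mathlib.Analysis.Calculus.Deriv.Polynomial
import Mathlib.Analysis.SpecialFunctions.Complex.Log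

/-!
# The disc algebra as the closure of the polynomials in `C(𝔻̄)`
-/

set_option autoImplicit false

namespace Pool.Agent.Q194.DiscAlg

open Set Topology Filter Metric
open scoped Classical

/-- The closed unit disc. -/
abbrev KK : Type := closedBall (0 : ℂ) 1

/-- The coordinate function. -/
def ZZ : C(KK, ℂ) := ⟨fun z => z.1, continuous_subtype_val⟩

/-- The disc algebra. -/
noncomputable def DA : Subalgebra ℂ C(KK, ℂ) := (Algebra.adjoin ℂ {ZZ}).topologicalClosure

theorem isClosed_DA : IsClosed (DA : Set C(KK, ℂ)) := Subalgebra.isClosed_topologicalClosure _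

instance : CompleteSpace DA := isClosed_DA.completeSpace_coe

theorem ZZ_mem : ZZ ∈ DA :=
  Subalgebra.le_topologicalClosure _ (Algebra.subset_adjoin (mem_singleton _))

/-- The coordinate function as an element of the disc algebra. -/
noncomputable def zz : DA := ⟨ZZ, ZZ_mem⟩

/-- The value of an element of the disc algebra at a point of the plane (`0` outside the disc). -/
noncomputable def ev (f : DA) (z : ℂ) : ℂ := if h : z ∈ closedBall (0 : ℂ) 1 then f.1 ⟨z, h⟩ else 0

theorem ev_of_mem (f : DA) {z : ℂ} (h : z ∈ closedBall (0 : ℂ) 1) : ev f z = f.1 ⟨z, h⟩ := dif_pos h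

theorem ev_mul (f g : DA) (z : ℂ) : ev (f * g) z = ev f z * ev g z := by
  unfold ev
  split_ifs with h
  · rfl
  · ring

theorem ev_sub (f g : DA) (z : ℂ) : ev (f - g) z = ev f z - ev g z := by
  unfold ev
  split_ifs with h
  · rfl
  · ring

theorem ev_zero (z : ℂ) : ev 0 z = 0 := by
  unfold ev
  split_ifs with h <;> rfl

theorem ev_zz {z : ℂ} (h : z ∈ closedBall (0 : ℂ) 1) : ev zz z = z := ev_of_mem zz h

theorem ev_algebraMap (c : ℂ) {z : ℂ} (h : z ∈ closedBall (0 : ℂ) 1) :
    ev (algebraMap ℂ DA c) z = c := ev_of_mem _ h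

theorem ev_pow (f : DA) (n : ℕ) {z : ℂ} (h : z ∈ closedBall (0 : ℂ) 1) :
    ev (f ^ n) z = ev f z ^ n := by
  rw [ev_of_mem _ h, ev_of_mem _ h]
  rfl

theorem norm_ev_le (f : DA) (z : ℂ) : ‖ev f z‖ ≤ ‖f‖ := by
  unfold ev
  split_ifs with h
  · exact f.1.norm_coe_le_norm _
  · rw [norm_zero]
    exact norm_nonneg _

instance : Nonempty KK := ⟨⟨0, mem_closedBall_self zero_le_one⟩⟩

instance instNormOneDA : NormOneClass DA where
  norm_one := by
    have h : ‖(1 : C(KK, ℂ))‖ = 1 := norm_one
    exact h

theorem norm_le_of_ev {f : DA} {C : ℝ} (hC : 0 ≤ C) (h : ∀ z ∈ closedBall (0 : ℂ) 1, ‖ev f z‖ ≤ C) :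
    ‖f‖ ≤ C := by
  refine (ContinuousMap.norm_le _ hC).2 fun z => ?_
  have := h z.1 z.2
  rwa [ev_of_mem _ z.2] at this

theorem continuousOn_ev (f : DA) : ContinuousOn (ev f) (closedBall 0 1) := by
  rw [continuousOn_iff_continuous_domRestrict]
  have : (closedBall (0 : ℂ) 1).domRestrict (ev f) = f.1 := by
    funext z
    exact ev_of_mem f z.2
  rw [this]
  exact f.1.continuous

theorem differentiableOn_ev (f : DA) : DifferentiableOn ℂ (ev f) (ball 0 1) := by
  have hcl : f.1 ∈ closure ((Algebra.adjoin ℂ {ZZ} : Subalgebra ℂ C(KK, ℂ)) : Set C(KK, ℂ)) := f.2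
  obtain ⟨v, hv, hlim⟩ := mem_closure_iff_seq_limit.1 hcl
  have hpoly : ∀ n, ∃ P : Polynomial ℂ, Polynomial.aeval ZZ P = v n := by
    intro n
    have h := hv n
    rw [SetLike.mem_coe, Algebra.adjoin_singleton_eq_range_aeval] at h
    exact h
  choose P hP using hpoly
  have hev : ∀ n (z : KK), v n z = (P n).eval (z : ℂ) := by
    intro n z
    rw [← hP n]
    have h1 : ∀ Q : Polynomial ℂ, (Polynomial.aeval ZZ Q) z = Q.eval (z : ℂ) := by
      intro Q
      induction Q using Polynomial.induction_on' with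
      | add p q hp hq => rw [map_add, ContinuousMap.add_apply, hp, hq, Polynomial.eval_add]
      | monomial n a =>
        rw [Polynomial.aeval_monomial, Polynomial.eval_monomial]
        rfl
    exact h1 _
  have hunif : TendstoUniformlyOn (fun n z => (P n).eval z) (ev f) atTop (ball 0 1) := by
    rw [Metric.tendstoUniformlyOn_iff]
    intro ε hε
    rw [Metric.tendsto_atTop] at hlim
    obtain ⟨N, hN⟩ := hlim ε hε
    filter_upwards [eventually_ge_atTop N] with n hn z hz
    have hz' := ball_subset_closedBall hz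
    rw [ev_of_mem f hz', ← hev n ⟨z, hz'⟩, dist_comm]
    exact lt_of_le_of_lt (ContinuousMap.dist_apply_le_dist _) (hN n hn)
  exact hunif.tendstoLocallyUniformlyOn.differentiableOn
    (Eventually.of_forall fun n => (P n).differentiable.differentiableOn) isOpen_ball

end Pool.Agent.Q194.DiscAlg
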