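import Mathlib

set_option autoImplicit false

/-! Basic theory of JB*-algebras: linearised Jordan identity, power associativity, the commutative
C*-algebra generated by a self-adjoint element, and the factorisation of every element as a sum of
four products. -/

namespace Pool.Agent.Q194.JB

open Filter Topology ComplexConjugate

/-- The data and axioms of a JB*-algebra on a complex normed space (completeness is required
separately). -/
structure JBStar (A : Type*) [NormedAddCommGroup A] [NormedSpace ℂ A] where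
  /-- the Jordan product -/
  mul : A →ₗ[ℂ] A →ₗ[ℂ] A
  /-- the involution -/
  st : A → A
  mul_comm : ∀ a b, mul a b = mul b a
  jordan : ∀ a b, mul (mul a b) (mul a a) = mul a (mul b (mul a a))
  norm_mul_le : ∀ a b, ‖mul a b‖ ≤ ‖a‖ * ‖b‖
  st_add : ∀ a b, st (a + b) = st a + st b
  st_smul : ∀ (c : ℂ) (a : A), st (c • a) = conj c • st a
  st_st : ∀ a, st (st a) = a
  st_mul : ∀ a b, st (mul a b) = mul (st a) (st b)
  norm_cube : ∀ a, ‖(2 : ℂ) • mul (mul a (st a)) a - mul (mul a a) (st a)‖ = ‖a‖ ^ 3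

lemma abstract_sq {N : Type*} [i1 : NormedAddCommGroup N] [i2 : NormedSpace ℂ N] [i3 : CompleteSpace N]
    (m : N →ₗ[ℂ] N →ₗ[ℂ] N) (s : N → N) (hcomm : ∀ x y, m x y = m y x)
    (hassoc : ∀ x y z, m (m x y) z = m x (m y z)) (hnorm : ∀ x y, ‖m x y‖ ≤ ‖x‖ * ‖y‖)
    (s_add : ∀ x y, s (x + y) = s x + s y) (s_smul : ∀ (c : ℂ) x, s (c • x) = conj c • s x)
    (s_s : ∀ x, s (s x) = x) (s_mul : ∀ x y, s (m x y) = m (s x) (s y))
    (cstar : ∀ x, ‖x‖ * ‖x‖ ≤ ‖m (s x) x‖) (h : N) (hh : s h = h) :
    ∃ p q : N, h = m p p - m q q := by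
  let inst : NonUnitalCommCStarAlgebra N :=
    { i1, i2, i3 with
      mul := fun x y => m x y
      left_distrib := fun x y z => by simp only [HMul.hMul, map_add]
      right_distrib := fun x y z => by simp only [HMul.hMul, map_add, LinearMap.add_apply]
      zero_mul := fun x => by simp only [HMul.hMul, map_zero, LinearMap.zero_apply]
      mul_zero := fun x => by simp only [HMul.hMul, map_zero]
      mul_assoc := fun x y z => hassoc x y z
      mul_comm := fun x y => hcomm x y
      norm_mul_le := fun x y => hnorm x y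
      star := s
      star_involutive := s_s
      star_mul := fun x y => by
        change s (m x y) = m (s y) (s x)
        rw [s_mul, hcomm]
      star_add := s_add
      norm_mul_self_le := fun {x} => cstar x
      smul_assoc := fun c x y => by
        change m (c • x) y = c • m x y
        simp
      smul_comm := fun c x y => by
        change c • m x y = m x (c • y)
        simp
      star_smul := fun c x => s_smul c x }
  have hsa : IsSelfAdjoint h := hh
  let f : ℝ → ℝ := fun x => √(max x 0)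
  let g : ℝ → ℝ := fun x => √(max (-x) 0)
  have hf : Continuous f := by fun_prop
  have hg : Continuous g := by fun_prop
  have hf0 : f 0 = 0 := by simp [f]
  have hg0 : g 0 = 0 := by simp [g]
  refine ⟨cfcₙ f h, cfcₙ g h, ?_⟩
  change h = cfcₙ f h * cfcₙ f h - cfcₙ g h * cfcₙ g h
  rw [← cfcₙ_mul f f h hf.continuousOn hf0 hf.continuousOn hf0,
    ← cfcₙ_mul g g h hg.continuousOn hg0 hg.continuousOn hg0,
    ← cfcₙ_sub (fun x => f x * f x) (fun x => g x * g x) h (hf.mul hf).continuousOn (by simp [hf0])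
      (hg.mul hg).continuousOn (by simp [hg0])]
  conv_lhs => rw [← cfcₙ_id' ℝ h]
  congr 1
  funext x
  simp only [f, g]
  rw [Real.mul_self_sqrt (le_max_right _ _), Real.mul_self_sqrt (le_max_right _ _)]
  rcases le_total x 0 with hx | hx
  · rw [max_eq_right hx, max_eq_left (by linarith)]; ring
  · rw [max_eq_left hx, max_eq_right (by linarith)]; ring

variable {A : Type*} [NormedAddCommGroup A] [NormedSpace ℂ A]

namespace JBStar

variable (J : JBStar A)

/-- The linearised Jordan identity. -/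
lemma lin (a b c d : A) :
    J.mul a (J.mul (J.mul b c) d) + J.mul b (J.mul (J.mul c a) d) + J.mul c (J.mul (J.mul a b) d) =
    J.mul (J.mul b c) (J.mul a d) + J.mul (J.mul c a) (J.mul b d)
      + J.mul (J.mul a b) (J.mul c d) := by
  have h1 := J.jordan (a + b + c) d
  have h2 := J.jordan (a + b) d
  have h3 := J.jordan (b + c) d
  have h4 := J.jordan (c + a) d
  have h5 := J.jordan a d
  have h6 := J.jordan b d
  have h7 := J.jordan c d
  simp only [map_add, LinearMap.add_apply] at h1 h2 h3 h4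
  simp only [J.mul_comm b a, J.mul_comm a c, J.mul_comm c b, J.mul_comm d] at h1 h2 h3 h4 h5 h6 h7 ⊢
  simp only [J.mul_comm (J.mul _ d) (J.mul _ _)] at h1 h2 h3 h4 h5 h6 h7 ⊢
  linear_combination (norm := module) (-1 / 2 : ℂ) • (h1 - h2 - h3 - h4 + h5 + h6 + h7)
  


/-- The product formula for multiplication operators. -/
lemma opform (a b c d : A) :
    J.mul (J.mul (J.mul b c) a) d =
    J.mul a (J.mul (J.mul b c) d) + J.mul b (J.mul (J.mul c a) d) + J.mul c (J.mul (J.mul a b) d)
      - J.mul b (J.mul a (J.mul c d)) - J.mul c (J.mul a (J.mul b d)) := by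
  have h1 := J.lin a b c d
  have h2 := J.lin d b c a
  have e1 : J.mul d (J.mul (J.mul b c) a) = J.mul (J.mul (J.mul b c) a) d := J.mul_comm _ _
  have e2 : J.mul (J.mul c d) a = J.mul a (J.mul c d) := J.mul_comm _ _
  have e3 : J.mul (J.mul d b) a = J.mul a (J.mul b d) := by rw [J.mul_comm d b, J.mul_comm]
  have e4 : J.mul d a = J.mul a d := J.mul_comm _ _
  have e5 : J.mul (J.mul c d) (J.mul b a) = J.mul (J.mul a b) (J.mul c d) := by
    rw [J.mul_comm b a, J.mul_comm]
  have e6 : J.mul (J.mul d b) (J.mul c a) = J.mul (J.mul c a) (J.mul b d) := by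
    rw [J.mul_comm d b, J.mul_comm]
  rw [e1, e2, e3, e4, e5, e6] at h2
  linear_combination (norm := module) h2 - h1

/-- The formula behind separate strict continuity. -/
lemma strict_formula (x b c z : A) :
    J.mul (J.mul b c) (J.mul x z) =
    J.mul x (J.mul (J.mul b c) z) + (J.mul b (J.mul (J.mul c x) z) - J.mul (J.mul c x) (J.mul b z))
      + (J.mul c (J.mul (J.mul x b) z) - J.mul (J.mul x b) (J.mul c z)) := by
  have h1 := J.lin x b c z
  linear_combination (norm := module) -h1

lemma continuous_mul_right (a : A) : Continuous fun x => J.mul a x :=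
  AddMonoidHomClass.continuous_of_bound (J.mul a) ‖a‖ fun x => J.norm_mul_le a x

lemma continuous_mul_left (a : A) : Continuous fun x => J.mul x a := by
  have : (fun x => J.mul x a) = fun x => J.mul a x := by
    funext x; exact J.mul_comm x a
  rw [this]; exact J.continuous_mul_right a

lemma st_zero : J.st 0 = 0 := by
  have := J.st_smul 0 0
  simpa using this

lemma st_neg (a : A) : J.st (-a) = - J.st a := by
  have := J.st_smul (-1) a
  simpa using this

lemma st_sub (a b : A) : J.st (a - b) = J.st a - J.st b := by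
  rw [sub_eq_add_neg, J.st_add, J.st_neg, sub_eq_add_neg]

lemma norm_le_three (a : A) : ‖a‖ ≤ 3 * ‖J.st a‖ := by
  by_cases ha : ‖a‖ = 0
  · rw [ha]; positivity
  have hp : 0 < ‖a‖ := lt_of_le_of_ne (norm_nonneg _) (Ne.symm ha)
  have h := J.norm_cube a
  have h1 : ‖(2 : ℂ) • J.mul (J.mul a (J.st a)) a‖ ≤ 2 * (‖a‖ * ‖J.st a‖ * ‖a‖) := by
    rw [norm_smul]
    have : ‖(2 : ℂ)‖ = 2 := by norm_num
    rw [this]
    refine mul_le_mul_of_nonneg_left ?_ (by norm_num)
    refine (J.norm_mul_le _ _).trans ?_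
    exact mul_le_mul_of_nonneg_right (J.norm_mul_le _ _) (norm_nonneg _)
  have h2 : ‖J.mul (J.mul a a) (J.st a)‖ ≤ ‖a‖ * ‖a‖ * ‖J.st a‖ :=
    (J.norm_mul_le _ _).trans (mul_le_mul_of_nonneg_right (J.norm_mul_le _ _) (norm_nonneg _))
  have h3 : ‖a‖ ^ 3 ≤ 3 * ‖a‖ ^ 2 * ‖J.st a‖ := by
    rw [← h]
    refine (norm_sub_le _ _).trans ?_
    nlinarith [h1, h2]
  have h4 : ‖a‖ ^ 2 * ‖a‖ ≤ ‖a‖ ^ 2 * (3 * ‖J.st a‖) := by nlinarith [h3]
  exact le_of_mul_le_mul_left h4 (by positivity)

lemma continuous_st : Continuous J.st := by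
  let f : A →+ A := { toFun := J.st, map_zero' := J.st_zero, map_add' := J.st_add }
  exact AddMonoidHomClass.continuous_of_bound f 3 fun x => by
    have := J.norm_le_three (J.st x)
    rwa [J.st_st] at this

/-- Powers: `pw h n = h ^ (n+1)`. -/
def pw (h : A) : ℕ → A
  | 0 => h
  | n + 1 => J.mul h (pw h n)

/-- The closed subspace generated by the powers of `h`. -/
def N (h : A) : Submodule ℂ A := (Submodule.span ℂ (Set.range (J.pw h))).topologicalClosure

lemma N_induction (h : A) (P : A → Prop) (hcl : IsClosed {x | P x}) (h0 : ∀ n, P (J.pw h n))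
    (hz : P 0) (hadd : ∀ x y, P x → P y → P (x + y)) (hsmul : ∀ (c : ℂ) x, P x → P (c • x)) :
    ∀ x ∈ J.N h, P x := by
  let M : Submodule ℂ A :=
    { carrier := {x | P x}
      add_mem' := fun {a b} ha hb => hadd a b ha hb
      zero_mem' := hz
      smul_mem' := fun c x hx => hsmul c x hx }
  have hM : J.N h ≤ M := by
    refine Submodule.topologicalClosure_minimal _ ?_ hcl
    rw [Submodule.span_le]
    rintro _ ⟨n, rfl⟩
    exact h0 n
  exact fun x hx => hM hx

lemma pw_mem (h : A) (n : ℕ) : J.pw h n ∈ J.N h :=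
  Submodule.le_topologicalClosure _ (Submodule.subset_span ⟨n, rfl⟩)

lemma isClosed_N (h : A) : IsClosed (J.N h : Set A) := Submodule.isClosed_topologicalClosure _

/-- Commuting of multiplication operators. -/
def Com (x y : A) : Prop := ∀ v, J.mul x (J.mul y v) = J.mul y (J.mul x v)

lemma Com.symm {x y : A} (h : J.Com x y) : J.Com y x := fun v => (h v).symm

lemma com_closed (y : A) : IsClosed {x | J.Com x y} := by
  have : {x | J.Com x y} = ⋂ v : A, {x | J.mul x (J.mul y v) = J.mul y (J.mul x v)} := by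
    ext x; simp [Com]
  rw [this]
  refine isClosed_iInter fun v => isClosed_eq (J.continuous_mul_left _) ?_
  exact (J.continuous_mul_right y).comp (J.continuous_mul_left v)

lemma com_add {x y z : A} (h1 : J.Com x z) (h2 : J.Com y z) : J.Com (x + y) z := by
  intro v
  simp only [map_add, LinearMap.add_apply]
  rw [h1 v, h2 v]

lemma com_smul {x z : A} (c : ℂ) (h1 : J.Com x z) : J.Com (c • x) z := by
  intro v
  simp only [map_smul, LinearMap.smul_apply]
  rw [h1 v]

lemma com_zero (z : A) : J.Com 0 z := by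
  intro v
  simp

lemma com_h_sq (h : A) : J.Com h (J.mul h h) := by
  intro v
  have h1 := J.jordan h v
  rw [J.mul_comm (J.mul h v) (J.mul h h), J.mul_comm v] at h1
  exact h1.symm

/-- The recursion `L_{h^{n+2}} = 2 L_h L_{h^{n+1}} + L_{h^n} L_{h²} - L_{h^n} L_h² - L_h² L_{h^n}`. -/
lemma recur (h p : A) (v : A) :
    J.mul (J.mul h (J.mul h p)) v =
      (2 : ℂ) • J.mul h (J.mul (J.mul h p) v) + J.mul p (J.mul (J.mul h h) v)
        - J.mul p (J.mul h (J.mul h v)) - J.mul h (J.mul h (J.mul p v)) := by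
  have h1 := J.opform h p h v
  have e1 : J.mul (J.mul p h) h = J.mul h (J.mul h p) := by
    rw [J.mul_comm p h, J.mul_comm]
  rw [e1, J.mul_comm p h] at h1
  linear_combination (norm := module) h1

/-- If `z` commutes with `h` and `h²` then it commutes with all powers. -/
lemma com_pw (h z : A) (h1 : J.Com h z) (h2 : J.Com (J.mul h h) z) :
    ∀ n, J.Com (J.pw h n) z := by
  have key : ∀ n, J.Com (J.pw h n) z ∧ J.Com (J.pw h (n + 1)) z := by
    intro n
    induction n with
    | zero => exact ⟨h1, h2⟩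
    | succ n ih =>
      refine ⟨ih.2, ?_⟩
      intro v
      have e1 := J.recur h (J.pw h n) (J.mul z v)
      have e2 := J.recur h (J.pw h n) v
      change J.mul (J.mul h (J.mul h (J.pw h n))) (J.mul z v) =
        J.mul z (J.mul (J.mul h (J.mul h (J.pw h n))) v)
      rw [e1, e2]
      simp only [map_add, map_sub, map_smul]
      have a1 : ∀ v, J.mul h (J.mul z v) = J.mul z (J.mul h v) := h1
      have a2 : ∀ v, J.mul (J.mul h h) (J.mul z v) = J.mul z (J.mul (J.mul h h) v) := h2
      have a3 : ∀ v, J.mul (J.pw h n) (J.mul z v) = J.mul z (J.mul (J.pw h n) v) := ih.1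
      have a4 : ∀ v, J.mul (J.mul h (J.pw h n)) (J.mul z v) =
        J.mul z (J.mul (J.mul h (J.pw h n)) v) := ih.2
      simp only [a1, a2, a3, a4]
  exact fun n => (key n).1

lemma com_pw_pw (h : A) (m n : ℕ) : J.Com (J.pw h m) (J.pw h n) := by
  refine J.com_pw h _ ?_ ?_ m
  · refine (J.com_pw h h ?_ ?_ n).symm
    · intro v; rfl
    · exact (J.com_h_sq h).symm
  · refine (J.com_pw h (J.mul h h) ?_ ?_ n).symm
    · exact J.com_h_sq h
    · intro v; rfl

lemma pw_mul_pw (h : A) (m n : ℕ) : J.mul (J.pw h m) (J.pw h n) = J.pw h (m + n + 1) := by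
  induction n with
  | zero =>
    change J.mul (J.pw h m) h = J.mul h (J.pw h m)
    exact J.mul_comm _ _
  | succ n ih =>
    change J.mul (J.pw h m) (J.mul h (J.pw h n)) = J.mul h (J.pw h (m + n + 1))
    rw [← ih]
    exact J.com_pw_pw h m 0 _

lemma com_N (h x y : A) (hx : x ∈ J.N h) (hy : y ∈ J.N h) : J.Com x y := by
  have key : ∀ n, ∀ x ∈ J.N h, J.Com x (J.pw h n) := by
    intro n
    refine J.N_induction h _ (J.com_closed _) (fun m => J.com_pw_pw h m n) (J.com_zero _)
      (fun x y hx hy => J.com_add hx hy) (fun c x hx => J.com_smul c hx)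
  exact J.N_induction h (fun x => J.Com x y) (J.com_closed y) (fun m => (key m y hy).symm)
    (J.com_zero _) (fun x y hx hy => J.com_add hx hy) (fun c x hx => J.com_smul c hx) x hx

lemma mul_mem_N (h x y : A) (hx : x ∈ J.N h) (hy : y ∈ J.N h) : J.mul x y ∈ J.N h := by
  have key : ∀ n, ∀ x ∈ J.N h, J.mul x (J.pw h n) ∈ J.N h := by
    intro n
    refine J.N_induction h (fun x => J.mul x (J.pw h n) ∈ J.N h) ?_ ?_ ?_ ?_ ?_
    · exact (J.isClosed_N h).preimage (J.continuous_mul_left _)
    · intro m; rw [J.pw_mul_pw]; exact J.pw_mem h _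
    · simp
    · intro x y hx hy
      simp only [map_add, LinearMap.add_apply]
      exact Submodule.add_mem _ hx hy
    · intro c x hx
      simp only [map_smul, LinearMap.smul_apply]
      exact Submodule.smul_mem _ _ hx
  refine J.N_induction h (fun x => J.mul x y ∈ J.N h) ?_ ?_ ?_ ?_ ?_ x hx
  · exact (J.isClosed_N h).preimage (J.continuous_mul_left _)
  · intro m; rw [J.mul_comm]; exact key m y hy
  · simp
  · intro x y hx hy
    simp only [map_add, LinearMap.add_apply]
    exact Submodule.add_mem _ hx hy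
  · intro c x hx
    simp only [map_smul, LinearMap.smul_apply]
    exact Submodule.smul_mem _ _ hx

lemma st_pw (h : A) (hh : J.st h = h) (n : ℕ) : J.st (J.pw h n) = J.pw h n := by
  induction n with
  | zero => exact hh
  | succ n ih =>
    change J.st (J.mul h (J.pw h n)) = J.mul h (J.pw h n)
    rw [J.st_mul, hh, ih]

lemma st_mem_N (h : A) (hh : J.st h = h) (x : A) (hx : x ∈ J.N h) : J.st x ∈ J.N h := by
  refine J.N_induction h (fun x => J.st x ∈ J.N h) ?_ ?_ ?_ ?_ ?_ x hx
  · exact (J.isClosed_N h).preimage J.continuous_st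
  · intro m; rw [J.st_pw h hh]; exact J.pw_mem h _
  · rw [J.st_zero]; exact Submodule.zero_mem _
  · intro x y hx hy
    rw [J.st_add]; exact Submodule.add_mem _ hx hy
  · intro c x hx
    rw [J.st_smul]; exact Submodule.smul_mem _ _ hx

lemma assoc_N (h x y z : A) (hx : x ∈ J.N h) (hz : z ∈ J.N h) :
    J.mul (J.mul x y) z = J.mul x (J.mul y z) := by
  rw [J.mul_comm (J.mul x y) z, J.mul_comm y z]
  exact J.com_N h z x hz hx y

/-- The restriction of the product to `N h`. -/
lemma exists_sq [CompleteSpace A] (h : A) (hh : J.st h = h) :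
    ∃ p q : A, h = J.mul p p - J.mul q q := by
  have : CompleteSpace (J.N h) := (J.isClosed_N h).completeSpace_coe
  let m : J.N h →ₗ[ℂ] J.N h →ₗ[ℂ] J.N h :=
    LinearMap.mk₂ ℂ (fun x y => ⟨J.mul x y, J.mul_mem_N h x y x.2 y.2⟩)
      (fun x y z => by ext; simp) (fun c x y => by ext; simp) (fun x y z => by ext; simp)
      (fun c x y => by ext; simp)
  have hm : ∀ x y : J.N h, ((m x y : J.N h) : A) = J.mul x y := fun x y => rfl
  let s : J.N h → J.N h := fun x => ⟨J.st x, J.st_mem_N h hh x x.2⟩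
  have hs : ∀ x : J.N h, ((s x : J.N h) : A) = J.st x := fun x => rfl
  have hassoc : ∀ x y z : J.N h, m (m x y) z = m x (m y z) := by
    intro x y z; ext
    rw [hm, hm, hm, hm]
    exact J.assoc_N h x y z x.2 z.2
  have hcomm : ∀ x y : J.N h, m x y = m y x := fun x y => by
    ext; rw [hm, hm]; exact J.mul_comm _ _
  have hnorm : ∀ x y : J.N h, ‖m x y‖ ≤ ‖x‖ * ‖y‖ := fun x y => J.norm_mul_le x y
  obtain ⟨p, q, hpq⟩ := abstract_sq m s hcomm hassoc hnorm
    (fun x y => by ext; exact J.st_add _ _) (fun c x => by ext; exact J.st_smul _ _)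
    (fun x => by ext; exact J.st_st _) (fun x y => by ext; exact J.st_mul _ _)
    (by
      intro x
      have h1 := J.norm_cube (x : A)
      have h2 : (2 : ℂ) • J.mul (J.mul (x : A) (J.st x)) x - J.mul (J.mul (x : A) x) (J.st x) =
          ((m (m (s x) x) x : J.N h) : A) := by
        rw [hm, hm, hs]
        have e1 : J.mul (J.mul (x : A) x) (J.st x) = J.mul (J.mul (J.st x) x) x := by
          rw [J.assoc_N h (J.st x) x x (J.st_mem_N h hh x x.2) x.2, J.mul_comm (J.mul (x : A) x)]
        rw [e1, J.mul_comm (x : A) (J.st x)]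
        module
      rw [h2] at h1
      have h3 : ‖x‖ ^ 3 ≤ ‖m (s x) x‖ * ‖x‖ := by
        have := hnorm (m (s x) x) x
        calc ‖x‖ ^ 3 = ‖((m (m (s x) x) x : J.N h) : A)‖ := h1.symm
          _ ≤ _ := this
      by_cases hx : ‖x‖ = 0
      · rw [hx, zero_mul]; exact norm_nonneg _
      have hp : 0 < ‖x‖ := lt_of_le_of_ne (norm_nonneg _) (Ne.symm hx)
      have h4 : (‖x‖ * ‖x‖) * ‖x‖ ≤ ‖m (s x) x‖ * ‖x‖ := by
        calc (‖x‖ * ‖x‖) * ‖x‖ = ‖x‖ ^ 3 := by ring
          _ ≤ _ := h3
      exact le_of_mul_le_mul_right h4 hp)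
    ⟨h, J.pw_mem h 0⟩ (by ext; exact hh)
  refine ⟨p, q, ?_⟩
  have := congrArg Subtype.val hpq
  exact this

/-- Every element is a sum of four products. -/
lemma exists_products [CompleteSpace A] (a : A) :
    ∃ p q r s : A, a = J.mul p p + J.mul (-q) q + J.mul (Complex.I • r) r
      + J.mul (-(Complex.I • s)) s := by
  obtain ⟨p, q, h1⟩ := J.exists_sq ((1 / 2 : ℂ) • (a + J.st a)) (by
    rw [J.st_smul, J.st_add, J.st_st, add_comm]
    congr 1
    simp [Complex.ext_iff])
  obtain ⟨r, s, h2⟩ := J.exists_sq ((-Complex.I / 2 : ℂ) • (a - J.st a)) (by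
    rw [J.st_smul, J.st_sub, J.st_st]
    have : conj (-Complex.I / 2 : ℂ) = Complex.I / 2 := by
      rw [map_div₀, map_neg, Complex.conj_I, neg_neg]
      congr 1
      simp [Complex.ext_iff]
    rw [this, ← neg_sub a (J.st a), smul_neg, ← neg_smul, neg_div])
  refine ⟨p, q, r, s, ?_⟩
  have h3 : a = ((1 / 2 : ℂ) • (a + J.st a)) +
      Complex.I • ((-Complex.I / 2 : ℂ) • (a - J.st a)) := by
    rw [smul_smul, show Complex.I * (-Complex.I / 2) = 1 / 2 by
      rw [← mul_div_assoc, mul_neg, Complex.I_mul_I]; norm_num]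
    module
  conv_lhs => rw [h3, h1, h2]
  simp only [map_neg, map_smul, LinearMap.neg_apply, LinearMap.smul_apply]
  module

lemma prod_induction [CompleteSpace A] (P : A → Prop) (hmul : ∀ b c, P (J.mul b c))
    (hadd : ∀ x y, P x → P y → P (x + y)) (a : A) : P a := by
  obtain ⟨p, q, r, s, h⟩ := J.exists_products a
  rw [h]
  exact hadd _ _ (hadd _ _ (hadd _ _ (hmul _ _) (hmul _ _)) (hmul _ _)) (hmul _ _)

end JBStar

end Pool.Agent.Q194.JB
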