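import Mathlib.Topology.PartitionOfUnity
import Mathlib.Topology.ContinuousMap.Compact
import Mathlib.Analysis.Complex.Basic
import Mathlib.Analysis.SpecialFunctions.Complex.Log
import Mathlib.Algebra.Polynomial.Roots

/-!
# Covering dimension at most one and nowhere vanishing functions
-/

set_option autoImplicit false

universe u

namespace Pool.Agent.Q194.NonVanishing

open Set Topology

/-- The Lebesgue covering dimension of `X` is at most `n`: every finite open cover has a finite
open refinement such that every point lies in at most `n + 1` of its members. -/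
def CoveringDimLE (X : Type u) [TopologicalSpace X] (n : ℕ) : Prop :=
  ∀ (m : ℕ) (U : Fin m → Set X), (∀ i, IsOpen (U i)) → (⋃ i, U i) = univ →
    ∃ (k : ℕ) (V : Fin k → Set X), (∀ j, IsOpen (V j)) ∧ (⋃ j, V j) = univ ∧
      (∀ j, ∃ i, V j ⊆ U i) ∧ ∀ x, {j | x ∈ V j}.ncard ≤ n + 1

/-- Points `z j` can be moved a little so that any two of them are linearly independent over
the real numbers, and none vanishes. -/
theorem exists_generic {k : ℕ} (z : Fin k → ℂ) {κ : ℝ} (hκ : 0 < κ) :
    ∃ p : Fin k → ℂ, (∀ j, ‖p j - z j‖ < κ) ∧ (∀ j, p j ≠ 0) ∧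
      ∀ i j, i ≠ j → (starRingEnd ℂ (p i) * p j).im ≠ 0 := by
  classical
  let w : Fin k → ℂ := fun j => ⟨1, (j : ℝ)⟩
  -- the quadratic polynomials
  let Q : Fin k → Fin k → Polynomial ℝ := fun i j =>
    Polynomial.C (((j : ℕ) : ℝ) - ((i : ℕ) : ℝ)) * Polynomial.X ^ 2 +
    Polynomial.C ((z i).re * ((j : ℕ) : ℝ) + (z j).im - (z i).im - (z j).re * ((i : ℕ) : ℝ)) *
      Polynomial.X +
    Polynomial.C ((z i).re * (z j).im - (z i).im * (z j).re)
  have hQ : ∀ i j, i ≠ j → Q i j ≠ 0 := by
    intro i j hij h0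
    have h1 : (Q i j).coeff 2 = ((j : ℕ) : ℝ) - ((i : ℕ) : ℝ) := by
      simp only [Q, Polynomial.coeff_add, Polynomial.coeff_C_mul, Polynomial.coeff_X_pow,
        Polynomial.coeff_X, Polynomial.coeff_C]
      norm_num
    rw [h0, Polynomial.coeff_zero] at h1
    have h2 : ((j : ℕ) : ℝ) = ((i : ℕ) : ℝ) := by linarith
    exact hij (Fin.ext (by exact_mod_cast h2.symm))
  have hfin : (⋃ i : Fin k, ⋃ j : Fin k, {s : ℝ | i ≠ j ∧ (Q i j).IsRoot s} ∪
      {s : ℝ | s = -(z i).re}).Finite := by
    refine Set.finite_iUnion fun i => Set.finite_iUnion fun j => ?_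
    refine Set.Finite.union ?_ (Set.finite_singleton _)
    by_cases hij : i = j
    · simp [hij]
    · exact (Polynomial.finite_setOfPred_isRoot (hQ i j hij)).subset fun s hs => hs.2
  have hk : (0 : ℝ) < κ / (k + 2) := by positivity
  obtain ⟨s, hs, hs2⟩ := ((Set.Ioo_infinite hk).sdiff hfin).nonempty
  have hp : ∀ j : Fin k, z j + s * w j = ⟨(z j).re + s, (z j).im + s * j⟩ := by
    intro j
    apply Complex.ext <;> simp [w]
  refine ⟨fun j => z j + s * w j, ?_, ?_, ?_⟩
  · intro j
    rw [add_sub_cancel_left, norm_mul, Complex.norm_real, Real.norm_of_nonneg hs.1.le]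
    have h1 : ‖w j‖ ≤ 1 + k := by
      refine (Complex.norm_le_abs_re_add_abs_im _).trans ?_
      have h2 : ((j : ℕ) : ℝ) ≤ k := by exact_mod_cast j.2.le
      have h3 : (0 : ℝ) ≤ ((j : ℕ) : ℝ) := Nat.cast_nonneg _
      simp only [w, abs_one]
      rw [abs_of_nonneg h3]
      linarith
    have hk2 : (0 : ℝ) < k + 2 := by positivity
    calc s * ‖w j‖ ≤ s * (1 + k) := mul_le_mul_of_nonneg_left h1 hs.1.le
      _ ≤ κ / (k + 2) * (1 + k) := mul_le_mul_of_nonneg_right hs.2.le (by positivity)
      _ < κ := by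
        rw [div_mul_eq_mul_div, div_lt_iff₀ hk2]
        nlinarith
  · intro j h0
    change z j + s * w j = 0 at h0
    rw [hp] at h0
    have h1 := congrArg Complex.re h0
    simp only [Complex.zero_re] at h1
    apply hs2
    simp only [mem_iUnion]
    exact ⟨j, j, Or.inr (by change s = _; linarith)⟩
  · intro i j hij h0
    apply hs2
    simp only [mem_iUnion]
    refine ⟨i, j, Or.inl ⟨hij, ?_⟩⟩
    rw [Polynomial.IsRoot.def]
    simp only [hp] at h0
    simp only [Complex.mul_im, Complex.conj_re, Complex.conj_im] at h0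
    simp only [Q, Polynomial.eval_add, Polynomial.eval_mul, Polynomial.eval_C,
      Polynomial.eval_pow, Polynomial.eval_X]
    rw [← h0]
    ring

variable {X : Type u} [TopologicalSpace X] [CompactSpace X] [T2Space X]

/-- On a compact space of covering dimension at most one the nowhere vanishing functions are
dense. -/
theorem exists_nonvanishing (hX : CoveringDimLE X 1) (F : C(X, ℂ)) {κ : ℝ} (hκ : 0 < κ) :
    ∃ G : C(X, ℂ), (∀ x, G x ≠ 0) ∧ ∀ x, ‖G x - F x‖ ≤ κ := by
  classical
  have hκ2 : 0 < κ / 2 := by positivity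
  -- a finite cover
  obtain ⟨t, ht⟩ := isCompact_univ.elim_finite_subcover
    (fun x : X => F ⁻¹' (Metric.ball (F x) (κ / 2)))
    (fun x => Metric.isOpen_ball.preimage F.continuous)
    (fun x _ => mem_iUnion.2 ⟨x, Metric.mem_ball_self hκ2⟩)
  let e := t.equivFin
  obtain ⟨k, V, hVo, hVc, hVr, hV2⟩ := hX t.card
    (fun i => F ⁻¹' (Metric.ball (F (e.symm i : X)) (κ / 2)))
    (fun i => Metric.isOpen_ball.preimage F.continuous) (by
      refine eq_univ_of_forall fun x => ?_
      have h1 := ht (mem_univ x)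
      simp only [mem_iUnion] at h1 ⊢
      obtain ⟨y, hy, hxy⟩ := h1
      refine ⟨e ⟨y, hy⟩, ?_⟩
      rw [Equiv.symm_apply_apply]
      exact hxy)
  choose i hi using hVr
  obtain ⟨p, hp1, hp2, hp3⟩ := exists_generic (fun j => F (e.symm (i j) : X)) hκ2
  obtain ⟨φ, hφ⟩ := PartitionOfUnity.exists_isSubordinate isClosed_univ V hVo (by rw [hVc])
  have hφV : ∀ j x, φ j x ≠ 0 → x ∈ V j := fun j x h => hφ j (subset_closure h)
  have hsum : ∀ x, ∑ j, φ j x = 1 := by
    intro x
    have h := φ.sum_eq_one (mem_univ x)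
    rwa [finsum_eq_sum_of_fintype] at h
  let G : C(X, ℂ) := ⟨fun x => ∑ j, ((φ j x : ℝ) : ℂ) * p j, by fun_prop⟩
  have hG : ∀ x, G x = ∑ j, ((φ j x : ℝ) : ℂ) * p j := fun x => rfl
  refine ⟨G, ?_, ?_⟩
  · intro x h0
    -- an index with positive weight
    obtain ⟨j, hj⟩ : ∃ j, φ j x ≠ 0 := by
      by_contra hcon
      push Not at hcon
      have := hsum x
      rw [Finset.sum_eq_zero fun j _ => hcon j] at this
      exact zero_ne_one this
    -- at most one other index
    have hcard : ∀ a b, a ≠ j → b ≠ j → φ a x ≠ 0 → φ b x ≠ 0 → a = b := by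
      intro a b ha hb ha0 hb0
      by_contra hab
      have hsub : ({j, a, b} : Set (Fin k)) ⊆ {j | x ∈ V j} := by
        rintro c (rfl | rfl | rfl)
        · exact hφV _ _ hj
        · exact hφV _ _ ha0
        · exact hφV _ _ hb0
      have h1 : ({j, a, b} : Set (Fin k)).ncard = 3 := by
        rw [Set.ncard_eq_three]
        exact ⟨j, a, b, ha.symm, hb.symm, hab, rfl⟩
      have h2 := Set.ncard_le_ncard hsub (Set.toFinite _)
      have h3 := hV2 x
      omega
    -- the imaginary part of `conj (p j) * G x`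
    have him : (starRingEnd ℂ (p j) * G x).im =
        ∑ a, φ a x * (starRingEnd ℂ (p j) * p a).im := by
      rw [hG, Finset.mul_sum, Complex.im_sum]
      refine Finset.sum_congr rfl fun a _ => ?_
      have : starRingEnd ℂ (p j) * (((φ a x : ℝ) : ℂ) * p a) =
          ((φ a x : ℝ) : ℂ) * (starRingEnd ℂ (p j) * p a) := by ring
      rw [this, Complex.im_ofReal_mul]
    rw [h0, mul_zero, Complex.zero_im] at him
    have hself : (starRingEnd ℂ (p j) * p j).im = 0 := by
      simp only [Complex.mul_im, Complex.conj_re, Complex.conj_im]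
      ring
    have hother : ∀ a, a ≠ j → φ a x = 0 := by
      intro a ha
      by_contra ha0
      rw [Finset.sum_eq_single a] at him
      · exact (mul_ne_zero ha0 (hp3 j a ha.symm)) him.symm
      · intro b _ hb
        by_cases hbj : b = j
        · rw [hbj, hself, mul_zero]
        · by_cases hb0 : φ b x = 0
          · rw [hb0, zero_mul]
          · exact absurd (hcard b a hbj ha hb0 ha0) hb
      · intro h
        exact absurd (Finset.mem_univ a) h
    rw [hG, Finset.sum_eq_single j] at h0
    · rcases mul_eq_zero.1 h0 with h1 | h1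
      · exact hj (by exact_mod_cast h1)
      · exact hp2 j h1
    · intro b _ hb
      rw [hother b hb]
      simp
    · intro h
      exact absurd (Finset.mem_univ j) h
  · intro x
    have h1 : G x - F x = ∑ j, ((φ j x : ℝ) : ℂ) * (p j - F x) := by
      simp_rw [mul_sub]
      rw [Finset.sum_sub_distrib, ← Finset.sum_mul, hG, ← Complex.ofReal_sum, hsum x]
      simp
    rw [h1]
    refine (norm_sum_le _ _).trans ?_
    have h2 : ∀ j, ‖((φ j x : ℝ) : ℂ) * (p j - F x)‖ ≤ φ j x * κ := by
      intro j
      rw [norm_mul, Complex.norm_real, Real.norm_of_nonneg (φ.nonneg j x)]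
      by_cases hj : φ j x = 0
      · rw [hj]
        simp
      · refine mul_le_mul_of_nonneg_left ?_ (φ.nonneg j x)
        have hxV := hi j (hφV j x hj)
        have h3 : ‖F x - F (e.symm (i j) : X)‖ < κ / 2 := by
          rw [← dist_eq_norm]
          exact hxV
        have h4 := hp1 j
        calc ‖p j - F x‖ = ‖(p j - F (e.symm (i j) : X)) - (F x - F (e.symm (i j) : X))‖ := by
              congr 1
              ring
          _ ≤ _ := norm_sub_le _ _
          _ ≤ κ := by linarith
    refine (Finset.sum_le_sum fun j _ => h2 j).trans ?_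
    rw [← Finset.sum_mul, hsum x, one_mul]

end Pool.Agent.Q194.NonVanishing
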