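import Mathlib

/-!
# Gram vectors over a C*-algebra and the amalgamation of positive matrices
-/

set_option linter.unusedSectionVars false

open Finset

namespace Pool.Agent.Q194.PSD

variable {A : Type*} [CStarAlgebra A] [PartialOrder A] [StarOrderedRing A]

section ip

variable {κ : Type*} [Fintype κ]

/-- the `A`-valued inner product of two columns -/
def ip (m n : κ → A) : A := ∑ k, star (m k) * n k

theorem ip_star (m n : κ → A) : star (ip m n) = ip n m := by
  simp [ip, star_sum]

theorem ip_add_right (m n n' : κ → A) : ip m (n + n') = ip m n + ip m n' := by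
  simp [ip, mul_add, sum_add_distrib]

theorem ip_sub_right (m n n' : κ → A) : ip m (n - n') = ip m n - ip m n' := by
  simp [ip, mul_sub, sum_sub_distrib]

theorem ip_sub_left (m m' n : κ → A) : ip (m - m') n = ip m n - ip m' n := by
  simp [ip, sub_mul, sum_sub_distrib]

/-- right multiplication of a column -/
def rm (m : κ → A) (a : A) : κ → A := fun k => m k * a

theorem ip_rm (m n : κ → A) (a : A) : ip m (rm n a) = ip m n * a := by
  simp only [ip, rm, sum_mul, mul_assoc]

theorem ip_rm_left (m n : κ → A) (a : A) : ip (rm m a) n = star a * ip m n := by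
  simp only [ip, rm, mul_sum, star_mul, mul_assoc]

theorem rm_rm (m : κ → A) (a b : A) : rm (rm m a) b = rm m (a * b) := by
  funext k; simp [rm, mul_assoc]

theorem ip_self_nonneg (m : κ → A) : 0 ≤ ip m m :=
  sum_nonneg fun k _ => star_mul_self_nonneg (m k)

theorem eq_zero_of_star_mul_self {a : A} (h : star a * a = 0) : a = 0 :=
  CStarRing.star_mul_self_eq_zero_iff a |>.1 h

theorem eq_zero_of_ip {m : κ → A} (h : ip m m = 0) : m = 0 := by
  have h1 := (sum_eq_zero_iff_of_nonneg (fun k _ => star_mul_self_nonneg (m k))).1 h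
  funext k
  exact eq_zero_of_star_mul_self (h1 k (mem_univ k))

theorem ip_sum_elim {κ' : Type*} [Fintype κ'] (m n : κ → A) (m' n' : κ' → A) :
    ip (Sum.elim m m') (Sum.elim n n') = ip m n + ip m' n' := by
  simp [ip, Fintype.sum_sum_type]

theorem ip_zero_right (m : κ → A) : ip m (0 : κ → A) = 0 := by simp [ip]

theorem ip_zero_left (m : κ → A) : ip (0 : κ → A) m = 0 := by simp [ip]

end ip

/-! ### The factorization property -/

/-- Douglas' factorization inside `A`: if `x* x ≤ b` then `x = v b^(1/2)` for some `v ∈ A` with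
`v* v ≤ 1` (that is `‖v‖ ≤ 1`). -/
def Dg (A : Type*) [CStarAlgebra A] [PartialOrder A] [StarOrderedRing A] : Prop :=
  ∀ x b : A, star x * x ≤ b → ∃ v : A, star v * v ≤ 1 ∧ x = v * CFC.sqrt b

theorem star_mul_le_one_iff (v : A) : star v * v ≤ 1 ↔ v * star v ≤ 1 := by
  rw [← CStarAlgebra.norm_le_one_iff_of_nonneg _ (star_mul_self_nonneg v),
    ← CStarAlgebra.norm_le_one_iff_of_nonneg _ (mul_star_self_nonneg v),
    CStarRing.norm_star_mul_self, CStarRing.norm_self_mul_star]

theorem sqrt_star (b : A) : star (CFC.sqrt b) = CFC.sqrt b :=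
  (CFC.sqrt_nonneg b).isSelfAdjoint.star_eq

theorem contr_mul {v w : A} (hv : star v * v ≤ 1) (hw : star w * w ≤ 1) :
    star (v * w) * (v * w) ≤ 1 := by
  have h := star_left_conjugate_le_conjugate hv w
  have e : star (v * w) * (v * w) = star w * (star v * v) * w := by
    rw [star_mul]; noncomm_ring
  rw [e]
  refine h.trans ?_
  simpa using hw

/-- if `e` is a contraction with `e s = s` then `e* s = s` -/
theorem star_fix {e s : A} (he : star e * e ≤ 1) (hs : e * s = s) : star e * s = s := by
  have h0 : 0 ≤ 1 - star e * e := sub_nonneg.2 he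
  set T := CFC.sqrt (1 - star e * e) with hT
  have hTT : T * T = 1 - star e * e := CFC.sqrt_mul_sqrt_self _ h0
  have h1 : star (T * s) * (T * s) = 0 := by
    have e1 : star (T * s) * (T * s) = star s * (T * T) * s := by
      rw [star_mul, hT, sqrt_star]; noncomm_ring
    rw [e1, hTT]
    have e2 : star s * (1 - star e * e) * s = star s * s - star (e * s) * (e * s) := by
      rw [star_mul]; noncomm_ring
    rw [e2, hs, sub_self]
  have h2 : T * s = 0 := eq_zero_of_star_mul_self h1
  have h3 : (1 - star e * e) * s = 0 := by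
    rw [← hTT, mul_assoc, h2, mul_zero]
  have h4 : s - star e * (e * s) = 0 := by
    rw [← h3]; noncomm_ring
  rw [hs] at h4
  exact (sub_eq_zero.1 h4).symm

/-- polar decomposition from the factorization property -/
theorem Dg.polar (hD : Dg A) (K : A) : ∃ v : A, star v * v ≤ 1 ∧
    K = v * CFC.sqrt (star K * K) ∧ CFC.sqrt (star K * K) = star v * K := by
  obtain ⟨v, hv, h⟩ := hD K (star K * K) le_rfl
  refine ⟨v, hv, h, ?_⟩
  set P := CFC.sqrt (star K * K) with hP
  have hPs : star P = P := sqrt_star _
  have hPP : P * P = star K * K := CFC.sqrt_mul_sqrt_self _ (star_mul_self_nonneg K)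
  have h0 : 0 ≤ 1 - star v * v := sub_nonneg.2 hv
  set T := CFC.sqrt (1 - star v * v) with hT
  have hTT : T * T = 1 - star v * v := CFC.sqrt_mul_sqrt_self _ h0
  have h1 : star (T * P) * (T * P) = 0 := by
    have e1 : star (T * P) * (T * P) = P * (T * T) * P := by
      rw [star_mul, hPs, hT, sqrt_star]; noncomm_ring
    rw [e1, hTT]
    have e2 : P * (1 - star v * v) * P = P * P - star (v * P) * (v * P) := by
      rw [star_mul, hPs]; noncomm_ring
    rw [e2, ← h, hPP, sub_self]
  have h2 : T * P = 0 := eq_zero_of_star_mul_self h1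
  have h3 : (1 - star v * v) * P = 0 := by
    rw [← hTT, mul_assoc, h2, mul_zero]
  have h4 : P - star v * (v * P) = 0 := by
    rw [← h3]; noncomm_ring
  rw [← h] at h4
  exact sub_eq_zero.1 h4

/-- the factorization of columns -/
theorem Dg.column (hD : Dg A) {κ : Type*} (q : κ → A) (b : A) (hb : 0 ≤ b) (S : Finset κ) :
    ∑ k ∈ S, star (q k) * q k ≤ b → ∃ w : κ → A, (∀ k ∈ S, q k = w k * CFC.sqrt b) ∧
      ∑ k ∈ S, star (w k) * w k ≤ 1 := by
  classical
  induction S using Finset.induction_on with
  | empty =>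
    intro _
    exact ⟨0, by simp, by simp⟩
  | insert z S hz ih =>
    intro h
    rw [sum_insert hz] at h
    have hq0 : ∑ k ∈ S, star (q k) * q k ≤ b :=
      (le_add_of_nonneg_left (star_mul_self_nonneg (q z))).trans h
    obtain ⟨w, hw1, hw2⟩ := ih hq0
    set t := ∑ k ∈ S, star (w k) * w k with ht
    have h0 : 0 ≤ 1 - t := sub_nonneg.2 hw2
    set R := CFC.sqrt (1 - t) with hR
    have hRR : R * R = 1 - t := CFC.sqrt_mul_sqrt_self _ h0
    have hRs : star R = R := sqrt_star _
    set s := CFC.sqrt b with hs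
    have hss : s * s = b := CFC.sqrt_mul_sqrt_self _ hb
    have hsst : star s = s := sqrt_star _
    set K := R * s with hK
    have hKK : star K * K = b - ∑ k ∈ S, star (q k) * q k := by
      have e1 : star K * K = s * (R * R) * s := by
        rw [hK, star_mul, hRs, hsst]; noncomm_ring
      have e2 : ∑ k ∈ S, star (q k) * q k = s * t * s := by
        rw [ht, mul_sum, sum_mul]
        refine sum_congr rfl fun k hk => ?_
        rw [hw1 k hk, star_mul, hsst]; noncomm_ring
      rw [e1, hRR, e2]
      have : s * (1 - t) * s = s * s - s * t * s := by noncomm_ring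
      rw [this, hss]
    have hqK : star (q z) * q z ≤ star K * K := by
      rw [hKK]
      exact le_sub_iff_add_le.2 h
    obtain ⟨w2, hw2c, hw2e⟩ := hD (q z) (star K * K) hqK
    obtain ⟨v, hv, hv1, hv2⟩ := hD.polar K
    have hvs : star (star v) * star v ≤ 1 := by
      rw [star_star]; exact (star_mul_le_one_iff v).1 hv
    have hc : star (w2 * star v) * (w2 * star v) ≤ 1 := contr_mul hw2c hvs
    refine ⟨Function.update w z (w2 * star v * R), ?_, ?_⟩
    · intro k hk
      rcases Finset.mem_insert.1 hk with rfl | hk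
      · rw [Function.update_self]
        have : w2 * star v * R * s = w2 * (star v * K) := by rw [hK]; noncomm_ring
        rw [this, ← hv2]
        exact hw2e
      · have hne : k ≠ z := fun h => hz (h ▸ hk)
        rw [Function.update_of_ne hne]
        exact hw1 k hk
    · rw [sum_insert hz, Function.update_self]
      have e1 : ∑ k ∈ S, star (Function.update w z (w2 * star v * R) k) *
          Function.update w z (w2 * star v * R) k = t := by
        rw [ht]
        refine sum_congr rfl fun k hk => ?_
        have hne : k ≠ z := fun h => hz (h ▸ hk)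
        rw [Function.update_of_ne hne]
      rw [e1]
      have e2 : star (w2 * star v * R) * (w2 * star v * R)
          = star R * (star (w2 * star v) * (w2 * star v)) * R := by
        rw [star_mul]; noncomm_ring
      have h5 := star_left_conjugate_le_conjugate hc R
      rw [← e2, mul_one, hRs, hRR] at h5
      exact (add_le_add_left h5 t).trans (by simp)

theorem Dg.col (hD : Dg A) {κ : Type*} [Fintype κ] (q : κ → A) :
    ∃ w : κ → A, q = rm w (CFC.sqrt (ip q q)) ∧ ip w w ≤ 1 := by
  obtain ⟨w, h1, h2⟩ := hD.column q (ip q q) (ip_self_nonneg q) univ le_rfl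
  exact ⟨w, funext fun k => h1 k (mem_univ k), h2⟩

/-- a local unit of `s` which annihilates the `δ j` -/
theorem Dg.saw (hD : Dg A) {ι : Type*} (J : Finset ι) (δ : ι → A) (s : A) (hs : 0 ≤ s)
    (h : ∀ j ∈ J, δ j * s = 0) :
    ∃ e : A, star e * e ≤ 1 ∧ e * s = s ∧ ∀ j ∈ J, δ j * e = 0 := by
  set c := ∑ j ∈ J, star (δ j) * δ j with hc
  have hc0 : 0 ≤ c := sum_nonneg fun j _ => star_mul_self_nonneg (δ j)
  have hcs : star c = c := hc0.isSelfAdjoint.star_eq
  have hss : star s = s := hs.isSelfAdjoint.star_eq
  have hcs0 : c * s = 0 := by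
    rw [hc, sum_mul]
    exact sum_eq_zero fun j hj => by rw [mul_assoc, h j hj, mul_zero]
  have hsc0 : s * c = 0 := by
    have := congrArg star hcs0
    rwa [star_mul, hcs, hss, star_zero] at this
  have hpos : 0 ≤ s + c := add_nonneg hs hc0
  have hps : star (s + c) = s + c := hpos.isSelfAdjoint.star_eq
  have e1 : star (s - c) * (s - c) = (s + c) * (s + c) := by
    rw [star_sub, hss, hcs]
    have : (s - c) * (s - c) = s * s - s * c - c * s + c * c := by noncomm_ring
    rw [this]
    have : (s + c) * (s + c) = s * s + s * c + c * s + c * c := by noncomm_ring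
    rw [this, hsc0, hcs0]
    simp
  have hsq : CFC.sqrt ((s + c) * (s + c)) = s + c := by
    rw [CFC.sqrt_eq_iff _ _ (by
      have := star_mul_self_nonneg (s + c)
      rwa [hps] at this) hpos]
  obtain ⟨v, hv, hve⟩ := hD (s - c) ((s + c) * (s + c)) e1.le
  rw [hsq] at hve
  have hv1 : (v - 1) * s = 0 := by
    have h1 : (v - 1) * (s * s) = 0 := by
      have : (s - c) * s = v * (s + c) * s := by rw [hve]
      have e2 : (s - c) * s = s * s - c * s := by noncomm_ring
      have e3 : v * (s + c) * s = v * (s * s) + v * (c * s) := by noncomm_ring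
      rw [e2, e3, hcs0, mul_zero, add_zero, sub_zero] at this
      have e4 : (v - 1) * (s * s) = v * (s * s) - s * s := by noncomm_ring
      rw [e4, ← this, sub_self]
    have h2 : star (star ((v - 1) * s)) * star ((v - 1) * s) = 0 := by
      rw [star_star]
      have : (v - 1) * s * star ((v - 1) * s) = (v - 1) * (s * s) * star (v - 1) := by
        rw [star_mul, hss]; noncomm_ring
      rw [this, h1, zero_mul]
    have h3 := eq_zero_of_star_mul_self h2
    simpa using congrArg star h3
  have hv2 : (v + 1) * c = 0 := by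
    have h1 : (v + 1) * (c * c) = 0 := by
      have : (s - c) * c = v * (s + c) * c := by rw [hve]
      have e2 : (s - c) * c = s * c - c * c := by noncomm_ring
      have e3 : v * (s + c) * c = v * (s * c) + v * (c * c) := by noncomm_ring
      rw [e2, e3, hsc0, mul_zero, zero_add, zero_sub] at this
      have e4 : (v + 1) * (c * c) = v * (c * c) + c * c := by noncomm_ring
      rw [e4, ← this, neg_add_cancel]
    have h2 : star (star ((v + 1) * c)) * star ((v + 1) * c) = 0 := by
      rw [star_star]
      have : (v + 1) * c * star ((v + 1) * c) = (v + 1) * (c * c) * star (v + 1) := by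
        rw [star_mul, hcs]; noncomm_ring
      rw [this, h1, zero_mul]
    have h3 := eq_zero_of_star_mul_self h2
    simpa using congrArg star h3
  -- the contraction `f = (1 + v) / 2`
  set f : A := (1 / 2 : ℂ) • (1 + v) with hf
  have hfn : star f * f ≤ 1 := by
    rw [← CStarAlgebra.norm_le_one_iff_of_nonneg _ (star_mul_self_nonneg f),
      CStarRing.norm_star_mul_self]
    have hvn : ‖v‖ ≤ 1 := by
      have := (CStarAlgebra.norm_le_one_iff_of_nonneg _ (star_mul_self_nonneg v)).2 hv
      rw [CStarRing.norm_star_mul_self] at this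
      nlinarith [norm_nonneg v]
    have h1n : ‖(1 : A)‖ ≤ 1 := by
      rcases subsingleton_or_nontrivial A with h | h
      · rw [Subsingleton.elim (1 : A) 0, norm_zero]; norm_num
      · rw [CStarRing.norm_one]
    have hfn' : ‖f‖ ≤ 1 := by
      rw [hf, norm_smul]
      have := norm_add_le (1 : A) v
      have h2 : ‖(1 / 2 : ℂ)‖ = 1 / 2 := by norm_num
      rw [h2]
      linarith
    nlinarith [norm_nonneg f]
  have hfs : f * s = s := by
    have : (1 + v) * s = (2 : ℂ) • s := by
      have e5 : (1 + v) * s = s + s + (v - 1) * s := by noncomm_ring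
      rw [e5, hv1, add_zero, two_smul]
    rw [hf, smul_mul_assoc, this, smul_smul]
    norm_num
  have hfc : f * c = 0 := by
    rw [hf, smul_mul_assoc, add_comm, hv2, smul_zero]
  have hfs' : star f * s = s := star_fix hfn hfs
  refine ⟨star f, ?_, hfs', ?_⟩
  · rw [star_star]; exact (star_mul_le_one_iff f).1 hfn
  · have hcf : c * star f = 0 := by
      have := congrArg star hfc
      rwa [star_mul, hcs, star_zero] at this
    have hsum : ∑ j ∈ J, star (δ j * star f) * (δ j * star f) = 0 := by
      have : ∑ j ∈ J, star (δ j * star f) * (δ j * star f) = f * c * star f := by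
        rw [hc, mul_sum, sum_mul]
        refine sum_congr rfl fun j _ => ?_
        rw [star_mul, star_star]; noncomm_ring
      rw [this, hfc, zero_mul]
    intro j hj
    exact eq_zero_of_star_mul_self
      ((sum_eq_zero_iff_of_nonneg (fun j _ => star_mul_self_nonneg _)).1 hsum j hj)

/-! ### Amalgamation -/

/-- the columns `m` compressed to the complement of `W` -/
noncomputable def hat {κ : Type*} [Fintype κ] (W : κ → A) (m : κ → A) : κ ⊕ Unit → A :=
  Sum.elim (m - rm W (ip W m)) (fun _ => CFC.sqrt (1 - ip W W) * ip W m)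

theorem ip_hat {κ : Type*} [Fintype κ] (W : κ → A) (hW : ip W W ≤ 1) (m n : κ → A) :
    ip (hat W m) (hat W n) = ip m n - ip m W * ip W n := by
  have h0 : 0 ≤ 1 - ip W W := sub_nonneg.2 hW
  set R := CFC.sqrt (1 - ip W W) with hR
  have hRR : R * R = 1 - ip W W := CFC.sqrt_mul_sqrt_self _ h0
  have hRs : star R = R := sqrt_star _
  unfold hat
  rw [ip_sum_elim, ip_sub_right, ip_sub_left, ip_sub_left, ip_rm, ip_rm, ip_rm_left, ip_rm_left]
  have e1 : ip (fun _ : Unit => R * ip W m) (fun _ : Unit => R * ip W n)
      = ip m W * (R * R) * ip W n := by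
    simp only [ip, univ_unique, sum_singleton]
    rw [← ip, ← ip, ← ip, star_mul, hRs, ip_star]; noncomm_ring
  rw [← hR, e1, hRR, ip_star]
  noncomm_ring

theorem Dg.amalg (hD : Dg A) {ι : Type*} (J : Finset ι) : ∀ (κ κ' : Type) (_ : Fintype κ)
    (_ : Fintype κ') (L R : Set ι) (m : ι → κ → A) (m' : ι → κ' → A), L ∩ R = ↑J →
    (∀ i ∈ J, ∀ j ∈ J, ip (m i) (m j) = ip (m' i) (m' j)) →
    ∃ (κ'' : Type) (_ : Fintype κ'') (p : ι → κ'' → A),
      (∀ i ∈ L, ∀ j ∈ L, ip (p i) (p j) = ip (m i) (m j)) ∧
      (∀ i ∈ R, ∀ j ∈ R, ip (p i) (p j) = ip (m' i) (m' j)) := by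
  classical
  induction J using Finset.induction_on with
  | empty =>
    intro κ κ' _ _ L R m m' hLR _
    refine ⟨κ ⊕ κ', inferInstance, fun i => Sum.elim (if i ∈ L then m i else 0)
      (if i ∈ R then m' i else 0), ?_, ?_⟩
    · intro i hi j hj
      have hi' : i ∉ R := fun h => by
        have : i ∈ L ∩ R := ⟨hi, h⟩
        rw [hLR] at this
        simp at this
      rw [ip_sum_elim, if_pos hi, if_pos hj, if_neg hi', ip_zero_left, add_zero]
    · intro i hi j hj
      have hi' : i ∉ L := fun h => by
        have : i ∈ L ∩ R := ⟨h, hi⟩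
        rw [hLR] at this
        simp at this
      rw [ip_sum_elim, if_pos hi, if_pos hj, if_neg hi', ip_zero_left, zero_add]
  | insert z J hz ih =>
    intro κ κ' _ _ L R m m' hLR hg
    have hzJ : z ∈ insert z J := mem_insert_self z J
    have hsub : ∀ j ∈ J, j ∈ insert z J := fun j hj => mem_insert_of_mem hj
    have hzLR : z ∈ L ∩ R := by rw [hLR]; exact_mod_cast hzJ
    set b := ip (m z) (m z) with hb
    have hb' : ip (m' z) (m' z) = b := (hg z hzJ z hzJ).symm
    have hb0 : 0 ≤ b := ip_self_nonneg _
    set s := CFC.sqrt b with hs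
    have hs0 : 0 ≤ s := CFC.sqrt_nonneg _
    have hss : s * s = b := CFC.sqrt_mul_sqrt_self _ hb0
    have hst : star s = s := sqrt_star _
    obtain ⟨w, hw1, hw2⟩ := hD.col (m z)
    obtain ⟨w', hw1', hw2'⟩ := hD.col (m' z)
    rw [← hb, ← hs] at hw1
    rw [hb', ← hs] at hw1'
    obtain ⟨e, he1, he2, he3⟩ := hD.saw J (fun j => ip (m j) w - ip (m' j) w') s hs0 (by
      intro j hj
      rw [sub_mul, ← ip_rm, ← ip_rm, ← hw1, ← hw1', hg j (hsub j hj) z hzJ, sub_self])
    set W := rm w e with hW
    set W' := rm w' e with hW'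
    have hWW : ip W W ≤ 1 := by
      rw [hW, ip_rm, ip_rm_left]
      refine le_trans ?_ he1
      have := star_left_conjugate_le_conjugate hw2 e
      simpa using this
    have hWW' : ip W' W' ≤ 1 := by
      rw [hW', ip_rm, ip_rm_left]
      refine le_trans ?_ he1
      have := star_left_conjugate_le_conjugate hw2' e
      simpa using this
    have hWs : rm W s = m z := by rw [hW, rm_rm, he2, ← hw1]
    have hWs' : rm W' s = m' z := by rw [hW', rm_rm, he2, ← hw1']
    have hu : ∀ j ∈ J, ip (m j) W = ip (m' j) W' := by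
      intro j hj
      have := he3 j hj
      rw [sub_mul] at this
      rw [hW, hW', ip_rm, ip_rm]
      exact sub_eq_zero.1 this
    have hu' : ∀ j ∈ J, ip W (m j) = ip W' (m' j) := by
      intro j hj
      rw [← ip_star, hu j hj, ip_star]
    obtain ⟨κ'', hκ'', p, hp1, hp2⟩ := ih (κ ⊕ Unit) (κ' ⊕ Unit) inferInstance inferInstance
      (L \ {z}) (R \ {z}) (fun i => hat W (m i)) (fun i => hat W' (m' i)) (by
        ext i
        have := Set.ext_iff.1 hLR i
        simp only [Set.mem_inter_iff, coe_insert, Set.mem_insert_iff, mem_coe] at this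
        simp only [Set.mem_inter_iff, Set.mem_sdiff, Set.mem_singleton_iff, mem_coe]
        constructor
        · rintro ⟨⟨h1, h2⟩, h3, _⟩
          exact (this.1 ⟨h1, h3⟩).resolve_left h2
        · intro h
          have hne : i ≠ z := fun h' => hz (h' ▸ h)
          have h4 := this.2 (Or.inr h)
          exact ⟨⟨h4.1, hne⟩, h4.2, hne⟩) (by
        intro i hi j hj
        rw [ip_hat W hWW, ip_hat W' hWW', hg i (hsub i hi) j (hsub j hj), hu i hi, hu' j hj])
    set t : ι → A := fun i => if i ∈ L then ip W (m i) else ip W' (m' i) with ht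
    have htL : ∀ i ∈ L, t i = ip W (m i) := fun i hi => by rw [ht]; simp [hi]
    have htR : ∀ i ∈ R, i ≠ z → t i = ip W' (m' i) := by
      intro i hi hne
      by_cases hL : i ∈ L
      · have hJ : i ∈ J := by
          have := Set.ext_iff.1 hLR i
          simp only [Set.mem_inter_iff, coe_insert, Set.mem_insert_iff, mem_coe] at this
          exact (this.1 ⟨hL, hi⟩).resolve_left hne
        rw [htL i hL, hu' i hJ]
      · rw [ht]; simp [hL]
    have hex : ∃ q : ι → κ'' ⊕ Unit → A, q z = Sum.elim (0 : κ'' → A) (fun _ => s) ∧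
        ∀ i, i ≠ z → q i = Sum.elim (p i) (fun _ => t i) :=
      ⟨fun i => if i = z then Sum.elim (0 : κ'' → A) (fun _ => s) else Sum.elim (p i) (fun _ => t i),
        by simp, fun i hi => by simp [hi]⟩
    obtain ⟨q, hqz, hq⟩ := hex
    refine ⟨κ'' ⊕ Unit, inferInstance, q, ?_, ?_⟩
    · intro i hi j hj
      by_cases hiz : i = z
      · by_cases hjz : j = z
        · rw [hiz, hjz, hqz, ip_sum_elim, ip_zero_left, zero_add, ← hb, ← hss]
          simp [ip, hst]
        · rw [hiz, hqz, hq j hjz, ip_sum_elim, ip_zero_left, zero_add, ← hWs,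
            ip_rm_left, hst]
          simp [ip, hst, htL j hj]
      · by_cases hjz : j = z
        · rw [hjz, hqz, hq i hiz, ip_sum_elim, ip_zero_right, zero_add, ← hWs, ip_rm]
          have : ip (fun _ : Unit => t i) (fun _ : Unit => s) = star (t i) * s := by simp [ip]
          rw [this, htL i hi, ip_star]
        · rw [hq i hiz, hq j hjz, ip_sum_elim, hp1 i ⟨hi, hiz⟩ j ⟨hj, hjz⟩, ip_hat W hWW]
          have : ip (fun _ : Unit => t i) (fun _ : Unit => t j) = star (t i) * t j := by simp [ip]
          rw [this, htL i hi, htL j hj, ip_star, sub_add_cancel]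
    · intro i hi j hj
      by_cases hiz : i = z
      · by_cases hjz : j = z
        · rw [hiz, hjz, hqz, ip_sum_elim, ip_zero_left, zero_add, hb', ← hss]
          simp [ip, hst]
        · rw [hiz, hqz, hq j hjz, ip_sum_elim, ip_zero_left, zero_add, ← hWs',
            ip_rm_left, hst]
          simp [ip, hst, htR j hj hjz]
      · by_cases hjz : j = z
        · rw [hjz, hqz, hq i hiz, ip_sum_elim, ip_zero_right, zero_add, ← hWs', ip_rm]
          have : ip (fun _ : Unit => t i) (fun _ : Unit => s) = star (t i) * s := by simp [ip]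
          rw [this, htR i hi hiz, ip_star]
        · rw [hq i hiz, hq j hjz, ip_sum_elim, hp2 i ⟨hi, hiz⟩ j ⟨hj, hjz⟩, ip_hat W' hWW']
          have : ip (fun _ : Unit => t i) (fun _ : Unit => t j) = star (t i) * t j := by simp [ip]
          rw [this, htR i hi hiz, htR j hj hjz, ip_star, sub_add_cancel]

/-! ### Three vertices give the factorization property -/

/-- amalgamation over one vertex -/
def Amalg3 (A : Type*) [CStarAlgebra A] [PartialOrder A] [StarOrderedRing A] : Prop :=
  ∀ (κ κ' : Type) (_ : Fintype κ) (_ : Fintype κ') (l m : κ → A) (m' r : κ' → A),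
    ip m m = ip m' m' → ∃ (κ'' : Type) (_ : Fintype κ'') (pl pm pr : κ'' → A),
      ip pl pl = ip l l ∧ ip pl pm = ip l m ∧ ip pm pm = ip m m ∧ ip pm pr = ip m' r ∧
        ip pr pr = ip r r

theorem Amalg3.dg (h : Amalg3 A) : Dg A := by
  intro x b hxb
  have hb : 0 ≤ b := (star_mul_self_nonneg x).trans hxb
  have h0 : 0 ≤ b - star x * x := sub_nonneg.2 hxb
  set d := CFC.sqrt (b - star x * x) with hd
  have hdd : d * d = b - star x * x := CFC.sqrt_mul_sqrt_self _ h0
  have hds : star d = d := sqrt_star _
  set s := CFC.sqrt b with hs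
  have hss : s * s = b := CFC.sqrt_mul_sqrt_self _ hb
  have hst : star s = s := sqrt_star _
  obtain ⟨κ, _, pl, pm, pr, h1, h2, h3, h4, h5⟩ := h (Fin 2) Unit inferInstance inferInstance
    ![1, 0] ![x, d] (fun _ => s) (fun _ => 1) (by
      simp [ip, Fin.sum_univ_two, hds, hst, hdd, hss])
  have e1 : ip pl pl = 1 := by rw [h1]; simp [ip, Fin.sum_univ_two]
  have e2 : ip pl pm = x := by rw [h2]; simp [ip, Fin.sum_univ_two]
  have e3 : ip pm pm = b := by rw [h3]; simp [ip, Fin.sum_univ_two, hds, hdd]
  have e4 : ip pm pr = s := by rw [h4]; simp [ip, hst]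
  have e5 : ip pr pr = 1 := by rw [h5]; simp [ip]
  have e4' : ip pr pm = s := by rw [← ip_star, e4, hst]
  have hz : pm - rm pr s = 0 := by
    apply eq_zero_of_ip
    rw [ip_sub_right, ip_sub_left, ip_sub_left, ip_rm, ip_rm, ip_rm_left, ip_rm_left, e3, e4, e4',
      e5, hst, mul_one, hss]
    simp
  have hz' : pm = rm pr s := sub_eq_zero.1 hz
  refine ⟨ip pl pr, ?_, ?_⟩
  · have hn := ip_self_nonneg (pr - rm pl (ip pl pr))
    rw [ip_sub_right, ip_sub_left, ip_sub_left, ip_rm, ip_rm, ip_rm_left, ip_rm_left, e1, e5,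
      ← ip_star pl pr] at hn
    have : (1 : A) - star (ip pl pr) * ip pl pr
        - (star (ip pl pr) * ip pl pr - star (ip pl pr) * 1 * ip pl pr)
        = 1 - star (ip pl pr) * ip pl pr := by noncomm_ring
    rw [this] at hn
    exact sub_nonneg.1 hn
  · rw [← e2, hz', ip_rm]

end Pool.Agent.Q194.PSD
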