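import Pool.Agent.Q194.PSDGram
import Pool.Agent.H255R3.STC.Chordal

/-!
# Positive completion of partial matrices over a unital C*-algebra
-/

set_option linter.unusedSectionVars false

open Finset

namespace Pool.Agent.Q194.PSD

section defs

variable (A : Type*) [CStarAlgebra A] [PartialOrder A] [StarOrderedRing A]

/-- `M` is positive in the C*-algebra of `ι × ι` matrices over `A` -/
def MPos {A : Type*} [CStarAlgebra A] [PartialOrder A] [StarOrderedRing A] {ι : Type}
    [Fintype ι] (M : Matrix ι ι A) : Prop :=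
  0 ≤ CStarMatrix.ofMatrix M

/-- `M ∈ M₊(Γ)`: the principal submatrix on each clique of `Γ` is positive -/
def PartialPos {A : Type*} [CStarAlgebra A] [PartialOrder A] [StarOrderedRing A] {n : ℕ}
    (Γ : SimpleGraph (Fin n)) (M : Matrix (Fin n) (Fin n) A) : Prop :=
  ∀ K : Finset (Fin n), Γ.IsClique (K : Set (Fin n)) →
    MPos (M.submatrix (fun i : K => (i : Fin n)) (fun i : K => (i : Fin n)))

/-- `Γ ∈ G(A)`: every `M ∈ M₊(Γ)` has a positive completion -/
def InG {n : ℕ} (Γ : SimpleGraph (Fin n)) : Prop :=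
  ∀ M : Matrix (Fin n) (Fin n) A, PartialPos Γ M →
    ∃ Y : Matrix (Fin n) (Fin n) A, MPos Y ∧ ∀ i j, (i = j ∨ Γ.Adj i j) → Y i j = M i j

/-- `Γ` is a disjoint union of complete graphs -/
def Cluster {n : ℕ} (Γ : SimpleGraph (Fin n)) : Prop :=
  ∀ i j k, Γ.Adj i j → Γ.Adj j k → i ≠ k → Γ.Adj i k

/-- `Γ` is chordal: it has no induced cycle of length at least four -/
def Chordal {n : ℕ} (Γ : SimpleGraph (Fin n)) : Prop :=
  ∀ k : ℕ, 4 ≤ k → IsEmpty (SimpleGraph.cycleGraph k ↪g Γ)

end defs

variable {A : Type*} [CStarAlgebra A] [PartialOrder A] [StarOrderedRing A]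

theorem mpos_of_gram {ι : Type} [Fintype ι] {κ : Type} [Fintype κ] (M : Matrix ι ι A)
    (g : ι → κ → A) (h : ∀ i j, M i j = ip (g i) (g j)) : MPos M := by
  classical
  unfold MPos
  rcases isEmpty_or_nonempty ι with he | ⟨⟨i₀⟩⟩
  · have : CStarMatrix.ofMatrix M = 0 := by
      ext i
      exact he.elim i
    rw [this]
  · let R : κ → CStarMatrix ι ι A := fun k => CStarMatrix.ofMatrix
      (fun i j => if i = i₀ then g j k else 0)
    have hR : ∀ k i j, R k i j = if i = i₀ then g j k else 0 := fun _ _ _ => rfl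
    have e : CStarMatrix.ofMatrix M = ∑ k, star (R k) * R k := by
      apply CStarMatrix.ext
      intro i j
      have e1 : (∑ k, star (R k) * R k) i j = ∑ k, (star (R k) * R k) i j := by
        have : ∀ s : Finset κ, (∑ k ∈ s, star (R k) * R k) i j
            = ∑ k ∈ s, (star (R k) * R k) i j := by
          intro s
          induction s using Finset.induction_on with
          | empty => simp
          | insert a s ha ih => rw [sum_insert ha, sum_insert ha, CStarMatrix.add_apply, ih]
        exact this univ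
      rw [e1]
      have e2 : (CStarMatrix.ofMatrix M) i j = M i j := rfl
      rw [e2, h, ip]
      refine sum_congr rfl fun k _ => ?_
      rw [CStarMatrix.mul_apply, sum_eq_single i₀]
      · rw [CStarMatrix.star_apply, hR, hR, if_pos rfl, if_pos rfl]
      · intro l _ hl
        rw [CStarMatrix.star_apply, hR, hR, if_neg hl, if_neg hl, mul_zero]
      · simp
    rw [e]
    exact sum_nonneg fun k _ => star_mul_self_nonneg _

theorem exists_star_mul {B : Type*} [NonUnitalCStarAlgebra B] [PartialOrder B] [StarOrderedRing B]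
    (b : B) (h : 0 ≤ b) : ∃ c, b = star c * c :=
  CStarAlgebra.nonneg_iff_eq_star_mul_self.1 h

theorem gram_of_mpos {ι : Type} [Fintype ι] (M : Matrix ι ι A) (h : MPos M) :
    ∃ g : ι → ι → A, ∀ i j, M i j = ip (g i) (g j) := by
  obtain ⟨S, hS⟩ := exists_star_mul _ h
  refine ⟨fun i k => S k i, fun i j => ?_⟩
  have : M i j = (CStarMatrix.ofMatrix M) i j := rfl
  rw [this, hS, CStarMatrix.mul_apply, ip]
  refine sum_congr rfl fun k _ => ?_
  rw [CStarMatrix.star_apply]

/-- Gram vectors for the restriction to a clique -/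
theorem PartialPos.gram {n : ℕ} {Γ : SimpleGraph (Fin n)} {M : Matrix (Fin n) (Fin n) A}
    (h : PartialPos Γ M) (K : Finset (Fin n)) (hK : Γ.IsClique (K : Set (Fin n))) :
    ∃ (κ : Type) (_ : Fintype κ) (g : Fin n → κ → A), ∀ i ∈ K, ∀ j ∈ K, M i j = ip (g i) (g j) := by
  classical
  obtain ⟨g, hg⟩ := gram_of_mpos _ (h K hK)
  refine ⟨K, inferInstance, fun i => if hi : i ∈ K then g ⟨i, hi⟩ else 0, fun i hi j hj => ?_⟩
  simp only [dif_pos hi, dif_pos hj]
  exact hg ⟨i, hi⟩ ⟨j, hj⟩

theorem partialPos_of_gram {n : ℕ} {Γ : SimpleGraph (Fin n)} {M : Matrix (Fin n) (Fin n) A}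
    (h : ∀ K : Finset (Fin n), Γ.IsClique (K : Set (Fin n)) →
      ∃ (κ : Type) (_ : Fintype κ) (g : Fin n → κ → A), ∀ i ∈ K, ∀ j ∈ K,
        M i j = ip (g i) (g j)) : PartialPos Γ M := by
  intro K hK
  obtain ⟨κ, _, g, hg⟩ := h K hK
  exact mpos_of_gram _ (fun i : K => g i) fun i j => hg i i.2 j j.2

/-! ### A graph that is not a cluster graph gives amalgamation over a vertex -/

theorem InG.amalg3 {n : ℕ} {Γ : SimpleGraph (Fin n)} (h : InG A Γ) (hΓ : ¬ Cluster Γ) :
    Amalg3 A := by
  classical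
  unfold Cluster at hΓ
  push Not at hΓ
  obtain ⟨a, b, c, hab, hbc, hac, hnac⟩ := hΓ
  have hab' : a ≠ b := hab.ne
  have hbc' : b ≠ c := hbc.ne
  intro κ κ' _ _ l m m' r hm
  let g : Fin n → κ → A := fun i => if i = a then l else if i = b then m else 0
  let g' : Fin n → κ' → A := fun i => if i = c then r else if i = b then m' else 0
  have ga : g a = l := by simp [g]
  have gb : g b = m := by simp [g, hab'.symm]
  have gc : g' c = r := by simp [g']
  have gb' : g' b = m' := by simp [g', hbc']
  have g0 : ∀ i, i ≠ a → i ≠ b → g i = 0 := fun i h1 h2 => by simp [g, h1, h2]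
  have g0' : ∀ i, i ≠ c → i ≠ b → g' i = 0 := fun i h1 h2 => by simp [g', h1, h2]
  let M : Matrix (Fin n) (Fin n) A := fun i j =>
    if i ≠ c ∧ j ≠ c then ip (g i) (g j) else if i ≠ a ∧ j ≠ a then ip (g' i) (g' j) else 0
  have hM1 : ∀ i j, i ≠ c → j ≠ c → M i j = ip (g i) (g j) := fun i j h1 h2 => by
    simp [M, h1, h2]
  have hM2 : ∀ i j, i ≠ a → j ≠ a → M i j = ip (g' i) (g' j) := by
    intro i j h1 h2
    by_cases h3 : i ≠ c ∧ j ≠ c
    · rw [hM1 i j h3.1 h3.2]
      by_cases hi : i = b
      · by_cases hj : j = b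
        · rw [hi, hj, gb, gb', hm]
        · rw [g0 j h2 hj, g0' j h3.2 hj, ip_zero_right, ip_zero_right]
      · rw [g0 i h1 hi, g0' i h3.1 hi, ip_zero_left, ip_zero_left]
    · simp only [M, if_neg h3, if_pos (And.intro h1 h2)]
  obtain ⟨Y, hY, hYM⟩ := h M (partialPos_of_gram fun K hK => by
    by_cases hc : c ∈ K
    · have ha : a ∉ K := fun ha => hnac (hK ha hc hac)
      exact ⟨κ', inferInstance, g', fun i hi j hj => hM2 i j (fun h => ha (h ▸ hi))
        (fun h => ha (h ▸ hj))⟩
    · exact ⟨κ, inferInstance, g, fun i hi j hj => hM1 i j (fun h => hc (h ▸ hi))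
        (fun h => hc (h ▸ hj))⟩)
  obtain ⟨p, hp⟩ := gram_of_mpos Y hY
  refine ⟨Fin n, inferInstance, p a, p b, p c, ?_, ?_, ?_, ?_, ?_⟩
  · rw [← hp, hYM a a (Or.inl rfl), hM1 a a hac hac, ga]
  · rw [← hp, hYM a b (Or.inr hab), hM1 a b hac hbc', ga, gb]
  · rw [← hp, hYM b b (Or.inl rfl), hM1 b b hbc' hbc', gb]
  · rw [← hp, hYM b c (Or.inr hbc), hM2 b c hab'.symm hac.symm, gb', gc]
  · rw [← hp, hYM c c (Or.inl rfl), hM2 c c hac.symm hac.symm, gc]

/-! ### The factorization property completes chordal graphs -/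

theorem Dg.complete_aux (hD : Dg A) {n : ℕ} {Γ : SimpleGraph (Fin n)} (hΓ : Chordal Γ)
    {M : Matrix (Fin n) (Fin n) A} (hM : PartialPos Γ M) : ∀ (k : ℕ) (s : Finset (Fin n)),
    s.card = k → ∃ (κ : Type) (_ : Fintype κ) (p : Fin n → κ → A),
      ∀ i ∈ s, ∀ j ∈ s, (i = j ∨ Γ.Adj i j) → ip (p i) (p j) = M i j := by
  classical
  intro k
  induction k with
  | zero =>
    intro s hs
    rw [Finset.card_eq_zero] at hs
    subst hs
    exact ⟨Unit, inferInstance, 0, by simp⟩
  | succ k ih =>
    intro s hs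
    by_cases hcl : Γ.IsClique (s : Set (Fin n))
    · obtain ⟨κ, hκ, g, hg⟩ := hM.gram s hcl
      exact ⟨κ, hκ, g, fun i hi j hj _ => (hg i hi j hj).symm⟩
    · have hex : ∃ v ∈ s, ∃ w ∈ s, w ≠ v ∧ ¬ Γ.Adj v w := by
        by_contra hc
        push Not at hc
        exact hcl fun v hv w hw hvw => hc v hv w hw hvw.symm
      obtain ⟨v, hv, w, hw, hwv, hadj⟩ := hex
      obtain ⟨z, hz, hzv, hvz, hsim⟩ := Pool.Agent.H255R3.STC.exists_simplicial
        (G := Γ) hΓ s.card s le_rfl v hv w hw hwv hadj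
      obtain ⟨κ, hκ, p, hp⟩ := ih (s.erase z) (by rw [card_erase_of_mem hz, hs]; rfl)
      set K : Finset (Fin n) := insert z (s.filter fun i => Γ.Adj z i) with hK
      have hKcl : Γ.IsClique (K : Set (Fin n)) := by
        intro x hx y hy hxy
        simp only [hK, coe_insert, coe_filter, Set.mem_insert_iff, Set.mem_ofPred_eq] at hx hy
        rcases hx with rfl | ⟨hx1, hx2⟩
        · rcases hy with rfl | ⟨hy1, hy2⟩
          · exact absurd rfl hxy
          · exact hy2
        · rcases hy with rfl | ⟨hy1, hy2⟩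
          · exact hx2.symm
          · exact hsim x hx1 y hy1 hx2 hy2 hxy
      obtain ⟨κ', hκ', g, hg⟩ := hM.gram K hKcl
      have hLR : ((s.erase z : Finset (Fin n)) : Set (Fin n)) ∩ (K : Set (Fin n))
          = ((s.filter fun i => Γ.Adj z i : Finset (Fin n)) : Set (Fin n)) := by
        ext i
        simp only [hK, Set.mem_inter_iff, mem_coe, mem_erase, mem_insert, mem_filter]
        constructor
        · rintro ⟨⟨h1, h2⟩, h3 | h3⟩
          · exact absurd h3 h1
          · exact h3
        · rintro ⟨h1, h2⟩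
          exact ⟨⟨h2.ne', h1⟩, Or.inr ⟨h1, h2⟩⟩
      have hJ : ∀ i ∈ s.filter (fun i => Γ.Adj z i), ∀ j ∈ s.filter (fun i => Γ.Adj z i),
          ip (p i) (p j) = ip (g i) (g j) := by
        intro i hi j hj
        rw [mem_filter] at hi hj
        have hiK : i ∈ K := by rw [hK]; exact mem_insert_of_mem (mem_filter.2 hi)
        have hjK : j ∈ K := by rw [hK]; exact mem_insert_of_mem (mem_filter.2 hj)
        rw [← hg i hiK j hjK]
        refine hp i (mem_erase.2 ⟨hi.2.ne', hi.1⟩) j (mem_erase.2 ⟨hj.2.ne', hj.1⟩) ?_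
        by_cases hij : i = j
        · exact Or.inl hij
        · exact Or.inr (hsim i hi.1 j hj.1 hi.2 hj.2 hij)
      obtain ⟨κ'', hκ'', q, hq1, hq2⟩ := hD.amalg (s.filter fun i => Γ.Adj z i) κ κ' hκ hκ'
        _ _ p g hLR hJ
      have hzK : z ∈ K := by rw [hK]; exact mem_insert_self _ _
      refine ⟨κ'', hκ'', q, fun i hi j hj hij => ?_⟩
      by_cases hiz : i = z
      · have hjK : j ∈ K := by
          rcases hij with h | h
          · rw [← h, hiz]; exact hzK
          · rw [hK]; exact mem_insert_of_mem (mem_filter.2 ⟨hj, hiz ▸ h⟩)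
        rw [hq2 i (hiz ▸ hzK) j hjK, ← hg i (hiz ▸ hzK) j hjK]
      · by_cases hjz : j = z
        · have hiK : i ∈ K := by
            rcases hij with h | h
            · exact absurd (h.trans hjz) hiz
            · rw [hK]; exact mem_insert_of_mem (mem_filter.2 ⟨hi, hjz ▸ h.symm⟩)
          rw [hq2 i hiK j (hjz ▸ hzK), ← hg i hiK j (hjz ▸ hzK)]
        · rw [hq1 i (mem_coe.2 (mem_erase.2 ⟨hiz, hi⟩)) j (mem_coe.2 (mem_erase.2 ⟨hjz, hj⟩))]
          exact hp i (mem_erase.2 ⟨hiz, hi⟩) j (mem_erase.2 ⟨hjz, hj⟩) hij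

theorem Dg.inG (hD : Dg A) {n : ℕ} {Γ : SimpleGraph (Fin n)} (hΓ : Chordal Γ) : InG A Γ := by
  intro M hM
  obtain ⟨κ, _, p, hp⟩ := hD.complete_aux hΓ hM _ univ rfl
  exact ⟨fun i j => ip (p i) (p j), mpos_of_gram _ p fun _ _ => rfl,
    fun i j hij => hp i (mem_univ i) j (mem_univ j) hij⟩


/-! ### Cluster graphs -/

theorem Cluster.inG {n : ℕ} {Γ : SimpleGraph (Fin n)} (hΓ : Cluster Γ) : InG A Γ := by
  classical
  intro M hM
  -- the class of `i`
  let C : Fin n → Finset (Fin n) := fun i => univ.filter fun j => j = i ∨ Γ.Adj i j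
  have hC : ∀ i j, j ∈ C i ↔ (j = i ∨ Γ.Adj i j) := fun i j => by simp [C]
  have hmem : ∀ i, i ∈ C i := fun i => (hC i i).2 (Or.inl rfl)
  have hCcl : ∀ i, Γ.IsClique (C i : Set (Fin n)) := by
    intro i x hx y hy hxy
    rw [mem_coe, hC] at hx hy
    rcases hx with rfl | hx
    · rcases hy with rfl | hy
      · exact absurd rfl hxy
      · exact hy
    · rcases hy with rfl | hy
      · exact hx.symm
      · exact hΓ x i y hx.symm hy hxy
  have hCeq : ∀ i j, (i = j ∨ Γ.Adj i j) → C i = C j := by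
    intro i j hij
    rcases hij with rfl | hij
    · rfl
    · ext x
      rw [hC, hC]
      constructor
      · rintro (rfl | h)
        · exact Or.inr hij.symm
        · by_cases hx : x = j
          · exact Or.inl hx
          · exact Or.inr (hΓ j i x hij.symm h (Ne.symm hx))
      · rintro (rfl | h)
        · exact Or.inr hij
        · by_cases hx : x = i
          · exact Or.inl hx
          · exact Or.inr (hΓ i j x hij h (Ne.symm hx))
  choose κ hκ g hg using fun K : {K : Finset (Fin n) // Γ.IsClique (K : Set (Fin n))} =>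
    hM.gram K.1 K.2
  let cls : Fin n → {K : Finset (Fin n) // Γ.IsClique (K : Set (Fin n))} := fun i => ⟨C i, hCcl i⟩
  let _ : ∀ K, Fintype (κ K) := hκ
  let p : Fin n → (Σ K, κ K) → A := fun i x => if x.1 = cls i then g x.1 i x.2 else 0
  refine ⟨fun i j => ip (p i) (p j), mpos_of_gram _ p fun _ _ => rfl, fun i j hij => ?_⟩
  have hcl : cls i = cls j := Subtype.ext (hCeq i j hij)
  have hj : j ∈ C i := (hC i j).2 (hij.imp_left Eq.symm)
  rw [hg (cls i) i (hmem i) j hj]
  simp only [ip]
  rw [Fintype.sum_sigma, sum_eq_single (cls i)]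
  · refine sum_congr rfl fun x _ => ?_
    simp only [p, if_pos trivial, ← hcl]
  · intro K _ hK
    refine sum_eq_zero fun x _ => ?_
    simp [p, hK]
  · simp

/-! ### Non-chordal graphs -/

theorem eq_of_ip_one {κ : Type} [Fintype κ] {p q : κ → A} (h1 : ip p p = 1) (h2 : ip q q = 1)
    (h3 : ip p q = 1) : p = q := by
  have h4 : ip q p = 1 := by rw [← ip_star, h3, star_one]
  have : p - q = 0 := by
    apply eq_zero_of_ip
    rw [ip_sub_right, ip_sub_left, ip_sub_left, h1, h2, h3, h4]
    simp
  exact sub_eq_zero.1 this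

theorem InG.chordal [Nontrivial A] {n : ℕ} {Γ : SimpleGraph (Fin n)} (h : InG A Γ) :
    Chordal Γ := by
  classical
  intro k hk
  refine ⟨fun f => ?_⟩
  obtain ⟨k, rfl⟩ : ∃ k', k = k' + 2 := ⟨k - 2, by omega⟩
  have hcyc : ∀ a b : Fin (k + 2), Γ.Adj (f a) (f b) ↔ (a.val + 1 = b.val ∨ b.val + 1 = a.val ∨
      (a.val = 0 ∧ b.val = k + 1) ∨ (b.val = 0 ∧ a.val = k + 1)) := by
    intro a b
    rw [f.map_adj_iff, Pool.Agent.H255R3.STC.cycle_adj]
  have hinj : Function.Injective f := f.injective
  -- the position of a vertex on the cycle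
  let on : Fin n → Prop := fun x => ∃ a, f a = x
  let sgn : Fin (k + 2) → Fin (k + 2) → A := fun a b =>
    if a = b then 1 else if a.val + 1 = b.val ∨ b.val + 1 = a.val then 1 else
      if (a.val = 0 ∧ b.val = k + 1) ∨ (b.val = 0 ∧ a.val = k + 1) then -1 else 0
  have hs_self : ∀ a, sgn a a = 1 := fun a => by simp [sgn]
  have hs_symm : ∀ a b, sgn a b = sgn b a := by
    intro a b
    exact if_congr eq_comm rfl (if_congr or_comm rfl (if_congr or_comm rfl rfl))
  have hs_val : ∀ a b, (a = b ∨ (a.val + 1 = b.val ∨ b.val + 1 = a.val ∨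
      (a.val = 0 ∧ b.val = k + 1) ∨ (b.val = 0 ∧ a.val = k + 1))) → sgn a b = 1 ∨ sgn a b = -1 := by
    intro a b hab
    simp only [sgn]
    by_cases h1 : a = b
    · rw [if_pos h1]; exact Or.inl rfl
    · rw [if_neg h1]
      by_cases h2 : a.val + 1 = b.val ∨ b.val + 1 = a.val
      · rw [if_pos h2]; exact Or.inl rfl
      · have h3 : (a.val = 0 ∧ b.val = k + 1) ∨ (b.val = 0 ∧ a.val = k + 1) := by
          have := hab.resolve_left h1
          tauto
        rw [if_neg h2, if_pos h3]; exact Or.inr rfl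
  let M : Matrix (Fin n) (Fin n) A := fun x y =>
    if hx : on x then if hy : on y then sgn hx.choose hy.choose else 0 else 0
  have hM : ∀ a b, M (f a) (f b) = sgn a b := by
    intro a b
    have ha : on (f a) := ⟨a, rfl⟩
    have hb : on (f b) := ⟨b, rfl⟩
    have ea : ha.choose = a := hinj ha.choose_spec
    have eb : hb.choose = b := hinj hb.choose_spec
    simp only [M, dif_pos ha, dif_pos hb, ea, eb]
  have hM0 : ∀ x y, ¬ on x → M x y = 0 := fun x y hx => by simp only [M, dif_neg hx]
  have hM0' : ∀ x y, ¬ on y → M x y = 0 := fun x y hy => by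
    by_cases hx : on x
    · simp only [M, dif_pos hx, dif_neg hy]
    · exact hM0 x y hx
  obtain ⟨Y, hY, hYM⟩ := h M (partialPos_of_gram fun K hK => by
    by_cases h1 : ∃ a, f a ∈ K
    · obtain ⟨a, ha⟩ := h1
      -- the vertices of `K` on the cycle are `f a` and possibly a neighbour
      refine ⟨Unit, inferInstance, fun x _ => M (f a) x, fun x hx y hy => ?_⟩
      simp only [ip, univ_unique, sum_singleton]
      by_cases hxo : on x
      · by_cases hyo : on y
        · obtain ⟨b, rfl⟩ := hxo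
          obtain ⟨c, rfl⟩ := hyo
          rw [hM, hM, hM]
          have hab : a = b ∨ Γ.Adj (f a) (f b) := by
            by_cases h : a = b
            · exact Or.inl h
            · exact Or.inr (hK ha hx fun h' => h (hinj h'))
          have hac : a = c ∨ Γ.Adj (f a) (f c) := by
            by_cases h : a = c
            · exact Or.inl h
            · exact Or.inr (hK ha hy fun h' => h (hinj h'))
          have hbc : b = c ∨ Γ.Adj (f b) (f c) := by
            by_cases h : b = c
            · exact Or.inl h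
            · exact Or.inr (hK hx hy fun h' => h (hinj h'))
          rw [hcyc] at hab hac hbc
          have ha' := a.isLt
          have hb' := b.isLt
          have hc' := c.isLt
          have htri : a = b ∨ a = c ∨ b = c := by
            by_contra hcon
            push Not at hcon
            obtain ⟨n1, n2, n3⟩ := hcon
            have m1 : a.val ≠ b.val := fun h => n1 (Fin.ext h)
            have m2 : a.val ≠ c.val := fun h => n2 (Fin.ext h)
            have m3 : b.val ≠ c.val := fun h => n3 (Fin.ext h)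
            have q1 := hab.resolve_left n1
            have q2 := hac.resolve_left n2
            have q3 := hbc.resolve_left n3
            omega
          rcases htri with h | h | h
          · rw [← h, hs_self, star_one, one_mul]
          · rw [← h, hs_self, mul_one, hs_symm b a]
            rcases hs_val a b hab with h' | h' <;> simp [h']
          · rw [← h, hs_self]
            rcases hs_val a b hab with h' | h' <;> simp [h']
        · rw [hM0' _ _ hyo, hM0' _ _ hyo, mul_zero]
      · rw [hM0 _ _ hxo, hM0' _ _ hxo, star_zero, zero_mul]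
    · refine ⟨Unit, inferInstance, 0, fun x hx y hy => ?_⟩
      have hxo : ¬ on x := by
        rintro ⟨a, rfl⟩
        exact h1 ⟨a, hx⟩
      rw [hM0 x y hxo]
      simp [ip])
  obtain ⟨p, hp⟩ := gram_of_mpos Y hY
  have hdiag : ∀ a, ip (p (f a)) (p (f a)) = 1 := by
    intro a
    rw [← hp, hYM _ _ (Or.inl rfl), hM]
    simp [sgn]
  have hstep : ∀ i : ℕ, ∀ hi : i < k + 2, p (f ⟨i, hi⟩) = p (f ⟨0, by omega⟩) := by
    intro i
    induction i with
    | zero => intro hi; rfl
    | succ i ih =>
      intro hi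
      rw [← ih (by omega)]
      apply eq_of_ip_one (hdiag _) (hdiag _)
      rw [← hp, hYM _ _ (Or.inr ((hcyc _ _).2 (by simp))), hM]
      simp [sgn]
  have hlast := hstep (k + 1) (by omega)
  have h5 : ip (p (f ⟨0, by omega⟩)) (p (f ⟨k + 1, by omega⟩)) = (-1 : A) := by
    rw [← hp, hYM _ _ (Or.inr ((hcyc _ _).2 (by simp))), hM]
    simp only [sgn]
    rw [if_neg (by simp), if_neg (by simp; omega), if_pos (by simp)]
  rw [hlast, hdiag] at h5
  have h6 : (2 : A) = 0 := by
    have : (1 : A) + 1 = 0 := by nth_rewrite 1 [h5]; simp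
    rw [← this]; norm_num
  have h7 : ((2 : ℂ) • (1 : A)) = 0 := by
    rw [two_smul]
    rw [← h6]; norm_num
  rw [smul_eq_zero] at h7
  rcases h7 with h7 | h7
  · norm_num at h7
  · exact one_ne_zero h7

end Pool.Agent.Q194.PSD
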