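import Pool.Agent.Q194.PSDGraph

/-!
# Passing to matrix algebras
-/

set_option linter.unusedSectionVars false

open Finset

namespace Pool.Agent.Q194.PSD

variable {A : Type*} [CStarAlgebra A] [PartialOrder A] [StarOrderedRing A]

theorem inG_of_subsingleton [Subsingleton A] {n : ℕ} (Γ : SimpleGraph (Fin n)) : InG A Γ := by
  intro M _
  refine ⟨M, ?_, fun _ _ _ => rfl⟩
  exact mpos_of_gram (κ := Unit) M (fun _ _ => 0) fun _ _ => Subsingleton.elim _ _

theorem cstarMatrix_sum_apply {m : ℕ} {κ : Type*} (s : Finset κ)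
    (F : κ → CStarMatrix (Fin m) (Fin m) A) (a b : Fin m) :
    (∑ k ∈ s, F k) a b = ∑ k ∈ s, F k a b := by
  classical
  induction s using Finset.induction_on with
  | empty => simp
  | insert x s hx ih => rw [sum_insert hx, sum_insert hx, CStarMatrix.add_apply, ih]

/-- the entries of the inner product of columns over the matrix algebra -/
theorem ip_entry {m : ℕ} {κ : Type} [Fintype κ] (P Q : κ → CStarMatrix (Fin m) (Fin m) A)
    (a b : Fin m) : (ip P Q : CStarMatrix (Fin m) (Fin m) A) a b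
      = ip (fun x : κ × Fin m => P x.1 x.2 a) (fun x : κ × Fin m => Q x.1 x.2 b) := by
  unfold ip
  rw [cstarMatrix_sum_apply, Fintype.sum_prod_type]
  refine sum_congr rfl fun k _ => ?_
  rw [CStarMatrix.mul_apply]
  refine sum_congr rfl fun c _ => ?_
  rw [CStarMatrix.star_apply]

/-- the matrix with first row `v` and zeros elsewhere -/
def row {m : ℕ} (i₀ : Fin m) (v : Fin m → A) : CStarMatrix (Fin m) (Fin m) A :=
  CStarMatrix.ofMatrix fun c a => if c = i₀ then v a else 0

theorem row_apply {m : ℕ} (i₀ : Fin m) (v : Fin m → A) (c a : Fin m) :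
    row i₀ v c a = if c = i₀ then v a else 0 := rfl

theorem ip_row {m : ℕ} (i₀ : Fin m) {κ : Type} [Fintype κ] (p q : Fin m → κ → A) (a b : Fin m) :
    (ip (fun k => row i₀ fun c => p c k) (fun k => row i₀ fun c => q c k) :
      CStarMatrix (Fin m) (Fin m) A) a b = ip (p a) (q b) := by
  rw [ip_entry]
  unfold ip
  rw [Fintype.sum_prod_type]
  refine sum_congr rfl fun k _ => ?_
  rw [sum_eq_single i₀]
  · simp only [row_apply, if_pos trivial]
  · intro c _ hc
    simp only [row_apply, if_neg hc, mul_zero]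
  · simp

theorem Amalg3.of_matrix {m : ℕ} (i₀ : Fin m) (h : Amalg3 (CStarMatrix (Fin m) (Fin m) A)) :
    Amalg3 A := by
  classical
  intro κ κ' _ _ l mm m' r hm
  let E : {κ : Type} → (κ → A) → κ → CStarMatrix (Fin m) (Fin m) A := fun x k =>
    row i₀ fun c => if c = i₀ then x k else 0
  have hE : ∀ {κ : Type} [Fintype κ] (x y : κ → A) (a b : Fin m),
      (ip (E x) (E y) : CStarMatrix (Fin m) (Fin m) A) a b
        = if a = i₀ ∧ b = i₀ then ip x y else 0 := by
    intro κ _ x y a b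
    have := ip_row i₀ (fun c k => if c = i₀ then x k else 0) (fun c k => if c = i₀ then y k else 0)
      a b
    simp only [E]
    rw [this]
    by_cases ha : a = i₀
    · by_cases hb : b = i₀
      · simp [ha, hb]
      · simp [ip, ha, hb]
    · simp [ip, ha]
  obtain ⟨κ'', _, P, Q, R, h1, h2, h3, h4, h5⟩ := h κ κ' inferInstance inferInstance
    (E l) (E mm) (E m') (E r) (by
      apply CStarMatrix.ext
      intro a b
      rw [hE, hE, hm])
  have key : ∀ (X Y : κ'' → CStarMatrix (Fin m) (Fin m) A),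
      ip (fun x : κ'' × Fin m => X x.1 x.2 i₀) (fun x : κ'' × Fin m => Y x.1 x.2 i₀)
        = (ip X Y : CStarMatrix (Fin m) (Fin m) A) i₀ i₀ := fun X Y => (ip_entry X Y i₀ i₀).symm
  refine ⟨κ'' × Fin m, inferInstance, fun x => P x.1 x.2 i₀, fun x => Q x.1 x.2 i₀,
    fun x => R x.1 x.2 i₀, ?_, ?_, ?_, ?_, ?_⟩
  · rw [key, h1, hE]; simp
  · rw [key, h2, hE]; simp
  · rw [key, h3, hE]; simp
  · rw [key, h4, hE]; simp
  · rw [key, h5, hE]; simp

theorem Dg.matrix {m : ℕ} (i₀ : Fin m) (hD : Dg A) : Dg (CStarMatrix (Fin m) (Fin m) A) := by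
  classical
  refine Amalg3.dg ?_
  intro κ κ' _ _ l mm m' r hm
  let g : Fin 3 × Fin m → κ × Fin m → A := fun i x =>
    if i.1 = 0 then l x.1 x.2 i.2 else if i.1 = 1 then mm x.1 x.2 i.2 else 0
  let g' : Fin 3 × Fin m → κ' × Fin m → A := fun i x =>
    if i.1 = 1 then m' x.1 x.2 i.2 else if i.1 = 2 then r x.1 x.2 i.2 else 0
  have g0 : ∀ a, g (0, a) = fun x => l x.1 x.2 a := fun a => by funext x; simp [g]
  have g1 : ∀ a, g (1, a) = fun x => mm x.1 x.2 a := fun a => by funext x; simp [g]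
  have g1' : ∀ a, g' (1, a) = fun x => m' x.1 x.2 a := fun a => by funext x; simp [g']
  have g2' : ∀ a, g' (2, a) = fun x => r x.1 x.2 a := fun a => by funext x; simp [g']
  obtain ⟨κ'', _, p, hp1, hp2⟩ := hD.amalg (univ.filter fun i : Fin 3 × Fin m => i.1 = 1)
    (κ × Fin m) (κ' × Fin m) inferInstance inferInstance {i | i.1 = 0 ∨ i.1 = 1}
    {i | i.1 = 1 ∨ i.1 = 2} g g' (by
      ext i
      simp only [Set.mem_inter_iff, Set.mem_ofPred_eq, coe_filter, mem_univ, true_and]
      constructor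
      · rintro ⟨h1 | h1, h2 | h2⟩
        · exact h2
        · rw [h1] at h2; exact absurd h2 (by decide)
        · exact h1
        · exact h1
      · intro h
        exact ⟨Or.inr h, Or.inl h⟩) (by
      rintro ⟨i, a⟩ hi ⟨j, b⟩ hj
      simp only [mem_filter, mem_univ, true_and] at hi hj
      subst hi hj
      rw [g1, g1, g1', g1', ← ip_entry, ← ip_entry, hm])
  refine ⟨κ'', inferInstance, fun k => row i₀ fun c => p (0, c) k, fun k => row i₀ fun c => p (1, c) k,
    fun k => row i₀ fun c => p (2, c) k, ?_, ?_, ?_, ?_, ?_⟩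
  · apply CStarMatrix.ext
    intro a b
    rw [ip_row i₀ (fun c => p (0, c)) (fun c => p (0, c)), hp1 _ (by simp) _ (by simp), g0, g0,
      ← ip_entry]
  · apply CStarMatrix.ext
    intro a b
    rw [ip_row i₀ (fun c => p (0, c)) (fun c => p (1, c)), hp1 _ (by simp) _ (by simp), g0, g1,
      ← ip_entry]
  · apply CStarMatrix.ext
    intro a b
    rw [ip_row i₀ (fun c => p (1, c)) (fun c => p (1, c)), hp1 _ (by simp) _ (by simp), g1, g1,
      ← ip_entry]
  · apply CStarMatrix.ext
    intro a b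
    rw [ip_row i₀ (fun c => p (1, c)) (fun c => p (2, c)), hp2 _ (by simp) _ (by simp), g1', g2',
      ← ip_entry]
  · apply CStarMatrix.ext
    intro a b
    rw [ip_row i₀ (fun c => p (2, c)) (fun c => p (2, c)), hp2 _ (by simp) _ (by simp), g2', g2',
      ← ip_entry]

/-- the classes `G(A)` and `G(M_m(A))` are the same -/
theorem inG_matrix_iff {m : ℕ} (hm : 1 ≤ m) {n : ℕ} (Γ : SimpleGraph (Fin n)) :
    InG (CStarMatrix (Fin m) (Fin m) A) Γ ↔ InG A Γ := by
  have i₀ : Fin m := ⟨0, hm⟩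
  have : Nonempty (Fin m) := ⟨i₀⟩
  rcases subsingleton_or_nontrivial A with hA | hA
  · exact ⟨fun _ => inG_of_subsingleton Γ, fun _ => inG_of_subsingleton Γ⟩
  · by_cases hΓ : Cluster Γ
    · exact ⟨fun _ => hΓ.inG, fun _ => hΓ.inG⟩
    · constructor
      · intro h
        exact (h.amalg3 hΓ).of_matrix i₀ |>.dg.inG h.chordal
      · intro h
        exact ((h.amalg3 hΓ).dg.matrix i₀).inG h.chordal

/-- the dichotomy -/
theorem dichotomy [Nontrivial A] :
    (∀ (n : ℕ) (Γ : SimpleGraph (Fin n)), InG A Γ ↔ Chordal Γ) ∨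
      (∀ (n : ℕ) (Γ : SimpleGraph (Fin n)), InG A Γ → Cluster Γ) := by
  by_cases hD : Dg A
  · exact Or.inl fun n Γ => ⟨fun h => h.chordal, fun h => hD.inG h⟩
  · refine Or.inr fun n Γ h => ?_
    by_contra hΓ
    exact hD (h.amalg3 hΓ).dg

/-- the path on three vertices -/
theorem path_chordal : ∃ Γ : SimpleGraph (Fin 3), Chordal Γ ∧ ¬ Cluster Γ := by
  refine ⟨SimpleGraph.fromRel fun a b => a.val + 1 = b.val, ?_, ?_⟩
  · intro k hk
    refine ⟨fun f => ?_⟩
    have := Fintype.card_le_of_injective f f.injective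
    simp at this
    omega
  · intro h
    have := h 0 1 2 (by simp [SimpleGraph.fromRel_adj]) (by simp [SimpleGraph.fromRel_adj])
      (by decide)
    simp [SimpleGraph.fromRel_adj] at this

theorem cluster_iff_not_dg :
    (∀ (n : ℕ) (Γ : SimpleGraph (Fin n)), InG A Γ → Cluster Γ) ↔ ¬ Dg A := by
  constructor
  · intro h hD
    obtain ⟨Γ, h1, h2⟩ := path_chordal
    exact h2 (h 3 Γ (hD.inG h1))
  · intro hD n Γ h
    by_contra hΓ
    exact hD (h.amalg3 hΓ).dg

end Pool.Agent.Q194.PSD
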