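import Pool.Agent.Q194.PSDMat

/-!
# The factorization property and the polar decomposition of 2 × 2 matrices
-/

set_option linter.unusedSectionVars false

open Finset

namespace Pool.Agent.Q194.PSD

/-- every element of `B` is `V P` with `‖V‖ ≤ 1`, `P ≥ 0` and `P² = X* X`, that is `P = |X|` -/
def Polar (B : Type*) [CStarAlgebra B] [PartialOrder B] : Prop :=
  ∀ X : B, ∃ V P : B, ‖V‖ ≤ 1 ∧ 0 ≤ P ∧ P * P = star X * X ∧ X = V * P

theorem norm_le_one_iff' {B : Type*} [CStarAlgebra B] [PartialOrder B] [StarOrderedRing B]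
    (v : B) : star v * v ≤ 1 ↔ ‖v‖ ≤ 1 := by
  rw [← CStarAlgebra.norm_le_one_iff_of_nonneg _ (star_mul_self_nonneg v),
    CStarRing.norm_star_mul_self]
  constructor
  · intro h; nlinarith [norm_nonneg v]
  · intro h; nlinarith [norm_nonneg v]

theorem Dg.toPolar {B : Type*} [CStarAlgebra B] [PartialOrder B] [StarOrderedRing B]
    (h : Dg B) : Polar B := by
  intro X
  obtain ⟨v, hv, h1⟩ := h X (star X * X) le_rfl
  exact ⟨v, CFC.sqrt (star X * X), (norm_le_one_iff' v).1 hv, CFC.sqrt_nonneg _,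
    CFC.sqrt_mul_sqrt_self _ (star_mul_self_nonneg X), h1⟩

theorem sqrt_unique' {B : Type*} [CStarAlgebra B] [PartialOrder B] [StarOrderedRing B]
    {P S : B} (hP : 0 ≤ P) (hS : 0 ≤ S) (h : P * P = S * S) : P = S := by
  have hSS : 0 ≤ S * S := by
    have := star_mul_self_nonneg S
    rwa [hS.isSelfAdjoint.star_eq] at this
  have h1 : CFC.sqrt (S * S) = S := by
    rw [CFC.sqrt_eq_iff _ _ hSS hS]
  have h2 : CFC.sqrt (S * S) = P := by
    rw [CFC.sqrt_eq_iff _ _ hSS hP, h]
  rw [← h2, h1]

variable {A : Type*} [CStarAlgebra A] [PartialOrder A] [StarOrderedRing A]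

/-- the corner embedding -/
def corner (a : A) : CStarMatrix (Fin 2) (Fin 2) A :=
  CStarMatrix.ofMatrix fun i j => if i = 0 ∧ j = 0 then a else 0

theorem corner_apply (a : A) (i j : Fin 2) :
    corner a i j = if i = 0 ∧ j = 0 then a else 0 := rfl

theorem corner_nonneg {a : A} (ha : 0 ≤ a) : 0 ≤ corner a := by
  have h := mpos_of_gram (A := A) (κ := Unit) (fun i j : Fin 2 => if i = 0 ∧ j = 0 then a else 0)
    (fun i _ => if i = 0 then CFC.sqrt a else 0) (by
      intro i j
      by_cases hi : i = 0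
      · by_cases hj : j = 0
        · simp [hi, hj, ip, sqrt_star, CFC.sqrt_mul_sqrt_self a ha]
        · simp [hi, hj, ip]
      · simp [hi, ip])
  exact h

theorem dg_of_polar (h : Polar (CStarMatrix (Fin 2) (Fin 2) A)) : Dg A := by
  intro x b hxb
  have hb : 0 ≤ b := (star_mul_self_nonneg x).trans hxb
  have h0 : 0 ≤ b - star x * x := sub_nonneg.2 hxb
  set d := CFC.sqrt (b - star x * x) with hd
  have hdd : d * d = b - star x * x := CFC.sqrt_mul_sqrt_self _ h0
  have hds : star d = d := sqrt_star _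
  set s := CFC.sqrt b with hs
  have hss : s * s = b := CFC.sqrt_mul_sqrt_self _ hb
  have hs0 : 0 ≤ s := CFC.sqrt_nonneg _
  let X : CStarMatrix (Fin 2) (Fin 2) A :=
    CStarMatrix.ofMatrix fun i j => if j = 0 then (if i = 0 then x else d) else 0
  have hX : ∀ i j, X i j = if j = 0 then (if i = 0 then x else d) else 0 := fun _ _ => rfl
  obtain ⟨V, P, hV, hP, hPP, hXV⟩ := h X
  have hXX : star X * X = corner s * corner s := by
    apply CStarMatrix.ext
    intro i j
    rw [CStarMatrix.mul_apply, CStarMatrix.mul_apply, Fin.sum_univ_two, Fin.sum_univ_two,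
      CStarMatrix.star_apply, CStarMatrix.star_apply, hX, hX, hX, hX, corner_apply, corner_apply,
      corner_apply, corner_apply]
    by_cases hi : i = 0
    · by_cases hj : j = 0
      · simp [hi, hj, hds, hdd, hss]
      · simp [hi, hj]
    · simp [hi]
  have hPs : P = corner s := sqrt_unique' hP (corner_nonneg hs0) (hPP.trans hXX)
  refine ⟨V 0 0, ?_, ?_⟩
  · rw [norm_le_one_iff']
    exact (CStarMatrix.norm_entry_le_norm (M := V) (i := 0) (j := 0)).trans hV
  · have e : X 0 0 = (V * P) 0 0 := by rw [← hXV]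
    rw [hPs, CStarMatrix.mul_apply, Fin.sum_univ_two, hX, corner_apply, corner_apply] at e
    simpa using e

theorem dg_iff_polar : Dg A ↔ Polar (CStarMatrix (Fin 2) (Fin 2) A) :=
  ⟨fun h => (h.matrix (0 : Fin 2)).toPolar, dg_of_polar⟩

end Pool.Agent.Q194.PSD
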