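import Pool.Agent.Q194.PSDMat

/-!
# Positive Toeplitz completions over a unital C*-algebra
-/

set_option linter.unusedSectionVars false

open Finset

namespace Pool.Agent.Q194.PSD

variable {A : Type*} [CStarAlgebra A] [PartialOrder A] [StarOrderedRing A]

/-- The `n × n` Toeplitz matrix with the entries `y (i - j)`. -/
def toep (n : ℕ) (y : ℤ → A) : Matrix (Fin n) (Fin n) A :=
  fun i j => y (((i : ℕ) : ℤ) - ((j : ℕ) : ℤ))

/-- The positive Toeplitz completion property: for all `0 < k < n`, all positive Toeplitz matrices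
`[a_{i-j}]` of size `k` have a positive Toeplitz completion `[y_{i-j}]` of size `n`, with
`y_l = a_l` for `|l| ≤ k - 1`. -/
def PTC (A : Type*) [CStarAlgebra A] [PartialOrder A] [StarOrderedRing A] : Prop :=
  ∀ k n : ℕ, 0 < k → k < n → ∀ a : ℤ → A, MPos (toep k a) →
    ∃ y : ℤ → A, MPos (toep n y) ∧ ∀ l : ℤ, |l| ≤ (k : ℤ) - 1 → y l = a l

/-- One step. -/
theorem Dg.toep_step (hD : Dg A) (k : ℕ) (a : ℤ → A) (h : MPos (toep k a)) :
    ∃ y : ℤ → A, MPos (toep (k + 1) y) ∧ ∀ l : ℤ, |l| ≤ (k : ℤ) - 1 → y l = a l := by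
  classical
  obtain ⟨g, hg⟩ := gram_of_mpos _ h
  let m : ℕ → Fin k → A := fun i => if hi : i < k then g ⟨i, hi⟩ else 0
  have hm : ∀ i j : ℕ, i < k → j < k → ip (m i) (m j) = a ((i : ℤ) - j) := by
    intro i j hi hj
    simp only [m, dif_pos hi, dif_pos hj]
    exact (hg ⟨i, hi⟩ ⟨j, hj⟩).symm
  have hm' : ∀ i j : ℕ, 1 ≤ i → i < k + 1 → 1 ≤ j → j < k + 1 →
      ip (m (i - 1)) (m (j - 1)) = a ((i : ℤ) - j) := by
    intro i j hi hi' hj hj'
    rw [hm (i - 1) (j - 1) (by omega) (by omega)]
    congr 1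
    omega
  obtain ⟨κ, _, p, hp1, hp2⟩ := hD.amalg (Finset.Ico 1 k) (Fin k) (Fin k) inferInstance
    inferInstance {i | i < k} {i | 1 ≤ i ∧ i < k + 1} m (fun i => m (i - 1)) (by
      ext i
      simp only [Set.mem_inter_iff, Set.mem_ofPred_eq, coe_Ico, Set.mem_Ico]
      omega) (by
      intro i hi j hj
      rw [Finset.mem_Ico] at hi hj
      rw [hm i j hi.2 hj.2, hm' i j hi.1 (by omega) hj.1 (by omega)])
  refine ⟨fun l => if |l| ≤ (k : ℤ) - 1 then a l else if 0 < l then ip (p k) (p 0)
    else ip (p 0) (p k), ?_, fun l hl => if_pos hl⟩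
  refine mpos_of_gram (κ := κ) _ (fun i : Fin (k + 1) => p i) fun i j => ?_
  have hi := i.2
  have hj := j.2
  simp only [toep]
  by_cases h1 : |((i : ℕ) : ℤ) - ((j : ℕ) : ℤ)| ≤ (k : ℤ) - 1
  · rw [if_pos h1]
    rw [abs_le] at h1
    by_cases h2 : (i : ℕ) < k ∧ (j : ℕ) < k
    · rw [hp1 _ h2.1 _ h2.2, hm _ _ h2.1 h2.2]
    · have h3 : 1 ≤ (i : ℕ) ∧ 1 ≤ (j : ℕ) := by omega
      rw [hp2 _ ⟨h3.1, hi⟩ _ ⟨h3.2, hj⟩, hm' _ _ h3.1 hi h3.2 hj]
  · rw [if_neg h1]
    by_cases h2 : 0 < ((i : ℕ) : ℤ) - ((j : ℕ) : ℤ)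
    · rw [if_pos h2]
      rw [abs_of_pos h2] at h1
      have h3 : (i : ℕ) = k := by omega
      have h4 : (j : ℕ) = 0 := by omega
      rw [h3, h4]
    · rw [if_neg h2]
      rw [abs_of_nonpos (not_lt.1 h2)] at h1
      have h3 : (j : ℕ) = k := by omega
      have h4 : (i : ℕ) = 0 := by omega
      rw [h3, h4]

theorem Dg.ptc (hD : Dg A) : PTC A := by
  intro k n _ hkn a ha
  have key : ∀ n, k ≤ n → ∃ y : ℤ → A, MPos (toep n y) ∧ ∀ l : ℤ, |l| ≤ (k : ℤ) - 1 → y l = a l := by
    intro n hn
    induction n, hn using Nat.le_induction with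
    | base => exact ⟨a, ha, fun _ _ => rfl⟩
    | succ n hn ih =>
      obtain ⟨y, hy, hya⟩ := ih
      obtain ⟨z, hz, hzy⟩ := hD.toep_step n y hy
      refine ⟨z, hz, fun l hl => ?_⟩
      rw [hzy l (by omega), hya l hl]
  exact key n hkn.le

/-- **The necessary condition.** -/
theorem PTC.local_factor (hA : PTC A) (g X R : A) (hse : star g = g) (hn : ‖g‖ ≤ 1)
    (hX : g * X = X) (hR : g * R = R) (hX' : X * g = 0) (hR' : R * g = 0)
    (h : star X * X ≤ star R * R) : ∃ v : A, star v * v ≤ 1 ∧ X = v * R := by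
  have h0 : 0 ≤ star R * R - star X * X := sub_nonneg.2 h
  set d := CFC.sqrt (star R * R - star X * X) with hd
  have hdd : d * d = star R * R - star X * X := CFC.sqrt_mul_sqrt_self _ h0
  have hds : star d = d := sqrt_star _
  have hRg : star R * g = star R := by
    have := congrArg star hR
    rwa [star_mul, hse] at this
  have hgR : g * star R = 0 := by
    have := congrArg star hR'
    rwa [star_mul, hse, star_zero] at this
  let G0 : Fin 3 → A := ![g, X, d]
  let G1 : Fin 3 → A := ![R, g, 0]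
  have h00 : ip G0 G0 = g * g + star R * R := by
    have : ip G0 G0 = star g * g + star X * X + star d * d := by
      simp [ip, Fin.sum_univ_three, G0]
    rw [this, hse, hds, hdd, add_assoc, add_sub_cancel]
  have h11 : ip G1 G1 = g * g + star R * R := by
    have : ip G1 G1 = star R * R + star g * g := by
      simp [ip, Fin.sum_univ_three, G1]
    rw [this, hse, add_comm]
  have h10 : ip G1 G0 = star R + X := by
    have : ip G1 G0 = star R * g + star g * X := by
      simp [ip, Fin.sum_univ_three, G0, G1]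
    rw [this, hse, hRg, hX]
  have h01 : ip G0 G1 = star (star R + X) := by rw [← h10, ip_star]
  obtain ⟨S, hS⟩ : ∃ S, g * g + star R * R = S := ⟨_, rfl⟩
  obtain ⟨T, hT⟩ : ∃ T, star R + X = T := ⟨_, rfl⟩
  rw [hS] at h00 h11
  rw [hT] at h10 h01
  obtain ⟨y, hy, hya⟩ := hA 2 3 (by norm_num) (by norm_num)
    (fun l => if l = 0 then S else if l = 1 then T else star T)
    (mpos_of_gram (κ := Fin 3) _ ![G0, G1] (by
      intro i j
      fin_cases i <;> fin_cases j
      · simpa [toep] using h00.symm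
      · simpa [toep] using h01.symm
      · simpa [toep] using h10.symm
      · simpa [toep] using h11.symm))
  obtain ⟨q, hq⟩ := gram_of_mpos _ hy
  have hy0 : y 0 = S := by rw [hya 0 (by norm_num)]; simp
  have hy1 : y 1 = T := by rw [hya 1 (by norm_num)]; simp
  have g00 : ip (q 0) (q 0) = S := by rw [← hq, ← hy0]; rfl
  have g11 : ip (q 1) (q 1) = S := by rw [← hq, ← hy0]; rfl
  have g22 : ip (q 2) (q 2) = S := by rw [← hq, ← hy0]; rfl
  have g10 : ip (q 1) (q 0) = T := by rw [← hq, ← hy1]; rfl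
  have g21 : ip (q 2) (q 1) = T := by rw [← hq, ← hy1]; rfl
  obtain ⟨P, hP⟩ : ∃ P, R * star R = P := ⟨_, rfl⟩
  have hPs : star P = P := by rw [← hP, star_mul, star_star]
  have hgP : g * P = P := by rw [← hP, ← mul_assoc, hR]
  set pl := rm (q 2) g with hpl
  set pm := rm (q 1) (star R) with hpm
  set pr := rm (q 0) g with hpr
  have eSe : g * S * g = g * g * (g * g) := by
    rw [← hS]
    have : g * (g * g + star R * R) * g = g * g * (g * g) + (g * star R) * (R * g) := by
      noncomm_ring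
    rw [this, hgR]
    simp
  have e1 : ip pl pl = g * g * (g * g) := by
    rw [hpl, ip_rm, ip_rm_left, g22, hse, eSe]
  have e5 : ip pr pr = g * g * (g * g) := by
    rw [hpr, ip_rm, ip_rm_left, g00, hse, eSe]
  have e2 : ip pl pm = X * star R := by
    rw [hpl, hpm, ip_rm, ip_rm_left, g21, hse, ← hT]
    have : g * (star R + X) * star R = (g * star R) * star R + (g * X) * star R := by
      noncomm_ring
    rw [this, hgR, hX]
    simp
  have e3 : ip pm pm = P * P := by
    rw [hpm, ip_rm, ip_rm_left, g11, ← hS, star_star]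
    have : R * (g * g + star R * R) * star R
        = (R * g) * (g * star R) + (R * star R) * (R * star R) := by noncomm_ring
    rw [this, hR', hP]
    simp
  have e4 : ip pm pr = P := by
    rw [hpm, hpr, ip_rm, ip_rm_left, g10, ← hT, star_star]
    have : R * (star R + X) * g = R * (star R * g) + R * (X * g) := by noncomm_ring
    rw [this, hRg, hX', hP]
    simp
  have e4' : ip pr pm = P := by rw [← ip_star, e4, hPs]
  clear_value pl pm pr
  have hz : pm - rm pr P = 0 := by
    apply eq_zero_of_ip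
    rw [ip_sub_right, ip_sub_left, ip_sub_left, ip_rm, ip_rm, ip_rm_left, ip_rm_left, e3, e4, e4',
      e5, hPs]
    have : g * g * (g * g) * P = P := by
      rw [mul_assoc, mul_assoc, mul_assoc, hgP, hgP, hgP, hgP]
    rw [mul_assoc P (g * g * (g * g)) P, this]
    simp
  have hz' : pm = rm pr P := sub_eq_zero.1 hz
  have hE1 : g * g * (g * g) ≤ 1 := by
    have hpos : 0 ≤ g * g * (g * g) := by
      have : g * g * (g * g) = star (g * g) * (g * g) := by rw [star_mul, hse]
      rw [this]
      exact star_mul_self_nonneg _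
    rw [← CStarAlgebra.norm_le_one_iff_of_nonneg _ hpos]
    have hee : ‖g * g‖ ≤ 1 := (norm_mul_le _ _).trans (mul_le_one₀ hn (norm_nonneg _) hn)
    exact (norm_mul_le _ _).trans (mul_le_one₀ hee (norm_nonneg _) hee)
  obtain ⟨v, hv⟩ : ∃ v, ip pl pr = v := ⟨_, rfl⟩
  refine ⟨v, ?_, ?_⟩
  · have hn := ip_self_nonneg (pr - rm pl v)
    rw [ip_sub_right, ip_sub_left, ip_sub_left, ip_rm, ip_rm, ip_rm_left, ip_rm_left, e1, e5,
      ← ip_star pl pr, hv] at hn
    obtain ⟨F, hF⟩ : ∃ F, g * g * (g * g) = F := ⟨_, rfl⟩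
    rw [hF] at hn hE1
    have h2 := star_left_conjugate_le_conjugate hE1 v
    rw [mul_one] at h2
    have h3 : (0 : A) ≤ F - star v * v := by
      refine hn.trans ?_
      have : F - star v * v - (star v * v - star v * F * v)
          = (F - star v * v) - (star v * v - star v * F * v) := by noncomm_ring
      rw [this]
      exact sub_le_self _ (sub_nonneg.2 h2)
    exact (sub_nonneg.1 h3).trans hE1
  · have h5 : X * star R = v * P := by rw [← e2, hz', ip_rm, hv]
    have h6 : (X - v * R) * star R = 0 := by rw [sub_mul, mul_assoc, hP, h5, sub_self]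
    obtain ⟨Z, hZ⟩ : ∃ Z, X - v * R = Z := ⟨_, rfl⟩
    rw [hZ] at h6
    have h7 := star_right_conjugate_le_conjugate h Z
    have h8 : Z * (star R * R) * star Z = 0 := by
      rw [← mul_assoc, h6, zero_mul, zero_mul]
    rw [h8] at h7
    have h9 : star (X * star Z) * (X * star Z) = 0 := by
      have : star (X * star Z) * (X * star Z) = Z * (star X * X) * star Z := by
        rw [star_mul, star_star]; noncomm_ring
      rw [this]
      refine le_antisymm h7 ?_
      rw [← this]
      exact star_mul_self_nonneg _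
    have h10 : X * star Z = 0 := eq_zero_of_star_mul_self h9
    have h11 : Z * star X = 0 := by
      have := congrArg star h10
      rwa [star_mul, star_star, star_zero] at this
    have h12 : star (star Z) * star Z = 0 := by
      rw [star_star]
      have : star Z = star X - star R * star v := by rw [← hZ, star_sub, star_mul]
      rw [this, mul_sub, h11, ← mul_assoc, h6, zero_mul, sub_zero]
    have h13 : star Z = 0 := eq_zero_of_star_mul_self h12
    have h14 : Z = 0 := by rw [← star_star Z, h13, star_zero]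
    exact sub_eq_zero.1 (hZ.trans h14)

/-! ### Matrix algebras -/

/-- the matrix with the entry `a` at the place `(i, j)` and zeros elsewhere -/
def E {m : ℕ} (i j : Fin m) (a : A) : CStarMatrix (Fin m) (Fin m) A :=
  CStarMatrix.ofMatrix fun p q => if p = i ∧ q = j then a else 0

theorem E_apply {m : ℕ} (i j : Fin m) (a : A) (p q : Fin m) :
    E i j a p q = if p = i ∧ q = j then a else 0 := rfl

theorem E_mul {m : ℕ} (i j k l : Fin m) (a b : A) :
    E i j a * E k l b = if j = k then E i l (a * b) else 0 := by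
  apply CStarMatrix.ext
  intro p q
  rw [CStarMatrix.mul_apply, sum_eq_single j]
  · by_cases hjk : j = k
    · by_cases hp : p = i
      · by_cases hq : q = l
        · simp [E_apply, hp, hq, hjk]
        · simp [E_apply, hq, hjk]
      · simp [E_apply, hp, hjk]
    · simp only [E_apply, if_neg hjk]
      rw [if_neg (fun h : j = k ∧ q = l => hjk h.1), mul_zero]
      rfl
  · intro c _ hc
    simp [E_apply, hc]
  · simp

theorem E_star {m : ℕ} (i j : Fin m) (a : A) : star (E i j a) = E j i (star a) := by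
  apply CStarMatrix.ext
  intro p q
  rw [CStarMatrix.star_apply, E_apply, E_apply]
  by_cases h : q = i ∧ p = j
  · rw [if_pos h, if_pos h.symm]
  · rw [if_neg h, if_neg (fun h' => h h'.symm), star_zero]

theorem E_sub {m : ℕ} (i j : Fin m) (a b : A) : E i j a - E i j b = E i j (a - b) := by
  apply CStarMatrix.ext
  intro p q
  rw [CStarMatrix.sub_apply, E_apply, E_apply, E_apply]
  split_ifs
  · rfl
  · rw [sub_zero]

theorem E_nonneg {m : ℕ} (i : Fin m) {a : A} (ha : 0 ≤ a) : 0 ≤ E i i a := by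
  obtain ⟨c, rfl⟩ := exists_star_mul a ha
  have : E i i (star c * c) = star (E i i c) * E i i c := by
    rw [E_star, E_mul, if_pos rfl]
  rw [this]
  exact star_mul_self_nonneg _

theorem diag_nonneg {m : ℕ} {M : CStarMatrix (Fin m) (Fin m) A} (h : 0 ≤ M) (i : Fin m) :
    0 ≤ M i i := by
  obtain ⟨g, hg⟩ := gram_of_mpos (ι := Fin m) (fun p q => M p q) h
  have h1 : M i i = ip (g i) (g i) := hg i i
  rw [h1]
  exact ip_self_nonneg _

theorem PTC.dg_of_matrix {m : ℕ} (hm : 2 ≤ m) (h : PTC (CStarMatrix (Fin m) (Fin m) A)) :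
    Dg A := by
  classical
  intro x b hxb
  have hb : 0 ≤ b := (star_mul_self_nonneg x).trans hxb
  set s := CFC.sqrt b with hs
  have hss : s * s = b := CFC.sqrt_mul_sqrt_self _ hb
  have hst : star s = s := sqrt_star _
  let i₀ : Fin m := ⟨0, by omega⟩
  let i₁ : Fin m := ⟨1, by omega⟩
  have hne : i₀ ≠ i₁ := fun h => by simpa [i₀, i₁] using congrArg Fin.val h
  have hg1 : star (E i₀ i₀ (1 : A)) = E i₀ i₀ 1 := by rw [E_star, star_one]
  have hg2 : E i₀ i₀ (1 : A) * E i₀ i₀ 1 = E i₀ i₀ 1 := by rw [E_mul, if_pos rfl, one_mul]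
  obtain ⟨v, hv1, hv⟩ := h.local_factor (E i₀ i₀ (1 : A)) (E i₀ i₁ x) (E i₀ i₁ s) hg1
    (by
      have h0 : 0 ≤ E i₀ i₀ (1 : A) := by
        have := star_mul_self_nonneg (E i₀ i₀ (1 : A))
        rwa [hg1, hg2] at this
      rw [CStarAlgebra.norm_le_one_iff_of_nonneg _ h0, ← sub_nonneg]
      have h1 : (1 : CStarMatrix (Fin m) (Fin m) A) - E i₀ i₀ 1
          = star (1 - E i₀ i₀ 1) * (1 - E i₀ i₀ (1 : A)) := by
        have h2 : star (1 - E i₀ i₀ (1 : A)) = 1 - E i₀ i₀ 1 := by
          rw [star_sub, star_one, hg1]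
        rw [h2, sub_mul, mul_sub, one_mul, mul_sub, mul_one, hg2]
        simp
      rw [h1]
      exact star_mul_self_nonneg _)
    (by rw [E_mul, if_pos rfl, one_mul]) (by rw [E_mul, if_pos rfl, one_mul])
    (by rw [E_mul, if_neg hne.symm]) (by rw [E_mul, if_neg hne.symm]) (by
      rw [E_star, E_star, E_mul, E_mul, if_pos rfl, if_pos rfl, hst, hss, ← sub_nonneg, E_sub]
      exact E_nonneg _ (sub_nonneg.2 hxb))
  refine ⟨v i₀ i₀, ?_, ?_⟩
  · have h1 := diag_nonneg (sub_nonneg.2 hv1) i₀
    rw [CStarMatrix.sub_apply, CStarMatrix.mul_apply, CStarMatrix.one_apply_eq] at h1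
    refine le_trans ?_ (sub_nonneg.1 h1)
    have h2 := Finset.single_le_sum (f := fun j => star v i₀ j * v j i₀) (s := univ)
      (fun j _ => by
        show 0 ≤ star v i₀ j * v j i₀
        rw [CStarMatrix.star_apply]
        exact star_mul_self_nonneg _) (mem_univ i₀)
    rw [CStarMatrix.star_apply] at h2
    exact h2
  · have h1 := congrFun (congrFun hv i₀) i₁
    rw [CStarMatrix.mul_apply, sum_eq_single i₀] at h1
    · simpa [E_apply] using h1
    · intro c _ hc
      simp [E_apply, hc]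
    · simp

/-- every chordal graph is in `G(A)` -/
def ChordalCompletion (A : Type*) [CStarAlgebra A] [PartialOrder A] [StarOrderedRing A] : Prop :=
  ∀ (n : ℕ) (Γ : SimpleGraph (Fin n)), Chordal Γ → InG A Γ

theorem chordalCompletion_iff : ChordalCompletion A ↔ Dg A := by
  constructor
  · intro h
    obtain ⟨Γ, h1, h2⟩ := path_chordal
    exact ((h 3 Γ h1).amalg3 h2).dg
  · intro h n Γ hΓ
    exact h.inG hΓ

theorem ptc_matrix_iff {m : ℕ} (hm : 2 ≤ m) :
    PTC (CStarMatrix (Fin m) (Fin m) A) ↔ Dg A :=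
  ⟨fun h => h.dg_of_matrix hm, fun h => (h.matrix ⟨0, by omega⟩).ptc⟩

end Pool.Agent.Q194.PSD
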