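import Mathlib
open scoped InnerProductSpace
open Filter Topology

namespace Pool.Agent.Q194.VNA
universe u
set_option linter.unusedSectionVars false
variable {H : Type u} [NormedAddCommGroup H] [InnerProductSpace ℂ H] [CompleteSpace H]

/-- matrix coefficients -/
noncomputable def phi (x : H →L[ℂ] H) : H × H → ℂ := fun p => ⟪p.2, x p.1⟫_ℂ

/-- unitaries of M -/
def UU (M : VonNeumannAlgebra H) : Set (H →L[ℂ] H) :=
  {u | u ∈ M ∧ star u * u = 1 ∧ u * star u = 1}

/-- elements whose matrix coefficients are limits of those of unitaries -/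
def CC (M : VonNeumannAlgebra H) : Set (H →L[ℂ] H) :=
  {x | phi x ∈ closure (phi '' UU M)}

lemma smul_mem' (M : VonNeumannAlgebra H) (c : ℂ) {x : H →L[ℂ] H} (hx : x ∈ M) : c • x ∈ M :=
  M.toStarSubalgebra.smul_mem hx c

lemma mem_iff_comm (M : VonNeumannAlgebra H) (x : H →L[ℂ] H) :
    x ∈ M ↔ ∀ y ∈ M.commutant, y * x = x * y := by
  conv_lhs => rw [← VonNeumannAlgebra.commutant_commutant M]
  rw [VonNeumannAlgebra.mem_commutant_iff]

lemma phi_inj {x y : H →L[ℂ] H} (h : phi x = phi y) : x = y := by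
  ext ξ
  apply ext_inner_left ℂ
  intro η
  exact congrFun h (ξ, η)

lemma phi_cont : Continuous (phi : (H →L[ℂ] H) → H × H → ℂ) := by
  unfold phi
  fun_prop

lemma CC_closed (M : VonNeumannAlgebra H) : IsClosed (CC M) :=
  isClosed_closure.preimage phi_cont

lemma UU_mul {M : VonNeumannAlgebra H} {u v : H →L[ℂ] H} (hu : u ∈ UU M) (hv : v ∈ UU M) :
    u * v ∈ UU M := by
  obtain ⟨h1, h2, h3⟩ := hu
  obtain ⟨k1, k2, k3⟩ := hv
  refine ⟨mul_mem h1 k1, ?_, ?_⟩
  · rw [star_mul, mul_assoc, ← mul_assoc (star u), h2, one_mul, k2]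
  · rw [star_mul, mul_assoc, ← mul_assoc v, k3, one_mul, h3]

lemma UU_star {M : VonNeumannAlgebra H} {u : H →L[ℂ] H} (hu : u ∈ UU M) : star u ∈ UU M := by
  obtain ⟨h1, h2, h3⟩ := hu
  exact ⟨star_mem h1, by rw [star_star, h3], by rw [star_star, h2]⟩

lemma UU_one (M : VonNeumannAlgebra H) : (1 : H →L[ℂ] H) ∈ UU M :=
  ⟨one_mem _, by simp, by simp⟩

lemma UU_sub_CC {M : VonNeumannAlgebra H} {u : H →L[ℂ] H} (hu : u ∈ UU M) : u ∈ CC M :=
  subset_closure ⟨u, hu, rfl⟩

lemma CC_map {M : VonNeumannAlgebra H} (T : (H →L[ℂ] H) → (H →L[ℂ] H))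
    (Φ : (H × H → ℂ) → (H × H → ℂ)) (hΦ : Continuous Φ) (hT : ∀ x, phi (T x) = Φ (phi x))
    (hU : ∀ u ∈ UU M, T u ∈ CC M) {x : H →L[ℂ] H} (hx : x ∈ CC M) : T x ∈ CC M := by
  have := map_mem_closure (t := closure (phi '' UU M)) hΦ hx (by
    rintro f ⟨u, hu, rfl⟩
    rw [← hT]
    exact hU u hu)
  rw [closure_closure] at this
  change phi (T x) ∈ closure (phi '' UU M)
  rw [hT]
  exact this

lemma CC_mul {M : VonNeumannAlgebra H} {x y : H →L[ℂ] H} (hx : x ∈ CC M) (hy : y ∈ CC M) :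
    x * y ∈ CC M := by
  have h1 : ∀ u ∈ UU M, u * y ∈ CC M := by
    intro u hu
    refine CC_map (fun y => u * y) (fun f p => f (p.1, (star u) p.2)) (by fun_prop) ?_ ?_ hy
    · intro y; funext p
      simp only [phi]
      rw [ContinuousLinearMap.star_eq_adjoint, ContinuousLinearMap.adjoint_inner_left]
      rfl
    · intro v hv
      exact UU_sub_CC (UU_mul hu hv)
  refine CC_map (fun x => x * y) (fun f p => f (y p.1, p.2)) (by fun_prop) ?_ h1 hx
  intro y; funext p
  simp [phi]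

lemma CC_mid {M : VonNeumannAlgebra H} (hmid : ∀ v ∈ UU M, (2⁻¹ : ℂ) • (1 + v) ∈ CC M)
    {u v : H →L[ℂ] H} (hu : u ∈ UU M) (hv : v ∈ UU M) : (2⁻¹ : ℂ) • (u + v) ∈ CC M := by
  have h := CC_mul (UU_sub_CC hu) (hmid (star u * v) (UU_mul (UU_star hu) hv))
  have e : u * ((2⁻¹ : ℂ) • (1 + star u * v)) = (2⁻¹ : ℂ) • (u + v) := by
    rw [mul_smul_comm, mul_add, mul_one, ← mul_assoc, hu.2.2, one_mul]
  rwa [e] at h

lemma comm_sqrt (M : VonNeumannAlgebra H) {b : H →L[ℂ] H} (hb : b ∈ M) :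
    CFC.sqrt b ∈ M := by
  rw [mem_iff_comm]
  intro y hy
  have h1 : Commute b y := ((mem_iff_comm M b).1 hb y hy).symm
  have h2 : Commute (CFC.sqrt b) y := by
    rw [CFC.sqrt_eq_cfc]
    exact Commute.cfc_nnreal h1 _
  exact h2.symm

/-- half of `1 + y` with `‖y‖ < 1` -/
lemma CC_half {M : VonNeumannAlgebra H} (hmid : ∀ v ∈ UU M, (2⁻¹ : ℂ) • (1 + v) ∈ CC M)
    {y : H →L[ℂ] H} (hy : y ∈ M) (hy1 : ‖y‖ < 1) : (2⁻¹ : ℂ) • (1 + y) ∈ CC M := by
  rcases subsingleton_or_nontrivial H with hs | hn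
  · have : (2⁻¹ : ℂ) • (1 + y) = 1 := Subsingleton.elim _ _
    rw [this]; exact UU_sub_CC (UU_one M)
  set x : H →L[ℂ] H := (2⁻¹ : ℂ) • (1 + y) with hx
  have hxM : x ∈ M := smul_mem' M _ (add_mem (one_mem _) hy)
  have hxu : IsUnit x := by
    have h1 : IsUnit (1 + y) := by
      have := isUnit_one_sub_of_norm_lt_one (x := -y) (by simpa using hy1)
      simpa using this
    rw [hx, Algebra.smul_def]
    exact ((IsUnit.mk0 (2⁻¹ : ℂ) (by norm_num)).map (algebraMap ℂ (H →L[ℂ] H))).mul h1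
  have hxn : ‖x‖ ≤ 1 := by
    rw [hx, norm_smul]
    have : ‖(1 : H →L[ℂ] H) + y‖ ≤ 2 := by
      calc _ ≤ ‖(1 : H →L[ℂ] H)‖ + ‖y‖ := norm_add_le _ _
        _ ≤ 1 + 1 := by
          gcongr
          · exact ContinuousLinearMap.norm_id_le
        _ = 2 := by norm_num
    have h2 : ‖(2⁻¹ : ℂ)‖ = 2⁻¹ := by norm_num
    rw [h2]; linarith
  set b : H →L[ℂ] H := CFC.sqrt (star x * x) with hb
  have hb0 : 0 ≤ b := CFC.sqrt_nonneg _
  have hbb : b * b = star x * x := CFC.sqrt_mul_sqrt_self _ (star_mul_self_nonneg x)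
  have hbs : star b = b := (IsSelfAdjoint.of_nonneg hb0).star_eq
  have hbM : b ∈ M := comm_sqrt M (mul_mem (star_mem hxM) hxM)
  have hbbu : IsUnit (b * b) := by
    rw [hbb]; exact hxu.star.mul hxu
  have hbu : IsUnit b := by
    have := (Commute.refl b).isUnit_mul_iff.1 hbbu
    exact this.1
  obtain ⟨b', hb'⟩ := hbu
  set c : H →L[ℂ] H := ((b'⁻¹ : (H →L[ℂ] H)ˣ) : H →L[ℂ] H) with hc
  have hbc : b * c = 1 := by rw [← hb', hc]; exact b'.mul_inv
  have hcb : c * b = 1 := by rw [← hb', hc]; exact b'.inv_mul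
  have hcM : c ∈ M := by
    rw [mem_iff_comm]
    intro z hz
    have h1 : z * b = b * z := (mem_iff_comm M b).1 hbM z hz
    calc z * c = (c * b) * z * c := by rw [hcb, one_mul]
      _ = c * (b * z) * c := by rw [mul_assoc c b z]
      _ = c * (z * b) * c := by rw [h1]
      _ = c * z * (b * c) := by simp only [mul_assoc]
      _ = c * z := by rw [hbc, mul_one]
  have hcs : star c = c := by
    have h1 : star c * b = 1 := by
      have := congrArg star hbc
      rwa [star_mul, star_one, hbs] at this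
    calc star c = star c * (b * c) := by rw [hbc, mul_one]
      _ = c := by rw [← mul_assoc, h1, one_mul]
  have hbn : ‖b‖ ≤ 1 := by
    have h1 : ‖b‖ * ‖b‖ = ‖x‖ * ‖x‖ := by
      rw [← CStarRing.norm_star_mul_self (x := b), ← CStarRing.norm_star_mul_self (x := x), hbs, hbb]
    nlinarith [norm_nonneg b, norm_nonneg x]
  have hw : x * c ∈ UU M := by
    refine ⟨mul_mem hxM hcM, ?_, ?_⟩
    · rw [star_mul, hcs, mul_assoc, ← mul_assoc (star x), ← hbb]
      rw [mul_assoc b b c, hbc, mul_one, hcb]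
    · have h1 : star (x * c) * (x * c) = 1 := by
        rw [star_mul, hcs, mul_assoc, ← mul_assoc (star x), ← hbb]
        rw [mul_assoc b b c, hbc, mul_one, hcb]
      have hu : IsUnit (x * c) := hxu.mul (by rw [hc]; exact b'⁻¹.isUnit)
      obtain ⟨t, ht⟩ := hu
      rw [← ht] at h1 ⊢
      have h2 : star (t : H →L[ℂ] H) = ((t⁻¹ : (H →L[ℂ] H)ˣ) : H →L[ℂ] H) := by
        calc star (t : H →L[ℂ] H) = star (t : H →L[ℂ] H) * (t * ((t⁻¹ : (H →L[ℂ] H)ˣ) : H →L[ℂ] H)) := by
              rw [t.mul_inv, mul_one]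
          _ = _ := by rw [← mul_assoc, h1, one_mul]
      rw [h2, t.mul_inv]
  set s : H →L[ℂ] H := b + Complex.I • CFC.sqrt (1 - b ^ 2) with hs
  have hb21 : 0 ≤ 1 - b ^ 2 := by
    rw [sub_nonneg, ← CStarAlgebra.norm_le_one_iff_of_nonneg (b ^ 2) (by rw [sq, hbb]; exact star_mul_self_nonneg x)]
    calc ‖b ^ 2‖ ≤ ‖b‖ ^ 2 := norm_pow_le' b (by norm_num)
      _ ≤ 1 := by nlinarith [norm_nonneg b]
  have hsU0 : s ∈ unitary (H →L[ℂ] H) :=
    IsSelfAdjoint.self_add_I_smul_cfcSqrt_sub_sq_mem_unitary b hbs hbn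
  have hsU : s ∈ UU M := by
    refine ⟨add_mem hbM (smul_mem' M _ (comm_sqrt M ?_)), ?_, ?_⟩
    · exact sub_mem (one_mem _) (pow_mem hbM 2)
    · exact (Unitary.mem_iff.1 hsU0).1
    · exact (Unitary.mem_iff.1 hsU0).2
  have hss : (2⁻¹ : ℂ) • (s + star s) = b := by
    have h1 : star (CFC.sqrt (1 - b ^ 2)) = CFC.sqrt (1 - b ^ 2) :=
      (IsSelfAdjoint.of_nonneg (CFC.sqrt_nonneg _)).star_eq
    rw [hs, star_add, star_smul, h1, hbs]
    simp only [Complex.star_def, Complex.conj_I]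
    module
  have hfin := CC_mid hmid (UU_mul hw hsU) (UU_mul hw (UU_star hsU))
  have e : (2⁻¹ : ℂ) • (x * c * s + x * c * star s) = x := by
    rw [← mul_add, ← mul_smul_comm, hss, mul_assoc, hcb, mul_one]
  rwa [e] at hfin

lemma CC_ball {M : VonNeumannAlgebra H} (hmid : ∀ v ∈ UU M, (2⁻¹ : ℂ) • (1 + v) ∈ CC M)
    {x : H →L[ℂ] H} (hx : x ∈ M) (hx1 : ‖x‖ ≤ 1) : x ∈ CC M := by
  have key : ∀ y ∈ M, ‖y‖ < 1 → y ∈ CC M := by
    intro y hy hy1
    have hu : ∀ u ∈ UU M, (2⁻¹ : ℂ) • (u + y) ∈ CC M := by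
      intro u hu
      rcases subsingleton_or_nontrivial H with hs | hn
      · have : (2⁻¹ : ℂ) • (u + y) = 1 := Subsingleton.elim _ _
        rw [this]; exact UU_sub_CC (UU_one M)
      have h1 : ‖star u * y‖ < 1 := by
        have h2 : ‖star u‖ * ‖star u‖ ≤ 1 := by
          rw [← CStarRing.norm_star_mul_self (x := star u), star_star, hu.2.2]
          exact ContinuousLinearMap.norm_id_le
        have h3 : ‖star u‖ ≤ 1 := by nlinarith [norm_nonneg (star u)]
        calc ‖star u * y‖ ≤ ‖star u‖ * ‖y‖ := norm_mul_le _ _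
          _ ≤ 1 * ‖y‖ := by gcongr
          _ < 1 := by linarith
      have h := CC_mul (UU_sub_CC hu) (CC_half hmid (mul_mem (star_mem hu.1) hy) h1)
      have e : u * ((2⁻¹ : ℂ) • (1 + star u * y)) = (2⁻¹ : ℂ) • (u + y) := by
        rw [mul_smul_comm, mul_add, mul_one, ← mul_assoc, hu.2.2, one_mul]
      rwa [e] at h
    have hc : ∀ c ∈ CC M, (2⁻¹ : ℂ) • (c + y) ∈ CC M := by
      intro c hc
      refine CC_map (fun c => (2⁻¹ : ℂ) • (c + y)) (fun f p => (2⁻¹ : ℂ) * (f p + phi y p))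
        (by fun_prop) ?_ hu hc
      intro c; funext p
      simp [phi]
      ring
    have hn : ∀ n : ℕ, y + ((2⁻¹ : ℂ) ^ n) • (1 - y) ∈ CC M := by
      intro n
      induction n with
      | zero => simpa using UU_sub_CC (UU_one M)
      | succ n ih =>
        have := hc _ ih
        have e : (2⁻¹ : ℂ) • (y + ((2⁻¹ : ℂ) ^ n) • (1 - y) + y) = y + ((2⁻¹ : ℂ) ^ (n + 1)) • (1 - y) := by
          rw [pow_succ]
          module
        rwa [e] at this
    have hlim : Tendsto (fun n : ℕ => y + ((2⁻¹ : ℂ) ^ n) • (1 - y)) atTop (𝓝 (y + (0 : ℂ) • (1 - y))) := by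
      refine tendsto_const_nhds.add (Tendsto.smul_const ?_ _)
      exact tendsto_pow_atTop_nhds_zero_of_norm_lt_one (by norm_num)
    simp only [zero_smul, add_zero] at hlim
    exact (CC_closed M).mem_of_tendsto hlim (Eventually.of_forall hn)
  have hlim : Tendsto (fun n : ℕ => ((1 : ℂ) - 1 / ((n : ℂ) + 1)) • x) atTop (𝓝 (((1 : ℂ) - 0) • x)) := by
    refine Tendsto.smul_const (tendsto_const_nhds.sub ?_) _
    exact tendsto_one_div_add_atTop_nhds_zero_nat
  simp only [sub_zero, one_smul] at hlim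
  refine (CC_closed M).mem_of_tendsto hlim (Eventually.of_forall fun n => key _ (smul_mem' M _ hx) ?_)
  rw [norm_smul]
  have h1 : ‖(1 : ℂ) - 1 / ((n : ℂ) + 1)‖ < 1 := by
    have e : (1 : ℂ) - 1 / ((n : ℂ) + 1) = (((1 : ℝ) - 1 / ((n : ℝ) + 1) : ℝ) : ℂ) := by push_cast; rfl
    rw [e, Complex.norm_real, Real.norm_eq_abs, abs_of_nonneg]
    · have : 0 < 1 / ((n : ℝ) + 1) := by positivity
      linarith
    · rw [sub_nonneg, div_le_one (by positivity)]
      have : (0 : ℝ) ≤ n := by positivity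
      linarith
  calc _ ≤ ‖(1 : ℂ) - 1 / ((n : ℂ) + 1)‖ * 1 := by gcongr
    _ < 1 := by linarith


lemma mem_closure_crit {s : Set (H × H → ℂ)} {f : H × H → ℂ}
    (h : ∀ (S : Finset H) (ε : ℝ), 0 < ε → ∃ g ∈ s, ∀ ξ ∈ S, ∀ η ∈ S, ‖g (ξ, η) - f (ξ, η)‖ < ε) :
    f ∈ closure s := by
  classical
  rw [mem_closure_iff]
  intro o ho hf
  obtain ⟨I, u, hu, hsub⟩ := isOpen_pi_iff.1 ho f hf
  have h1 : ∀ a ∈ I, ∀ᶠ ε : ℝ in 𝓝[>] 0, Metric.ball (f a) ε ⊆ u a := by
    intro a ha
    obtain ⟨ε, hε, hb⟩ := Metric.isOpen_iff.1 (hu a ha).1 (f a) (hu a ha).2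
    filter_upwards [Ioc_mem_nhdsGT hε] with δ hδ
    exact (Metric.ball_subset_ball hδ.2).trans hb
  have h2 := (Filter.eventually_all_finset I).2 h1
  obtain ⟨ε, hε, hε0⟩ := (h2.and self_mem_nhdsWithin).exists
  obtain ⟨g, hg, hgs⟩ := h (I.image Prod.fst ∪ I.image Prod.snd) ε hε0
  refine ⟨g, hsub ?_, hg⟩
  intro a ha
  apply hε a ha
  rw [Metric.mem_ball, dist_eq_norm]
  refine hgs a.1 ?_ a.2 ?_
  · exact Finset.mem_union_left _ (Finset.mem_image_of_mem _ ha)
  · exact Finset.mem_union_right _ (Finset.mem_image_of_mem _ ha)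

/-- no nonzero finite-dimensional direct summand -/
def NoFin (M : VonNeumannAlgebra H) : Prop :=
  ∀ z ∈ M, IsStarProjection z → (∀ x ∈ M, z * x = x * z) →
    (∃ F : Submodule ℂ (H →L[ℂ] H), FiniteDimensional ℂ F ∧ ∀ x ∈ M, z * x ∈ F) → z = 0

lemma star_mul_self_zero {x : H →L[ℂ] H} (h : star x * x = 0) : x = 0 := by
  have := CStarRing.norm_star_mul_self (x := x)
  rw [h, norm_zero] at this
  exact norm_eq_zero.1 (mul_self_eq_zero.1 this.symm)

section minproj
variable {M : VonNeumannAlgebra H} {g : H →L[ℂ] H}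

lemma scal_pos (hgs : star g = g) (hgg : g * g = g) (hg0 : g ≠ 0) {y : H →L[ℂ] H}
    (hy0 : y ≠ 0) {l : ℂ} (hl : star y * y = l • g) : ∃ r : ℝ, 0 < r ∧ l = (r : ℂ) := by
  obtain ⟨ξ, hξ⟩ : ∃ ξ, g ξ ≠ 0 := by
    by_contra hcon
    push Not at hcon
    exact hg0 (by ext ξ; simpa using hcon ξ)
  have h1 : ⟪g ξ, (star y * y) (g ξ)⟫_ℂ = l * ⟪g ξ, g ξ⟫_ℂ := by
    rw [hl]
    have : g (g ξ) = g ξ := by
      conv_rhs => rw [← hgg]
      rfl
    simp [inner_smul_right, this]
  have h2 : ⟪g ξ, (star y * y) (g ξ)⟫_ℂ = ⟪y (g ξ), y (g ξ)⟫_ℂ := by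
    rw [ContinuousLinearMap.star_eq_adjoint]
    change ⟪g ξ, (ContinuousLinearMap.adjoint y) (y (g ξ))⟫_ℂ = _
    rw [ContinuousLinearMap.adjoint_inner_right]
  rw [h2, inner_self_eq_norm_sq_to_K, inner_self_eq_norm_sq_to_K] at h1
  have hn : (0 : ℝ) < ‖g ξ‖ ^ 2 := by positivity
  have hl' : l = ((‖y (g ξ)‖ ^ 2 / ‖g ξ‖ ^ 2 : ℝ) : ℂ) := by
    push_cast
    rw [eq_div_iff (by exact_mod_cast hn.ne')]
    exact h1.symm
  refine ⟨‖y (g ξ)‖ ^ 2 / ‖g ξ‖ ^ 2, ?_, hl'⟩
  rcases (by positivity : (0 : ℝ) ≤ ‖y (g ξ)‖ ^ 2 / ‖g ξ‖ ^ 2).eq_or_lt with h0 | h0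
  · exfalso
    rw [← h0] at hl'
    apply hy0
    apply star_mul_self_zero
    rw [hl, hl']
    simp
  · exact h0

lemma family (hM : NoFin M) (hgM : g ∈ M) (hgs : star g = g) (hgg : g * g = g) (hg0 : g ≠ 0)
    (hmin : ∀ x ∈ M, ∃ l : ℂ, g * x * g = l • g) (n : ℕ) :
    ∃ w : ℕ → (H →L[ℂ] H), w 0 = g ∧ (∀ k ≤ n, w k ∈ M) ∧ (∀ k ≤ n, w k * g = w k) ∧
      ∀ k ≤ n, ∀ l ≤ n, star (w k) * w l = if k = l then g else 0 := by
  classical
  induction n with
  | zero =>
    refine ⟨fun _ => g, rfl, fun _ _ => hgM, fun _ _ => hgg, ?_⟩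
    intro k hk l hl
    have : k = l := by omega
    simp [this, hgs, hgg]
  | succ n ih =>
    obtain ⟨w, hw0, hwM, hwg, hww⟩ := ih
    set z : H →L[ℂ] H := ∑ k ∈ Finset.range (n + 1), w k * star (w k) with hz
    have hzM : z ∈ M := by
      rw [hz]
      refine sum_mem fun k hk => ?_
      have hk' : k ≤ n := by simpa [Nat.lt_succ_iff] using hk
      exact mul_mem (hwM k hk') (star_mem (hwM k hk'))
    have hzs : star z = z := by
      rw [hz, star_sum]
      refine Finset.sum_congr rfl fun k _ => ?_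
      rw [star_mul, star_star]
    have hgw : ∀ k ≤ n, g * star (w k) = star (w k) := by
      intro k hk
      have := congrArg star (hwg k hk)
      rwa [star_mul, hgs] at this
    have hwz : ∀ k ≤ n, star (w k) * z = star (w k) := by
      intro k hk
      rw [hz, Finset.mul_sum, Finset.sum_eq_single k]
      · rw [← mul_assoc, hww k hk k hk, if_pos rfl, hgw k hk]
      · intro l hl hlk
        have hl' : l ≤ n := by simpa [Nat.lt_succ_iff] using hl
        rw [← mul_assoc, hww k hk l hl', if_neg (Ne.symm hlk), zero_mul]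
      · intro hk'; exact absurd (Finset.mem_range.2 (by omega)) hk'
    have hzw : ∀ k ≤ n, z * w k = w k := by
      intro k hk
      have := congrArg star (hwz k hk)
      rwa [star_mul, hzs, star_star] at this
    have hzz : z * z = z := by
      conv_lhs => rw [hz, Finset.sum_mul]
      rw [hz]
      refine Finset.sum_congr rfl fun k hk => ?_
      have hk' : k ≤ n := by simpa [Nat.lt_succ_iff] using hk
      rw [mul_assoc, ← hz, hwz k hk']
    by_cases hcase : ∃ x ∈ M, (1 - z) * x * g ≠ 0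
    · obtain ⟨x, hx, hx0⟩ := hcase
      set y : H →L[ℂ] H := (1 - z) * x * g with hy
      have hyM : y ∈ M := mul_mem (mul_mem (sub_mem (one_mem _) hzM) hx) hgM
      have hyg : y * g = y := by rw [hy, mul_assoc, hgg]
      have hwy : ∀ k ≤ n, star (w k) * y = 0 := by
        intro k hk
        rw [hy, ← mul_assoc, ← mul_assoc, mul_sub, mul_one, hwz k hk, sub_self, zero_mul, zero_mul]
      obtain ⟨l, hl⟩ := hmin (star y * y) (mul_mem (star_mem hyM) hyM)
      have hgy : g * star y = star y := by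
        have := congrArg star hyg
        rwa [star_mul, hgs] at this
      have hyy : star y * y = l • g := by
        calc star y * y = (g * star y) * (y * g) := by rw [hgy, hyg]
          _ = g * (star y * y) * g := by simp only [mul_assoc]
          _ = l • g := hl
      obtain ⟨r, hr, hlr⟩ := scal_pos hgs hgg hg0 hx0 hyy
      set t : ℂ := (((Real.sqrt r)⁻¹ : ℝ) : ℂ) with ht
      have ht2 : t * l * t = 1 := by
        rw [ht, hlr]
        rw [← Complex.ofReal_mul, ← Complex.ofReal_mul]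
        norm_cast
        have := Real.mul_self_sqrt hr.le
        have h3 : Real.sqrt r ≠ 0 := (Real.sqrt_pos.2 hr).ne'
        field_simp
        nlinarith
      have hts : star t = t := by rw [ht]; exact Complex.conj_ofReal _
      refine ⟨Function.update w (n + 1) (t • y), ?_, ?_, ?_, ?_⟩
      · rw [Function.update_of_ne (by omega), hw0]
      · intro k hk
        rcases Nat.lt_or_ge n k with h | h
        · have : k = n + 1 := by omega
          subst this
          rw [Function.update_self]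
          exact smul_mem' M _ hyM
        · rw [Function.update_of_ne (by omega)]
          exact hwM k h
      · intro k hk
        rcases Nat.lt_or_ge n k with h | h
        · have : k = n + 1 := by omega
          subst this
          rw [Function.update_self, smul_mul_assoc, hyg]
        · rw [Function.update_of_ne (by omega)]
          exact hwg k h
      · intro k hk m hm
        rcases Nat.lt_or_ge n k with h | h <;> rcases Nat.lt_or_ge n m with h' | h'
        · have h1 : k = n + 1 := by omega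
          have h2 : m = n + 1 := by omega
          subst h1; subst h2
          rw [Function.update_self, if_pos rfl, star_smul, hts, smul_mul_assoc, mul_smul_comm, hyy,
            smul_smul, smul_smul, mul_right_comm, ht2, one_smul]
        · have h1 : k = n + 1 := by omega
          subst h1
          rw [Function.update_self, Function.update_of_ne (by omega), if_neg (by omega), star_smul,
            smul_mul_assoc]
          have := congrArg star (hwy m h')
          rw [star_mul, star_star, star_zero] at this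
          rw [this, smul_zero]
        · have h1 : m = n + 1 := by omega
          subst h1
          rw [Function.update_self, Function.update_of_ne (by omega), if_neg (by omega),
            mul_smul_comm, hwy k h, smul_zero]
        · rw [Function.update_of_ne (by omega), Function.update_of_ne (by omega)]
          exact hww k h m h'
    · exfalso
      push Not at hcase
      have hxz : ∀ x ∈ M, x * z = z * x * z := by
        intro x hx
        have : (1 - z) * (x * z) = 0 := by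
          rw [hz, Finset.mul_sum, Finset.mul_sum]
          refine Finset.sum_eq_zero fun k hk => ?_
          have hk' : k ≤ n := by simpa [Nat.lt_succ_iff] using hk
          have h1 := hcase (x * w k) (mul_mem hx (hwM k hk'))
          rw [← hz]
          calc (1 - z) * (x * (w k * star (w k))) = ((1 - z) * (x * w k) * g) * star (w k) := by
                simp only [mul_assoc]
                rw [hgw k hk']
            _ = 0 := by rw [h1, zero_mul]
        rw [sub_mul, one_mul, sub_eq_zero] at this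
        rw [this, mul_assoc]
      have hcomm : ∀ x ∈ M, z * x = x * z := by
        intro x hx
        have h1 := hxz x hx
        have h2 := congrArg star (hxz (star x) (star_mem hx))
        rw [star_mul, star_mul, star_mul, star_star, hzs] at h2
        rw [h2, ← mul_assoc, ← h1]
      have hz0 : z = 0 := by
        refine hM z hzM ⟨hzz, hzs⟩ hcomm ⟨Submodule.span ℂ
          (((Finset.range (n + 1) ×ˢ Finset.range (n + 1)).image
            (fun p : ℕ × ℕ => w p.1 * star (w p.2)) : Finset (H →L[ℂ] H)) : Set (H →L[ℂ] H)),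
          FiniteDimensional.span_finset ℂ _, ?_⟩
        intro x hx
        have h1 : z * x = z * x * z := by rw [← hxz x hx, hcomm x hx]
        rw [h1, hz, Finset.sum_mul, Finset.sum_mul]
        refine Submodule.sum_mem _ fun k hk => ?_
        rw [Finset.mul_sum]
        refine Submodule.sum_mem _ fun m hm => ?_
        have hk' : k ≤ n := by simpa [Nat.lt_succ_iff] using hk
        have hm' : m ≤ n := by simpa [Nat.lt_succ_iff] using hm
        obtain ⟨l, hl⟩ := hmin (star (w k) * x * w m)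
          (mul_mem (mul_mem (star_mem (hwM k hk')) hx) (hwM m hm'))
        have e : w k * star (w k) * x * (w m * star (w m)) = l • (w k * star (w m)) := by
          calc w k * star (w k) * x * (w m * star (w m))
              = (w k * g) * (star (w k) * x * w m) * (g * star (w m)) := by
                rw [hwg k hk', hgw m hm']; simp only [mul_assoc]
            _ = w k * (g * (star (w k) * x * w m) * g) * star (w m) := by simp only [mul_assoc]
            _ = l • (w k * star (w m)) := by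
              rw [hl, mul_smul_comm, smul_mul_assoc, hwg k hk']
        rw [e]
        refine Submodule.smul_mem _ _ (Submodule.subset_span ?_)
        rw [Finset.mem_coe]
        exact Finset.mem_image.2 ⟨(k, m), Finset.mem_product.2 ⟨hk, hm⟩, rfl⟩
      have h3 := hzw 0 (Nat.zero_le _)
      rw [hw0, hz0, zero_mul] at h3
      exact hg0 h3.symm

lemma minproj_mem (hM : NoFin M) (hgM : g ∈ M) (hgs : star g = g) (hgg : g * g = g) (hg0 : g ≠ 0)
    (hmin : ∀ x ∈ M, ∃ l : ℂ, g * x * g = l • g) (d : ℂ) (hd : ‖d‖ ≤ 1) :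
    1 - g + d • g ∈ CC M := by
  classical
  apply mem_closure_crit
  intro S ε hε
  -- choose n large
  set T : ℝ := ∑ ξ ∈ S, ‖ξ‖ ^ 2 with hT
  set R : ℝ := ∑ ξ ∈ S, ‖ξ‖ with hR
  have hR0 : 0 ≤ R := Finset.sum_nonneg fun _ _ => norm_nonneg _
  have hT0 : 0 ≤ T := Finset.sum_nonneg fun _ _ => by positivity
  -- target smallness
  set δ : ℝ := min 1 (ε / (4 * (R + 1))) with hδ
  have hδ0 : 0 < δ := by rw [hδ]; positivity
  obtain ⟨n, hn⟩ := exists_nat_gt (T / δ ^ 2)
  obtain ⟨w, hw0, hwM, hwg, hww⟩ := family hM hgM hgs hgg hg0 hmin (n + 1)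
  -- Bessel
  have hB : ∀ ξ : H, ∑ k ∈ Finset.range (n + 2), ‖(star (w k)) ξ‖ ^ 2 ≤ ‖ξ‖ ^ 2 := by
    intro ξ
    set z : H →L[ℂ] H := ∑ k ∈ Finset.range (n + 2), w k * star (w k) with hz
    have hzs : star z = z := by
      rw [hz, star_sum]
      refine Finset.sum_congr rfl fun k _ => ?_
      rw [star_mul, star_star]
    have hgw : ∀ k ≤ n + 1, g * star (w k) = star (w k) := by
      intro k hk
      have := congrArg star (hwg k hk)
      rwa [star_mul, hgs] at this
    have hwz : ∀ k ≤ n + 1, star (w k) * z = star (w k) := by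
      intro k hk
      rw [hz, Finset.mul_sum, Finset.sum_eq_single k]
      · rw [← mul_assoc, hww k hk k hk, if_pos rfl, hgw k hk]
      · intro l hl hlk
        have hl' : l ≤ n + 1 := by have := Finset.mem_range.1 hl; omega
        rw [← mul_assoc, hww k hk l hl', if_neg (Ne.symm hlk), zero_mul]
      · intro hk'; exact absurd (Finset.mem_range.2 (by omega)) hk'
    have hzz : z * z = z := by
      conv_lhs => rw [hz, Finset.sum_mul]
      rw [hz]
      refine Finset.sum_congr rfl fun k hk => ?_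
      have hk' : k ≤ n + 1 := by have := Finset.mem_range.1 hk; omega
      rw [mul_assoc, ← hz, hwz k hk']
    have h1 : ∑ k ∈ Finset.range (n + 2), ‖(star (w k)) ξ‖ ^ 2 = ‖z ξ‖ ^ 2 := by
      have h2 : (⟪ξ, z ξ⟫_ℂ).re = ‖z ξ‖ ^ 2 := by
        have : z ξ = z (z ξ) := (congrArg (fun T : H →L[ℂ] H => T ξ) hzz).symm
        rw [this, ← ContinuousLinearMap.adjoint_inner_left, ← ContinuousLinearMap.star_eq_adjoint,
          hzs, inner_self_eq_norm_sq_to_K, ← this]
        norm_cast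
      rw [← h2, hz]
      simp only [sum_apply, inner_sum, Complex.re_sum]
      refine Finset.sum_congr rfl fun k _ => ?_
      change _ = (⟪ξ, w k ((star (w k)) ξ)⟫_ℂ).re
      rw [← ContinuousLinearMap.adjoint_inner_left, ← ContinuousLinearMap.star_eq_adjoint,
        inner_self_eq_norm_sq_to_K]
      norm_cast
    rw [h1]
    have h3 : ‖z ξ‖ ^ 2 ≤ ‖ξ‖ * ‖z ξ‖ := by
      have : z ξ = z (z ξ) := (congrArg (fun T : H →L[ℂ] H => T ξ) hzz).symm
      have h2 : (⟪ξ, z ξ⟫_ℂ).re = ‖z ξ‖ ^ 2 := by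
        rw [this, ← ContinuousLinearMap.adjoint_inner_left, ← ContinuousLinearMap.star_eq_adjoint,
          hzs, inner_self_eq_norm_sq_to_K, ← this]
        norm_cast
      rw [← h2]
      exact (Complex.re_le_norm _).trans (norm_inner_le_norm _ _)
    nlinarith [norm_nonneg ξ, norm_nonneg (z ξ), sq_nonneg (‖ξ‖ - ‖z ξ‖)]
  -- pick k
  obtain ⟨k, hk1, hk2, hk⟩ : ∃ k, 1 ≤ k ∧ k ≤ n + 1 ∧ ∀ ξ ∈ S, ‖(star (w k)) ξ‖ < δ := by
    by_contra hcon
    push Not at hcon
    have h1 : ∀ k ∈ Finset.Icc 1 (n + 1), δ ^ 2 ≤ ∑ ξ ∈ S, ‖(star (w k)) ξ‖ ^ 2 := by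
      intro k hk
      rw [Finset.mem_Icc] at hk
      obtain ⟨ξ, hξ, hξ2⟩ := hcon k hk.1 hk.2
      calc δ ^ 2 ≤ ‖(star (w k)) ξ‖ ^ 2 := by gcongr
        _ ≤ _ := Finset.single_le_sum (f := fun ξ => ‖(star (w k)) ξ‖ ^ 2)
          (fun _ _ => by positivity) hξ
    have h2 : ((n : ℝ) + 1) * δ ^ 2 ≤ T := by
      calc ((n : ℝ) + 1) * δ ^ 2 = ∑ k ∈ Finset.Icc 1 (n + 1), δ ^ 2 := by simp
        _ ≤ ∑ k ∈ Finset.Icc 1 (n + 1), ∑ ξ ∈ S, ‖(star (w k)) ξ‖ ^ 2 := Finset.sum_le_sum h1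
        _ ≤ ∑ k ∈ Finset.range (n + 2), ∑ ξ ∈ S, ‖(star (w k)) ξ‖ ^ 2 := by
          refine Finset.sum_le_sum_of_subset_of_nonneg ?_ ?_
          · intro k hk
            rw [Finset.mem_Icc] at hk
            rw [Finset.mem_range]; omega
          · intro _ _ _
            positivity
        _ = ∑ ξ ∈ S, ∑ k ∈ Finset.range (n + 2), ‖(star (w k)) ξ‖ ^ 2 := Finset.sum_comm
        _ ≤ T := Finset.sum_le_sum fun ξ _ => hB ξ
    have h3 : T / δ ^ 2 < n + 1 := hn.trans (by linarith)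
    rw [div_lt_iff₀ (by positivity)] at h3
    linarith
  -- the rotation
  set v := w k with hv
  have hvM : v ∈ M := hwM k hk2
  have r1 : star v * v = g := by rw [hv, hww k hk2 k hk2, if_pos rfl]
  have r2 : v * g = v := hwg k hk2
  have r3 : g * star v = star v := by
    have := congrArg star r2
    rwa [star_mul, hgs] at this
  have r4 : g * v = 0 := by
    have := hww 0 (Nat.zero_le _) k hk2
    rwa [hw0, hgs, if_neg (by omega)] at this
  have r5 : star v * g = 0 := by
    have := congrArg star r4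
    rwa [star_mul, hgs, star_zero] at this
  have r6 : v * v = 0 := by
    calc v * v = (v * g) * v := by rw [r2]
      _ = 0 := by rw [mul_assoc, r4, mul_zero]
  have r7 : star v * star v = 0 := by
    have := congrArg star r6
    rwa [star_mul, star_zero] at this
  set s : ℝ := Real.sqrt (1 - ‖d‖ ^ 2) with hs
  have hs2 : s ^ 2 = 1 - ‖d‖ ^ 2 := Real.sq_sqrt (by nlinarith [norm_nonneg d])
  have hs1 : |s| ≤ 1 := by
    rw [abs_le]
    constructor <;> nlinarith [Real.sqrt_nonneg (1 - ‖d‖ ^ 2), norm_nonneg d]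
  have hdd : (starRingEnd ℂ) d * d = ((‖d‖ ^ 2 : ℝ) : ℂ) := by
    rw [mul_comm, Complex.mul_conj, Complex.normSq_eq_norm_sq]
  set J : H →L[ℂ] H := 1 + (d - 1) • g + ((starRingEnd ℂ) d - 1) • (v * star v) + (s : ℂ) • v
    - (s : ℂ) • star v with hJ
  have hJs : star J = 1 + ((starRingEnd ℂ) d - 1) • g + (d - 1) • (v * star v) + (s : ℂ) • star v
      - (s : ℂ) • v := by
    rw [hJ]
    simp only [star_add, star_sub, star_smul, star_mul, star_star, star_one, hgs, Complex.star_def,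
      map_sub, Complex.conj_conj, map_one, Complex.conj_ofReal]
  have q1 : g * (v * star v) = 0 := by rw [← mul_assoc, r4, zero_mul]
  have q2 : (v * star v) * g = 0 := by rw [mul_assoc, r5, mul_zero]
  have q3 : (v * star v) * v = v := by rw [mul_assoc, r1, r2]
  have q4 : v * (v * star v) = 0 := by rw [← mul_assoc, r6, zero_mul]
  have q5 : (v * star v) * star v = 0 := by rw [mul_assoc, r7, mul_zero]
  have q6 : star v * (v * star v) = star v := by rw [← mul_assoc, r1, r3]
  have q7 : (v * star v) * (v * star v) = v * star v := by rw [mul_assoc, q6]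
  have hde : (starRingEnd ℂ) d * d = 1 - (s : ℂ) * s := by
    rw [hdd]
    norm_cast
    nlinarith
  have hJU : J ∈ UU M := by
    refine ⟨?_, ?_, ?_⟩
    · rw [hJ]
      refine sub_mem (add_mem (add_mem (add_mem (one_mem _) (smul_mem' M _ hgM))
        (smul_mem' M _ (mul_mem hvM (star_mem hvM)))) (smul_mem' M _ hvM)) (smul_mem' M _ (star_mem hvM))
    · rw [hJs, hJ]
      simp only [mul_add, add_mul, mul_sub, sub_mul, smul_mul_assoc, mul_smul_comm, mul_one, one_mul,
        q1, q2, q3, q4, q5, q6, q7, r1, r2, r3, r4, r5, r6, r7, hgg, smul_zero]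
      match_scalars <;> first | ring1 | linear_combination (hde)
    · rw [hJs, hJ]
      simp only [mul_add, add_mul, mul_sub, sub_mul, smul_mul_assoc, mul_smul_comm, mul_one, one_mul,
        q1, q2, q3, q4, q5, q6, q7, r1, r2, r3, r4, r5, r6, r7, hgg, smul_zero]
      match_scalars <;> first | ring1 | linear_combination (hde)
  refine ⟨phi J, ⟨J, hJU, rfl⟩, ?_⟩
  intro ξ hξ η hη
  have e1 : phi J (ξ, η) - phi (1 - g + d • g) (ξ, η)
      = ((starRingEnd ℂ) d - 1) * ⟪(star v) η, (star v) ξ⟫_ℂ + s * ⟪(star v) η, ξ⟫_ℂ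
        - s * ⟪η, (star v) ξ⟫_ℂ := by
    have h1 : phi J (ξ, η) - phi (1 - g + d • g) (ξ, η) = ⟪η, (J - (1 - g + d • g)) ξ⟫_ℂ := by
      simp only [phi]
      rw [← inner_sub_right]
      rfl
    have h2 : J - (1 - g + d • g) = ((starRingEnd ℂ) d - 1) • (v * star v) + (s : ℂ) • v
        - (s : ℂ) • star v := by
      rw [hJ]; module
    rw [h1, h2]
    rw [ContinuousLinearMap.star_eq_adjoint, ContinuousLinearMap.adjoint_inner_left,
      ContinuousLinearMap.adjoint_inner_left, ← ContinuousLinearMap.star_eq_adjoint]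
    simp [inner_add_right, inner_sub_right, inner_smul_right]
  rw [e1]
  have b1 := hk ξ hξ
  have b2 := hk η hη
  have c1 : ‖ξ‖ ≤ R := Finset.single_le_sum (f := fun ξ => ‖ξ‖) (fun _ _ => norm_nonneg _) hξ
  have c2 : ‖η‖ ≤ R := Finset.single_le_sum (f := fun ξ => ‖ξ‖) (fun _ _ => norm_nonneg _) hη
  have d1 : ‖((starRingEnd ℂ) d - 1) * ⟪(star v) η, (star v) ξ⟫_ℂ‖ ≤ 2 * (δ * δ) := by
    rw [norm_mul]
    have i1 : ‖(starRingEnd ℂ) d - 1‖ ≤ 2 := by
      calc _ ≤ ‖(starRingEnd ℂ) d‖ + ‖(1 : ℂ)‖ := norm_sub_le _ _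
        _ ≤ 1 + 1 := by
          gcongr
          · rw [RCLike.norm_conj]; exact hd
          · simp
        _ = 2 := by norm_num
    have i2 : ‖⟪(star v) η, (star v) ξ⟫_ℂ‖ ≤ δ * δ :=
      (norm_inner_le_norm _ _).trans (by gcongr)
    gcongr
  have d2 : ‖(s : ℂ) * ⟪(star v) η, ξ⟫_ℂ‖ ≤ δ * R := by
    rw [norm_mul, Complex.norm_real, Real.norm_eq_abs]
    calc |s| * ‖⟪(star v) η, ξ⟫_ℂ‖ ≤ 1 * (‖(star v) η‖ * ‖ξ‖) := by
          gcongr
          exact norm_inner_le_norm _ _
      _ ≤ δ * R := by rw [one_mul]; gcongr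
  have d3 : ‖(s : ℂ) * ⟪η, (star v) ξ⟫_ℂ‖ ≤ R * δ := by
    rw [norm_mul, Complex.norm_real, Real.norm_eq_abs]
    calc |s| * ‖⟪η, (star v) ξ⟫_ℂ‖ ≤ 1 * (‖η‖ * ‖(star v) ξ‖) := by
          gcongr
          exact norm_inner_le_norm _ _
      _ ≤ R * δ := by rw [one_mul]; gcongr
  have hδ1 : δ ≤ 1 := min_le_left _ _
  have hδ2 : δ ≤ ε / (4 * (R + 1)) := min_le_right _ _
  rw [le_div_iff₀ (by positivity)] at hδ2
  calc _ ≤ ‖((starRingEnd ℂ) d - 1) * ⟪(star v) η, (star v) ξ⟫_ℂ‖ + ‖(s : ℂ) * ⟪(star v) η, ξ⟫_ℂ‖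
        + ‖(s : ℂ) * ⟪η, (star v) ξ⟫_ℂ‖ := (norm_sub_le _ _).trans (by gcongr; exact norm_add_le _ _)
    _ ≤ 2 * (δ * δ) + δ * R + R * δ := by gcongr
    _ < ε := by nlinarith

end minproj


section masa

/-- principal ideal `b·A` -/
noncomputable def FF (A : StarSubalgebra ℂ (H →L[ℂ] H)) (b : H →L[ℂ] H) :
    Submodule ℂ (H →L[ℂ] H) :=
  (Subalgebra.toSubmodule A.toSubalgebra).map (LinearMap.mulLeft ℂ b)

lemma mem_FF {A : StarSubalgebra ℂ (H →L[ℂ] H)} {b x : H →L[ℂ] H} :
    x ∈ FF A b ↔ ∃ c ∈ A, b * c = x := by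
  simp [FF, Submodule.mem_map]

variable {A : StarSubalgebra ℂ (H →L[ℂ] H)} (hcomm : ∀ x ∈ A, ∀ y ∈ A, x * y = y * x)
include hcomm

lemma sq_ne_zero' {b : H →L[ℂ] H} (hb : b ∈ A) (hb0 : b ≠ 0) : b * b ≠ 0 := by
  intro h
  apply hb0
  apply star_mul_self_zero
  have h1 : star (star b * b) * (star b * b) = 0 := by
    rw [star_mul, star_star]
    calc star b * b * (star b * b) = star b * (b * star b) * b := by simp only [mul_assoc]
      _ = star b * (star b * b) * b := by rw [hcomm b hb (star b) (star_mem hb)]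
      _ = star b * star b * (b * b) := by simp only [mul_assoc]
      _ = 0 := by rw [h, mul_zero]
  exact star_mul_self_zero h1

lemma exists_min {h : H →L[ℂ] H} (hh : h ∈ A) (hh0 : h ≠ 0) (hfd : FiniteDimensional ℂ (FF A h)) :
    ∃ g ∈ FF A h, g ∈ A ∧ star g = g ∧ g * g = g ∧ g ≠ 0 ∧ ∀ y ∈ A, ∃ l : ℂ, g * y = l • g := by
  classical
  have hmem : ∀ b, b ∈ A → ∀ x ∈ FF A b, x ∈ A := by
    intro b hb x hx
    obtain ⟨c, hc, rfl⟩ := mem_FF.1 hx
    exact mul_mem hb hc
  have hsub : ∀ b ∈ FF A h, FF A b ≤ FF A h := by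
    intro b hb x hx
    obtain ⟨c, hc, rfl⟩ := mem_FF.1 hb
    obtain ⟨c', hc', rfl⟩ := mem_FF.1 hx
    exact mem_FF.2 ⟨c * c', mul_mem hc hc', by rw [mul_assoc]⟩
  have hself : ∀ b, b ∈ FF A b := fun b => mem_FF.2 ⟨1, one_mem A, mul_one b⟩
  have hex : ∃ n, ∃ b ∈ FF A h, b ≠ 0 ∧ Module.finrank ℂ (FF A b) = n :=
    ⟨_, h, hself h, hh0, rfl⟩
  obtain ⟨b, hbh, hb0, hbn⟩ := Nat.find_spec hex
  have hminb : ∀ d ∈ FF A h, d ≠ 0 → Module.finrank ℂ (FF A b) ≤ Module.finrank ℂ (FF A d) := by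
    intro d hd hd0
    rw [hbn]
    exact Nat.find_min' hex ⟨d, hd, hd0, rfl⟩
  have hbA : b ∈ A := hmem h hh b hbh
  have hfdb : FiniteDimensional ℂ (FF A b) := Submodule.finiteDimensional_of_le (hsub b hbh)
  have hEq : ∀ d ∈ FF A b, d ≠ 0 → FF A d = FF A b := by
    intro d hd hd0
    have h1 : FF A d ≤ FF A b := by
      intro x hx
      obtain ⟨c, hc, rfl⟩ := mem_FF.1 hd
      obtain ⟨c', hc', rfl⟩ := mem_FF.1 hx
      exact mem_FF.2 ⟨c * c', mul_mem hc hc', by rw [mul_assoc]⟩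
    exact Submodule.eq_of_le_of_finrank_le h1 (hminb d (hsub b hbh hd) hd0)
  have hbb : b * b ∈ FF A b := mem_FF.2 ⟨b, hbA, rfl⟩
  have h2 := hEq _ hbb (sq_ne_zero' hcomm hbA hb0)
  obtain ⟨c, hc, hbc⟩ := mem_FF.1 (h2 ▸ hself b)
  obtain ⟨g, hg⟩ : ∃ g, g = b * c := ⟨_, rfl⟩
  have hgA : g ∈ A := by rw [hg]; exact mul_mem hbA hc
  have hgb : g * b = b := by
    rw [hg, mul_assoc, hcomm c hc b hbA, ← mul_assoc, hbc]
  have hgg : g * g = g := by
    calc g * g = g * b * c := by conv_lhs => rhs; rw [hg]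
                                 rw [mul_assoc]
      _ = g := by rw [hgb, hg]
  have hg0 : g ≠ 0 := by
    intro h3
    rw [h3, zero_mul] at hgb
    exact hb0 hgb.symm
  have hgF : g ∈ FF A b := mem_FF.2 ⟨c, hc, hg.symm⟩
  have hFg : FF A g = FF A b := hEq g hgF hg0
  have hgs : star g = g := by
    have hsA := star_mem hgA
    have hcs := hcomm g hgA (star g) hsA
    have hss : star g * star g = star g := by rw [← star_mul, hgg]
    have h4 : star (g - star g * g) * (g - star g * g) = 0 := by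
      rw [star_sub, star_mul, star_star, mul_sub, sub_mul, sub_mul]
      have e1 : star g * g * g = star g * g := by rw [mul_assoc, hgg]
      have e2 : star g * (star g * g) = star g * g := by rw [← mul_assoc, hss]
      have e3 : star g * g * (star g * g) = star g * g := by
        calc star g * g * (star g * g) = star g * (g * star g) * g := by simp only [mul_assoc]
          _ = star g * (star g * g) * g := by rw [hcs]
          _ = star g * g := by rw [e2, e1]
      rw [e1, e2, e3]; simp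
    have h5 := star_mul_self_zero h4
    rw [sub_eq_zero] at h5
    rw [h5, star_mul, star_star]
  refine ⟨g, hsub b hbh hgF, hgA, hgs, hgg, hg0, ?_⟩
  intro y hy
  -- the multiplication map
  have hinv : ∀ x ∈ FF A g, y * x ∈ FF A g := by
    intro x hx
    obtain ⟨c', hc', rfl⟩ := mem_FF.1 hx
    refine mem_FF.2 ⟨y * c', mul_mem hy hc', ?_⟩
    rw [← mul_assoc, ← mul_assoc, hcomm g hgA y hy]
  have hfdg : FiniteDimensional ℂ (FF A g) := by rw [hFg]; exact hfdb
  have hnt : Nontrivial (FF A g) := ⟨⟨⟨g, hself g⟩, 0, fun h => hg0 (congrArg Subtype.val h)⟩⟩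
  obtain ⟨l, hl⟩ := Module.End.exists_eigenvalue ((LinearMap.mulLeft ℂ y).restrict hinv)
  obtain ⟨z, hz⟩ := hl.exists_hasEigenvector
  have hz0 : (z : H →L[ℂ] H) ≠ 0 := fun h => hz.2 (Subtype.ext h)
  have hyz : y * (z : H →L[ℂ] H) = l • (z : H →L[ℂ] H) := by
    exact congrArg Subtype.val hz.apply_eq_smul
  refine ⟨l, ?_⟩
  by_contra hne
  set d := g * y - l • g with hd
  have hd0 : d ≠ 0 := fun h => hne (sub_eq_zero.1 h)
  have hdF : d ∈ FF A b := by
    rw [← hFg, hd]
    exact Submodule.sub_mem _ (mem_FF.2 ⟨y, hy, rfl⟩) (Submodule.smul_mem _ _ (hself g))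
  have h6 := hEq d hdF hd0
  obtain ⟨e, he, hde⟩ := mem_FF.1 (h6 ▸ hgF)
  apply hz0
  obtain ⟨c', hc', hzc⟩ := mem_FF.1 z.2
  have hgz : g * (z : H →L[ℂ] H) = z := by rw [← hzc, ← mul_assoc, hgg]
  have hzA : (z : H →L[ℂ] H) ∈ A := by rw [← hzc]; exact mul_mem hgA hc'
  have hdz : d * (z : H →L[ℂ] H) = 0 := by
    rw [hd, sub_mul, mul_assoc, hyz, mul_smul_comm, smul_mul_assoc, sub_self]
  have hdA : d ∈ A := sub_mem (mul_mem hgA hy) (A.smul_mem hgA l)
  calc (z : H →L[ℂ] H) = d * e * z := by rw [hde, hgz]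
    _ = e * (d * z) := by rw [hcomm d hdA e he, mul_assoc]
    _ = 0 := by rw [hdz, mul_zero]

end masa

end Pool.Agent.Q194.VNA
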