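import Mathlib
import Pool.Agent.Q194.VNA
open scoped InnerProductSpace
open Filter Topology

namespace Pool.Agent.Q194.VNA
universe u
set_option linter.unusedSectionVars false
variable {H : Type u} [NormedAddCommGroup H] [InnerProductSpace ℂ H] [CompleteSpace H]

lemma core_aux {A : StarSubalgebra ℂ (H →L[ℂ] H)} (hcomm : ∀ x ∈ A, ∀ y ∈ A, x * y = y * x)
    {a g v w D x : H →L[ℂ] H} (ha : a ∈ A) (hg : g ∈ A) (hv : v ∈ A) (hD : D ∈ A) (hgg : g * g = g)
    (hx : x = a + (1 - a) * v) (hxg : x * g = D * g) :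
    ((a + (1 - a) * g) + (1 - (a + (1 - a) * g)) * v) * (1 - g + D * g) = x ∧
    (a + (1 - a) * g) * (1 - (a + (1 - a) * g)) = a * (1 - a) * (1 - g) := by
  letI : CommRing A := { (inferInstance : Ring A) with
    mul_comm := fun x y => Subtype.ext (hcomm _ x.2 _ y.2) }
  have key : ∀ (a g v D : A), g * g = g → (a + (1 - a) * v) * g = D * g →
      ((a + (1 - a) * g) + (1 - (a + (1 - a) * g)) * v) * (1 - g + D * g) = a + (1 - a) * v ∧
      (a + (1 - a) * g) * (1 - (a + (1 - a) * g)) = a * (1 - a) * (1 - g) := by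
    intro a g v D h1 h2
    constructor
    · linear_combination (1 - (a + (1 - a) * v)) * (D - 1) * h1 - h2
    · linear_combination (-(1 - a) ^ 2) * h1
  have h := key ⟨a, ha⟩ ⟨g, hg⟩ ⟨v, hv⟩ ⟨D, hD⟩ (Subtype.ext hgg) (Subtype.ext (by
    rw [hx] at hxg; exact hxg))
  refine ⟨?_, congrArg Subtype.val h.2⟩
  rw [hx]
  exact congrArg Subtype.val h.1

lemma core_aux0 {A : StarSubalgebra ℂ (H →L[ℂ] H)} (hcomm : ∀ x ∈ A, ∀ y ∈ A, x * y = y * x)
    {a v w : H →L[ℂ] H} (ha : a ∈ A) (hv : v ∈ A) (hw : w ∈ A) (haa : a * (1 - a) = 0)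
    (hwv : w * v = 1) :
    (a + w * (1 - a)) * (a + (1 - a) * v) = 1 ∧ (a + (1 - a) * v) * (a + w * (1 - a)) = 1 := by
  letI : CommRing A := { (inferInstance : Ring A) with
    mul_comm := fun x y => Subtype.ext (hcomm _ x.2 _ y.2) }
  have key : ∀ (a v w : A), a * (1 - a) = 0 → w * v = 1 →
      (a + w * (1 - a)) * (a + (1 - a) * v) = 1 ∧ (a + (1 - a) * v) * (a + w * (1 - a)) = 1 := by
    intro a v w h1 h2
    constructor
    · linear_combination (v + w - 2) * h1 + (1 - a) ^ 2 * h2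
    · linear_combination (v + w - 2) * h1 + (1 - a) ^ 2 * h2
  have h := key ⟨a, ha⟩ ⟨v, hv⟩ ⟨w, hw⟩ (Subtype.ext haa) (Subtype.ext hwv)
  exact ⟨congrArg Subtype.val h.1, congrArg Subtype.val h.2⟩

lemma core {M : VonNeumannAlgebra H} (hM : NoFin M) {A : StarSubalgebra ℂ (H →L[ℂ] H)}
    (hcomm : ∀ x ∈ A, ∀ y ∈ A, x * y = y * x) (hAM : ∀ x ∈ A, x ∈ M)
    (hmasa : ∀ x ∈ M, (∀ y ∈ A, y * x = x * y) → x ∈ A) {v : H →L[ℂ] H} (hv : v ∈ UU M)
    (hvA : v ∈ A) (n : ℕ) : ∀ a ∈ A, 0 ≤ a → a ≤ 1 → FiniteDimensional ℂ (FF A (a * (1 - a))) →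
      Module.finrank ℂ (FF A (a * (1 - a))) = n → a + (1 - a) * v ∈ CC M := by
  induction n using Nat.strong_induction_on with
  | _ n ih =>
  intro a ha ha0 ha1 hfd hn
  have has : star a = a := (IsSelfAdjoint.of_nonneg ha0).star_eq
  by_cases hh0 : a * (1 - a) = 0
  · obtain ⟨h1, h2⟩ := core_aux0 hcomm ha hvA (star_mem hvA) hh0 hv.2.1
    refine UU_sub_CC ⟨hAM _ (add_mem ha (mul_mem (sub_mem (one_mem _) ha) hvA)), ?_, ?_⟩
    · rw [star_add, star_mul, star_sub, star_one, has]
      exact h1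
    · rw [star_add, star_mul, star_sub, star_one, has]
      exact h2
  · have hhA : a * (1 - a) ∈ A := mul_mem ha (sub_mem (one_mem _) ha)
    obtain ⟨g, hgF, hgA, hgs, hgg, hg0, hgmin⟩ := exists_min hcomm hhA hh0 hfd
    -- a vector in the range of g
    obtain ⟨ζ, hζ⟩ : ∃ ζ, g ζ ≠ 0 := by
      by_contra hcon
      push Not at hcon
      exact hg0 (by ext ξ; simpa using hcon ξ)
    set ξ := g ζ with hξ
    have heig : ∀ y ∈ A, ∀ l : ℂ, g * y = l • g → y ξ = l • ξ := by
      intro y hy l hl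
      have h1 : y * g = l • g := by rw [hcomm y hy g hgA, hl]
      exact congrArg (fun T : H →L[ℂ] H => T ζ) h1
    obtain ⟨α, hα⟩ := hgmin a ha
    obtain ⟨l, hl⟩ := hgmin v hvA
    have hα' := heig a ha α hα
    have hl' := heig v hvA l hl
    have hn0 : 0 < ‖ξ‖ := norm_pos_iff.2 hζ
    have hl1 : ‖l‖ = 1 := by
      have h1 : ‖v ξ‖ = ‖ξ‖ := by
        have h2 : ⟪v ξ, v ξ⟫_ℂ = ⟪ξ, ξ⟫_ℂ := by
          rw [← ContinuousLinearMap.adjoint_inner_right, ← ContinuousLinearMap.star_eq_adjoint]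
          have : (star v) (v ξ) = ξ := congrArg (fun T : H →L[ℂ] H => T ξ) hv.2.1
          rw [this]
        rw [inner_self_eq_norm_sq_to_K, inner_self_eq_norm_sq_to_K] at h2
        have h3 : ‖v ξ‖ ^ 2 = ‖ξ‖ ^ 2 := by exact_mod_cast h2
        exact (sq_eq_sq₀ (norm_nonneg _) (norm_nonneg _)).1 h3
      rw [hl', norm_smul] at h1
      exact mul_right_cancel₀ hn0.ne' (by rw [h1, one_mul])
    have hαr : ∃ r : ℝ, 0 ≤ r ∧ r ≤ 1 ∧ α = (r : ℂ) := by
      have p1 := (ContinuousLinearMap.nonneg_iff_isPositive a).1 ha0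
      have p2 := (ContinuousLinearMap.nonneg_iff_isPositive (1 - a)).1 (sub_nonneg.2 ha1)
      have q1 := (ContinuousLinearMap.isPositive_iff_complex a).1 p1 ξ
      have q2 := (ContinuousLinearMap.isPositive_iff_complex (1 - a)).1 p2 ξ
      have e2 : (1 - a) ξ = (1 - α) • ξ := by
        change ξ - a ξ = _
        rw [hα']; module
      rw [hα', inner_smul_left, inner_self_eq_norm_sq_to_K] at q1
      rw [e2, inner_smul_left, inner_self_eq_norm_sq_to_K] at q2
      have hsq : (0 : ℝ) < ‖ξ‖ ^ 2 := by positivity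
      obtain ⟨q11, q12⟩ := q1
      obtain ⟨q21, q22⟩ := q2
      have him : α.im = 0 := by
        have := congrArg Complex.im q11
        simp [← Complex.ofReal_pow] at this
        rcases this with h | h
        · exact h
        · exact absurd h (by positivity)
      refine ⟨α.re, ?_, ?_, Complex.ext rfl (by simpa using him)⟩
      · simp [← Complex.ofReal_pow] at q12
        by_contra hneg
        push Not at hneg
        nlinarith
      · simp [← Complex.ofReal_pow] at q22
        by_contra hneg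
        push Not at hneg
        nlinarith
    obtain ⟨r, hr0, hr1, hαr⟩ := hαr
    set d : ℂ := α + (1 - α) * l with hd
    have hd1 : ‖d‖ ≤ 1 := by
      rw [hd, hαr]
      calc ‖(r : ℂ) + (1 - (r : ℂ)) * l‖ ≤ ‖(r : ℂ)‖ + ‖(1 - (r : ℂ)) * l‖ := norm_add_le _ _
        _ = r + (1 - r) := by
          rw [norm_mul, hl1, mul_one]
          have : (1 : ℂ) - r = ((1 - r : ℝ) : ℂ) := by push_cast; rfl
          rw [this, Complex.norm_real, Complex.norm_real, Real.norm_eq_abs, Real.norm_eq_abs,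
            abs_of_nonneg hr0, abs_of_nonneg (by linarith)]
        _ = 1 := by ring
    have hxg : (a + (1 - a) * v) * g = (d • (1 : H →L[ℂ] H)) * g := by
      have e1 : a * g = α • g := by rw [hcomm a ha g hgA, hα]
      have e2 : v * g = l • g := by rw [hcomm v hvA g hgA, hl]
      rw [add_mul, e1, mul_assoc, e2, mul_smul_comm, sub_mul, one_mul, e1, hd, smul_mul_assoc,
        one_mul]
      module
    have hDA : (d • (1 : H →L[ℂ] H)) ∈ A := A.smul_mem (one_mem _) d
    obtain ⟨k1, k2⟩ := core_aux (w := 1) hcomm ha hgA hvA hDA hgg rfl hxg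
    have ha'A : a + (1 - a) * g ∈ A := add_mem ha (mul_mem (sub_mem (one_mem _) ha) hgA)
    have c1 : (1 - a) * g = star g * (1 - a) * g := by
      rw [hgs, hcomm g hgA (1 - a) (sub_mem (one_mem _) ha), mul_assoc, hgg]
    have ha'0 : 0 ≤ a + (1 - a) * g := by
      rw [c1]
      exact add_nonneg ha0 (star_left_conjugate_nonneg (sub_nonneg.2 ha1) g)
    have ha'1 : a + (1 - a) * g ≤ 1 := by
      rw [← sub_nonneg]
      have e : 1 - (a + (1 - a) * g) = star (1 - g) * (1 - a) * (1 - g) := by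
        rw [star_sub, star_one, hgs]
        have e3 : (1 - g) * (1 - a) = (1 - a) * (1 - g) :=
          hcomm _ (sub_mem (one_mem _) hgA) _ (sub_mem (one_mem _) ha)
        rw [e3, mul_assoc]
        have e4 : (1 - g) * (1 - g) = 1 - g := by
          rw [sub_mul, one_mul, mul_sub, mul_one, hgg, sub_self, sub_zero]
        rw [e4, mul_sub, mul_one]
        abel
      rw [e]
      exact star_left_conjugate_nonneg (sub_nonneg.2 ha1) _
    -- dimension drops
    have hle : FF A (a * (1 - a) * (1 - g)) ≤ FF A (a * (1 - a)) := by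
      intro x hx
      obtain ⟨c, hc, rfl⟩ := mem_FF.1 hx
      exact mem_FF.2 ⟨(1 - g) * c, mul_mem (sub_mem (one_mem _) hgA) hc, by rw [mul_assoc _ (1 - g) c]⟩
    have hlt : FF A (a * (1 - a) * (1 - g)) < FF A (a * (1 - a)) := by
      refine lt_of_le_of_ne hle fun heq => ?_
      rw [← heq] at hgF
      obtain ⟨c, hc, hgc⟩ := mem_FF.1 hgF
      apply hg0
      have e5 : (1 - g) * g = 0 := by rw [sub_mul, one_mul, hgg, sub_self]
      calc g = g * g := hgg.symm
        _ = a * (1 - a) * (1 - g) * c * g := by rw [hgc]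
        _ = a * (1 - a) * ((1 - g) * g) * c := by
          rw [mul_assoc _ c g, hcomm c hc g hgA]; simp only [mul_assoc]
        _ = 0 := by rw [e5, mul_zero, zero_mul]
    have hfd' : FiniteDimensional ℂ (FF A (a * (1 - a) * (1 - g))) :=
      Submodule.finiteDimensional_of_le hle
    have hfr : Module.finrank ℂ (FF A (a * (1 - a) * (1 - g))) < n := by
      rw [← hn]
      exact Submodule.finrank_lt_finrank_of_lt hlt
    have hIH := ih _ hfr (a + (1 - a) * g) ha'A ha'0 ha'1 (by rw [k2]; exact hfd') (by rw [k2])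
    have hgM : ∀ x ∈ M, ∃ l : ℂ, g * x * g = l • g := by
      intro x hx
      have hmem : g * x * g ∈ A := by
        apply hmasa
        · exact mul_mem (mul_mem (hAM g hgA) hx) (hAM g hgA)
        · intro y hy
          obtain ⟨m, hm⟩ := hgmin y hy
          have e1 : y * g = m • g := by rw [hcomm y hy g hgA, hm]
          rw [← mul_assoc, ← mul_assoc, e1, mul_assoc (g * x) g y, hm]
          simp only [smul_mul_assoc, mul_smul_comm]
      obtain ⟨m, hm⟩ := hgmin _ hmem
      refine ⟨m, ?_⟩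
      rw [← hm, ← mul_assoc, ← mul_assoc, hgg]
    have hproj := minproj_mem hM (hAM g hgA) hgs hgg hg0 hgM d hd1
    have := CC_mul hIH hproj
    rw [← k1]
    have e6 : (1 - g + (d • (1 : H →L[ℂ] H)) * g) = 1 - g + d • g := by
      rw [smul_mul_assoc, one_mul]
    rw [e6]
    exact this

end Pool.Agent.Q194.VNA
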