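import Mathlib
import Pool.Agent.Q194.VNA2
open scoped InnerProductSpace
open Filter Topology

namespace Pool.Agent.Q194.VNA
universe u
set_option linter.unusedSectionVars false
variable {H : Type u} [NormedAddCommGroup H] [InnerProductSpace ℂ H] [CompleteSpace H]

/-- sesquilinear kernels -/
def SesqZ (H : Type u) [NormedAddCommGroup H] [InnerProductSpace ℂ H] : Set (H × H → ℂ) :=
  {f | (∀ ξ ξ' η, f (ξ + ξ', η) = f (ξ, η) + f (ξ', η)) ∧ (∀ (c : ℂ) ξ η, f (c • ξ, η) = c * f (ξ, η)) ∧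
    (∀ ξ η η', f (ξ, η + η') = f (ξ, η) + f (ξ, η')) ∧
    (∀ (c : ℂ) ξ η, f (ξ, c • η) = (starRingEnd ℂ) c * f (ξ, η))}

lemma SesqZ_closed : IsClosed (SesqZ H) := by
  unfold SesqZ
  simp only [Set.setOf_and, Set.setOf_forall]
  refine IsClosed.inter ?_ (IsClosed.inter ?_ (IsClosed.inter ?_ ?_))
  · exact isClosed_iInter fun ξ => isClosed_iInter fun ξ' => isClosed_iInter fun η =>
      isClosed_eq (by fun_prop) (by fun_prop)
  · exact isClosed_iInter fun ξ => isClosed_iInter fun ξ' => isClosed_iInter fun η =>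
      isClosed_eq (by fun_prop) (by fun_prop)
  · exact isClosed_iInter fun ξ => isClosed_iInter fun ξ' => isClosed_iInter fun η =>
      isClosed_eq (by fun_prop) (by fun_prop)
  · exact isClosed_iInter fun ξ => isClosed_iInter fun ξ' => isClosed_iInter fun η =>
      isClosed_eq (by fun_prop) (by fun_prop)

lemma ball_image : phi '' {x : H →L[ℂ] H | ‖x‖ ≤ 1} =
    Set.pi Set.univ (fun p : H × H => Metric.closedBall (0 : ℂ) (‖p.1‖ * ‖p.2‖)) ∩ SesqZ H := by
  ext f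
  constructor
  · rintro ⟨x, hx, rfl⟩
    refine ⟨?_, ?_, ?_, ?_, ?_⟩
    · intro p _
      rw [mem_closedBall_zero_iff]
      calc ‖⟪p.2, x p.1⟫_ℂ‖ ≤ ‖p.2‖ * ‖x p.1‖ := norm_inner_le_norm _ _
        _ ≤ ‖p.2‖ * (1 * ‖p.1‖) := by
          gcongr
          exact (x.le_opNorm _).trans (by gcongr; exact hx)
        _ = ‖p.1‖ * ‖p.2‖ := by ring
    · intro ξ ξ' η; simp [phi, inner_add_right]
    · intro c ξ η; simp [phi, inner_smul_right]
    · intro ξ η η'; simp [phi, inner_add_left]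
    · intro c ξ η; simp [phi, mul_comm]
  · rintro ⟨hb, h1, h2, h3, h4⟩
    have hb' : ∀ ξ η, ‖f (ξ, η)‖ ≤ ‖ξ‖ * ‖η‖ := by
      intro ξ η
      have := hb (ξ, η) (Set.mem_univ _)
      rwa [mem_closedBall_zero_iff] at this
    let B0 : H →ₗ⋆[ℂ] H →ₗ[ℂ] ℂ := LinearMap.mk₂'ₛₗ (starRingEnd ℂ) (RingHom.id ℂ)
      (fun η ξ => f (ξ, η)) (fun η η' ξ => h3 ξ η η') (fun c η ξ => h4 c ξ η)
      (fun η ξ ξ' => h1 ξ ξ' η) (fun c η ξ => h2 c ξ η)
    let B := B0.mkContinuous₂ 1 (by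
      intro η ξ
      have := hb' ξ η
      calc ‖B0 η ξ‖ ≤ ‖ξ‖ * ‖η‖ := this
        _ = 1 * ‖η‖ * ‖ξ‖ := by ring)
    have hB : ∀ η ξ, B η ξ = f (ξ, η) := fun η ξ => rfl
    set y := InnerProductSpace.continuousLinearMapOfBilin B with hy
    have hyB : ∀ ξ η, ⟪η, (ContinuousLinearMap.adjoint y) ξ⟫_ℂ = f (ξ, η) := by
      intro ξ η
      rw [ContinuousLinearMap.adjoint_inner_right, hy,
        InnerProductSpace.continuousLinearMapOfBilin_apply, hB]
    refine ⟨ContinuousLinearMap.adjoint y, ?_, ?_⟩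
    · refine ContinuousLinearMap.opNorm_le_bound _ zero_le_one fun ξ => ?_
      set x := (ContinuousLinearMap.adjoint y) ξ with hx
      have h5 := hyB ξ x
      rw [← hx, inner_self_eq_norm_sq_to_K] at h5
      have h6 := hb' ξ x
      rw [← h5] at h6
      have h7 : ‖x‖ ^ 2 ≤ ‖ξ‖ * ‖x‖ := by
        calc ‖x‖ ^ 2 = ‖((‖x‖ : ℂ)) ^ 2‖ := by simp
          _ ≤ _ := h6
      rcases (norm_nonneg x).eq_or_lt with h0 | h0
      · rw [← h0]; positivity
      · nlinarith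
    · funext p
      exact hyB p.1 p.2

lemma ball_compact : IsCompact (phi '' {x : H →L[ℂ] H | ‖x‖ ≤ 1}) := by
  rw [ball_image]
  exact (isCompact_univ_pi fun p => isCompact_closedBall _ _).inter_right SesqZ_closed

lemma nonneg_iff_phi (a : H →L[ℂ] H) :
    0 ≤ a ↔ ∀ ξ, 0 ≤ (phi a (ξ, ξ)).re ∧ (phi a (ξ, ξ)).im = 0 := by
  rw [ContinuousLinearMap.nonneg_iff_isPositive, ContinuousLinearMap.isPositive_iff_complex]
  refine forall_congr' fun ξ => ?_
  have h : ⟪a ξ, ξ⟫_ℂ = (starRingEnd ℂ) (phi a (ξ, ξ)) := by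
    simp [phi]
  rw [h]
  constructor
  · rintro ⟨h1, h2⟩
    refine ⟨by simpa using h2, ?_⟩
    have := congrArg Complex.im h1
    simpa using this.symm
  · rintro ⟨h1, h2⟩
    refine ⟨?_, by simpa using h1⟩
    apply Complex.ext
    · simp
    · simp [h2]

lemma half_point {A : StarSubalgebra ℂ (H →L[ℂ] H)} (hcomm : ∀ x ∈ A, ∀ y ∈ A, x * y = y * x)
    (W : Set (H →L[ℂ] H)) (hW : ∀ x, x ∈ A ↔ ∀ y ∈ W, y * x = x * y) (S : Finset H) :
    ∃ a ∈ A, 0 ≤ a ∧ a ≤ 1 ∧ FiniteDimensional ℂ (FF A (a * (1 - a))) ∧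
      ∀ ξ ∈ S, ∀ η ∈ S, phi a (ξ, η) = 2⁻¹ * ⟪η, ξ⟫_ℂ := by
  classical
  set K : Set (H →L[ℂ] H) := {a | a ∈ A ∧ 0 ≤ a ∧ a ≤ 1 ∧
    ∀ ξ ∈ S, ∀ η ∈ S, phi a (ξ, η) = 2⁻¹ * ⟪η, ξ⟫_ℂ} with hK
  set Z : Set (H × H → ℂ) := {f | (∀ y ∈ W, ∀ ξ η, f (ξ, star y η) = f (y ξ, η)) ∧
    (∀ ξ, 0 ≤ (f (ξ, ξ)).re) ∧ (∀ ξ, (f (ξ, ξ)).im = 0) ∧ (∀ ξ : H, (f (ξ, ξ)).re ≤ ‖ξ‖ ^ 2) ∧
    ∀ ξ ∈ S, ∀ η ∈ S, f (ξ, η) = 2⁻¹ * ⟪η, ξ⟫_ℂ} with hZ
  have hZc : IsClosed Z := by
    rw [hZ]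
    simp only [Set.setOf_and, Set.setOf_forall]
    refine IsClosed.inter ?_ (IsClosed.inter ?_ (IsClosed.inter ?_ (IsClosed.inter ?_ ?_)))
    · exact isClosed_iInter fun y => isClosed_iInter fun _ => isClosed_iInter fun ξ =>
        isClosed_iInter fun η => isClosed_eq (by fun_prop) (by fun_prop)
    · exact isClosed_iInter fun ξ => isClosed_le (by fun_prop) (by fun_prop)
    · exact isClosed_iInter fun ξ => isClosed_eq (by fun_prop) (by fun_prop)
    · exact isClosed_iInter fun ξ => isClosed_le (by fun_prop) (by fun_prop)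
    · exact isClosed_iInter fun ξ => isClosed_iInter fun _ => isClosed_iInter fun η =>
        isClosed_iInter fun _ => isClosed_eq (by fun_prop) (by fun_prop)
  have hle1 : ∀ a : H →L[ℂ] H, a ≤ 1 ↔ ∀ ξ, 0 ≤ (phi (1 - a) (ξ, ξ)).re ∧ (phi (1 - a) (ξ, ξ)).im = 0 := by
    intro a
    rw [← sub_nonneg, nonneg_iff_phi]
  have hone : ∀ (a : H →L[ℂ] H) ξ, phi (1 - a) (ξ, ξ) = ((‖ξ‖ ^ 2 : ℝ) : ℂ) - phi a (ξ, ξ) := by
    intro a ξ
    simp only [phi]
    change ⟪ξ, ξ - a ξ⟫_ℂ = _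
    rw [inner_sub_right, inner_self_eq_norm_sq_to_K]
    norm_cast
  have hKZ : phi '' K = phi '' {x : H →L[ℂ] H | ‖x‖ ≤ 1} ∩ Z := by
    ext f
    constructor
    · rintro ⟨a, ⟨haA, ha0, ha1, haS⟩, rfl⟩
      have h0 := (nonneg_iff_phi a).1 ha0
      have h1 := (hle1 a).1 ha1
      refine ⟨⟨a, ?_, rfl⟩, ?_, fun ξ => (h0 ξ).1, fun ξ => (h0 ξ).2, ?_, haS⟩
      · rcases subsingleton_or_nontrivial H with hs | hn
        · have : a = 0 := Subsingleton.elim _ _
          simp [this]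
        · exact (CStarAlgebra.norm_le_one_iff_of_nonneg a ha0).2 ha1
      · intro y hy ξ η
        have h2 := (hW a).1 haA y hy
        simp only [phi]
        rw [ContinuousLinearMap.star_eq_adjoint, ContinuousLinearMap.adjoint_inner_left]
        exact congrArg (fun T : H →L[ℂ] H => ⟪η, T ξ⟫_ℂ) h2
      · intro ξ
        have := (h1 ξ).1
        rw [hone, Complex.sub_re, Complex.ofReal_re] at this
        linarith
    · rintro ⟨⟨a, ha, rfl⟩, hz1, hz2, hz3, hz4, hz5⟩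
      refine ⟨a, ⟨?_, ?_, ?_, hz5⟩, rfl⟩
      · rw [hW]
        intro y hy
        apply phi_inj
        funext p
        have := hz1 y hy p.1 p.2
        simp only [phi] at this ⊢
        rw [ContinuousLinearMap.star_eq_adjoint, ContinuousLinearMap.adjoint_inner_left] at this
        exact this
      · rw [nonneg_iff_phi]
        exact fun ξ => ⟨hz2 ξ, hz3 ξ⟩
      · rw [hle1]
        intro ξ
        rw [hone, Complex.sub_re, Complex.sub_im, Complex.ofReal_re, Complex.ofReal_im, hz3 ξ]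
        exact ⟨by linarith [hz4 ξ], by simp⟩
  have hKc : IsCompact (phi '' K) := by
    rw [hKZ]; exact ball_compact.inter_right hZc
  have hKne : (phi '' K).Nonempty := by
    refine ⟨_, (2⁻¹ : ℂ) • (1 : H →L[ℂ] H), ⟨A.smul_mem (one_mem _) _, ?_, ?_, ?_⟩, rfl⟩
    · rw [nonneg_iff_phi]
      intro ξ
      have : phi ((2⁻¹ : ℂ) • (1 : H →L[ℂ] H)) (ξ, ξ) = ((‖ξ‖ ^ 2 / 2 : ℝ) : ℂ) := by
        simp only [phi]
        change ⟪ξ, (2⁻¹ : ℂ) • ξ⟫_ℂ = _
        rw [inner_smul_right, inner_self_eq_norm_sq_to_K]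
        push_cast
        rw [div_eq_inv_mul]
        rfl
      rw [this, Complex.ofReal_re, Complex.ofReal_im]
      exact ⟨by positivity, rfl⟩
    · rw [hle1]
      intro ξ
      have : phi ((2⁻¹ : ℂ) • (1 : H →L[ℂ] H)) (ξ, ξ) = ((‖ξ‖ ^ 2 / 2 : ℝ) : ℂ) := by
        simp only [phi]
        change ⟪ξ, (2⁻¹ : ℂ) • ξ⟫_ℂ = _
        rw [inner_smul_right, inner_self_eq_norm_sq_to_K]
        push_cast
        rw [div_eq_inv_mul]
        rfl
      rw [hone, this, ← Complex.ofReal_sub, Complex.ofReal_re, Complex.ofReal_im]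
      refine ⟨?_, rfl⟩
      have : (0 : ℝ) ≤ ‖ξ‖ ^ 2 := by positivity
      linarith
    · intro ξ _ η _
      simp only [phi]
      change ⟪η, (2⁻¹ : ℂ) • ξ⟫_ℂ = _
      rw [inner_smul_right]
  obtain ⟨f, hf⟩ := hKc.extremePoints_nonempty hKne
  rw [mem_extremePoints] at hf
  obtain ⟨⟨a, ⟨haA, ha0, ha1, haS⟩, rfl⟩, hext⟩ := hf
  refine ⟨a, haA, ha0, ha1, ?_, haS⟩
  have has : star a = a := (IsSelfAdjoint.of_nonneg ha0).star_eq
  set h : H →L[ℂ] H := a * (1 - a) with hh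
  have h1a : (1 - a) ∈ A := sub_mem (one_mem _) haA
  have hhA : h ∈ A := mul_mem haA h1a
  have hcommpos : ∀ b c : H →L[ℂ] H, b ∈ A → c ∈ A → 0 ≤ b → 0 ≤ c → 0 ≤ b * c := by
    intro b c hb hc hb0 hc0
    have hcm : Commute b c := hcomm b hb c hc
    have hs : star (CFC.sqrt b) = CFC.sqrt b := (IsSelfAdjoint.of_nonneg (CFC.sqrt_nonneg b)).star_eq
    have h2 : Commute (CFC.sqrt b) c := by
      rw [CFC.sqrt_eq_cfc]
      exact Commute.cfc_nnreal hcm _
    have h3 : b * c = star (CFC.sqrt b) * c * CFC.sqrt b := by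
      rw [hs, mul_assoc, ← h2.eq, ← mul_assoc, CFC.sqrt_mul_sqrt_self b hb0]
    rw [h3]
    exact star_left_conjugate_nonneg hc0 _
  have hh0 : 0 ≤ h := hcommpos a (1 - a) haA h1a ha0 (sub_nonneg.2 ha1)
  have hhs : star h = h := (IsSelfAdjoint.of_nonneg hh0).star_eq
  -- self-adjoint perturbations vanish
  have hsa1 : ∀ c ∈ A, star c = c → ‖c‖ ≤ 1 → (∀ ξ ∈ S, ∀ η ∈ S, phi (h * c) (ξ, η) = 0) →
      h * c = 0 := by
    intro c hc hcs hcn hcS
    have hcle : c ≤ 1 ∧ -c ≤ 1 := by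
      rcases subsingleton_or_nontrivial H with hs | hn
      · exact ⟨(Subsingleton.elim _ _ : c = 1).le, (Subsingleton.elim _ _ : -c = 1).le⟩
      · have hsa : IsSelfAdjoint c := hcs
        constructor
        · calc c ≤ algebraMap ℝ (H →L[ℂ] H) ‖c‖ := hsa.le_algebraMap_norm_self
            _ ≤ algebraMap ℝ (H →L[ℂ] H) 1 := by gcongr
            _ = 1 := by simp
        · calc -c ≤ algebraMap ℝ (H →L[ℂ] H) ‖-c‖ := hsa.neg.le_algebraMap_norm_self
            _ ≤ algebraMap ℝ (H →L[ℂ] H) 1 := by gcongr; rwa [norm_neg]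
            _ = 1 := by simp
    have hpm : ∀ c' ∈ A, c' ≤ 1 → -c' ≤ 1 → (∀ ξ ∈ S, ∀ η ∈ S, phi (h * c') (ξ, η) = 0) →
        a + h * c' ∈ K := by
      intro c' hc' h1 h2 h3
      refine ⟨add_mem haA (mul_mem hhA hc'), ?_, ?_, ?_⟩
      · have e : a + h * c' = a * a + h * (1 + c') := by
          rw [hh]; noncomm_ring
        rw [e]
        refine add_nonneg ?_ (hcommpos _ _ hhA (add_mem (one_mem _) hc') hh0 ?_)
        · conv_rhs => lhs; rw [← has]
          exact star_mul_self_nonneg a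
        · have h4 := sub_nonneg.2 h2
          rwa [sub_neg_eq_add] at h4
      · rw [← sub_nonneg]
        have e : 1 - (a + h * c') = (1 - a) * (1 - a) + h * (1 - c') := by
          rw [hh]; noncomm_ring
        rw [e]
        refine add_nonneg ?_ (hcommpos _ _ hhA (sub_mem (one_mem _) hc') hh0 (sub_nonneg.2 h1))
        have : star (1 - a) = 1 - a := by rw [star_sub, star_one, has]
        conv_rhs => lhs; rw [← this]
        exact star_mul_self_nonneg _
      · intro ξ hξ η hη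
        have : phi (a + h * c') (ξ, η) = phi a (ξ, η) + phi (h * c') (ξ, η) := by
          simp [phi, inner_add_right]
        rw [this, h3 ξ hξ η hη, haS ξ hξ η hη, add_zero]
    have k1 := hpm c hc hcle.1 hcle.2 hcS
    have k2 := hpm (-c) (neg_mem hc) hcle.2 (by rw [neg_neg]; exact hcle.1) (by
      intro ξ hξ η hη
      have : phi (h * -c) (ξ, η) = - phi (h * c) (ξ, η) := by
        simp [phi, inner_neg_right]
      rw [this, hcS ξ hξ η hη, neg_zero])
    have k3 := (hext _ ⟨_, k1, rfl⟩ _ ⟨_, k2, rfl⟩ ⟨1 / 2, 1 / 2, by norm_num, by norm_num, by norm_num, by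
      funext p
      simp [phi, inner_add_right, inner_neg_right]
      ring⟩).1
    have k4 := phi_inj k3
    have : a + h * c = a + 0 := by rw [k4, add_zero]
    exact add_left_cancel this
  have hsa : ∀ c ∈ A, star c = c → (∀ ξ ∈ S, ∀ η ∈ S, phi (h * c) (ξ, η) = 0) → h * c = 0 := by
    intro c hc hcs hcS
    set t : ℝ := (‖c‖ + 1)⁻¹ with ht
    have ht0 : 0 < t := by rw [ht]; positivity
    have h1 := hsa1 ((t : ℂ) • c) (A.smul_mem hc _) (by
      rw [star_smul, hcs]; simp) (by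
      rw [norm_smul, Complex.norm_real, Real.norm_eq_abs, abs_of_pos ht0, ht, inv_mul_le_iff₀ (by positivity)]
      linarith) (by
      intro ξ hξ η hη
      have : phi (h * ((t : ℂ) • c)) (ξ, η) = t * phi (h * c) (ξ, η) := by
        simp [phi, inner_smul_right]
      rw [this, hcS ξ hξ η hη, mul_zero])
    rw [mul_smul_comm] at h1
    rcases smul_eq_zero.1 h1 with h2 | h2
    · exact absurd h2 (by exact_mod_cast ht0.ne')
    · exact h2
  -- injective evaluation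
  let ev : FF A h →ₗ[ℂ] (S × S → ℂ) :=
    { toFun := fun y p => phi (y : H →L[ℂ] H) (p.1, p.2)
      map_add' := by intro x y; funext p; simp [phi, inner_add_right]
      map_smul' := by intro c y; funext p; simp [phi, inner_smul_right] }
  refine FiniteDimensional.of_injective ev ?_
  rw [injective_iff_map_eq_zero]
  intro y hy
  have hy' : ∀ ξ ∈ S, ∀ η ∈ S, phi (y : H →L[ℂ] H) (ξ, η) = 0 := by
    intro ξ hξ η hη
    exact congrFun hy (⟨ξ, hξ⟩, ⟨η, hη⟩)
  obtain ⟨c, hc, hcy⟩ := mem_FF.1 y.2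
  have hcs : ∀ ξ ∈ S, ∀ η ∈ S, phi (h * star c) (ξ, η) = 0 := by
    intro ξ hξ η hη
    have h1 := hy' η hη ξ hξ
    rw [← hcy] at h1
    have h2 : h * star c = star (h * c) := by
      rw [star_mul, hhs, hcomm h hhA (star c) (star_mem hc)]
    rw [h2]
    simp only [phi] at h1 ⊢
    rw [ContinuousLinearMap.star_eq_adjoint, ContinuousLinearMap.adjoint_inner_right,
      ← inner_conj_symm, h1, map_zero]
  have hcr : ∀ ξ ∈ S, ∀ η ∈ S, phi (h * c) (ξ, η) = 0 := by
    intro ξ hξ η hη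
    rw [hcy]; exact hy' ξ hξ η hη
  have z1 := hsa (c + star c) (add_mem hc (star_mem hc)) (by rw [star_add, star_star, add_comm]) (by
    intro ξ hξ η hη
    have : phi (h * (c + star c)) (ξ, η) = phi (h * c) (ξ, η) + phi (h * star c) (ξ, η) := by
      rw [mul_add]; simp [phi, inner_add_right]
    rw [this, hcr ξ hξ η hη, hcs ξ hξ η hη, add_zero])
  have z2 := hsa (Complex.I • (c - star c)) (A.smul_mem (sub_mem hc (star_mem hc)) _) (by
    rw [star_smul, star_sub, star_star, Complex.star_def, Complex.conj_I]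
    module) (by
    intro ξ hξ η hη
    have : phi (h * (Complex.I • (c - star c))) (ξ, η)
        = Complex.I * (phi (h * c) (ξ, η) - phi (h * star c) (ξ, η)) := by
      rw [mul_smul_comm, mul_sub]; simp [phi, inner_sub_right, inner_smul_right]
    rw [this, hcr ξ hξ η hη, hcs ξ hξ η hη, sub_zero, mul_zero])
  rw [mul_smul_comm, smul_eq_zero] at z2
  have z2' := z2.resolve_left Complex.I_ne_zero
  rw [mul_add] at z1
  rw [mul_sub] at z2'
  have z3 : (2 : ℂ) • (h * c) = 0 := by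
    calc (2 : ℂ) • (h * c) = (h * c + h * star c) + (h * c - h * star c) := by module
      _ = 0 := by rw [z1, z2', add_zero]
  have z4 := (smul_eq_zero.1 z3).resolve_left two_ne_zero
  exact Subtype.ext (by rw [← hcy, z4]; rfl)

end Pool.Agent.Q194.VNA
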