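import Mathlib
import Pool.Agent.Q194.VNA3
open scoped InnerProductSpace
open Filter Topology

namespace Pool.Agent.Q194.VNA
universe u
set_option linter.unusedSectionVars false
variable {H : Type u} [NormedAddCommGroup H] [InnerProductSpace ℂ H] [CompleteSpace H]

lemma exists_masa (M : VonNeumannAlgebra H) {v : H →L[ℂ] H} (hv : v ∈ UU M) :
    ∃ (A : StarSubalgebra ℂ (H →L[ℂ] H)) (W : Set (H →L[ℂ] H)),
      (∀ x ∈ A, ∀ y ∈ A, x * y = y * x) ∧ (∀ x ∈ A, x ∈ M) ∧
      (∀ x ∈ M, (∀ y ∈ A, y * x = x * y) → x ∈ A) ∧ v ∈ A ∧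
      (∀ x, x ∈ A ↔ ∀ y ∈ W, y * x = x * y) := by
  classical
  set 𝒮 : Set (Set (H →L[ℂ] H)) := {N | (∀ x ∈ N, x ∈ M) ∧ (∀ x ∈ N, star x ∈ N) ∧
    ∀ x ∈ N, ∀ y ∈ N, x * y = y * x} with h𝒮
  have hbase : ({v, star v} : Set (H →L[ℂ] H)) ∈ 𝒮 := by
    have e : v * star v = star v * v := by rw [hv.2.1, hv.2.2]
    refine ⟨?_, ?_, ?_⟩
    · rintro x (rfl | rfl)
      · exact hv.1
      · exact star_mem hv.1
    · rintro x (rfl | rfl)
      · right; rfl
      · left; exact star_star v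
    · rintro x (rfl | rfl) y (rfl | rfl)
      · rfl
      · exact e
      · exact e.symm
      · rfl
  obtain ⟨N, hvN, hNmax⟩ := zorn_subset_nonempty 𝒮 (by
    intro c hc hchain hne
    refine ⟨⋃₀ c, ⟨?_, ?_, ?_⟩, fun s hs => Set.subset_sUnion_of_mem hs⟩
    · rintro x ⟨s, hs, hx⟩
      exact (hc hs).1 x hx
    · rintro x ⟨s, hs, hx⟩
      exact ⟨s, hs, (hc hs).2.1 x hx⟩
    · rintro x ⟨s, hs, hx⟩ y ⟨s', hs', hy⟩
      rcases hchain.total hs hs' with h | h
      · exact (hc hs').2.2 x (h hx) y hy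
      · exact (hc hs).2.2 x hx y (h hy)) _ hbase
  have hN := hNmax.prop
  -- extension principle
  have hins : ∀ t : Set (H →L[ℂ] H), (∀ x ∈ t, x ∈ M) → (∀ x ∈ t, star x ∈ t) →
      (∀ x ∈ t, ∀ y ∈ t, x * y = y * x) → (∀ x ∈ t, ∀ y ∈ N, y * x = x * y) → t ⊆ N := by
    intro t h1 h2 h3 h4
    have : N ∪ t ∈ 𝒮 := by
      refine ⟨?_, ?_, ?_⟩
      · rintro x (hx | hx)
        · exact hN.1 x hx
        · exact h1 x hx
      · rintro x (hx | hx)
        · exact Or.inl (hN.2.1 x hx)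
        · exact Or.inr (h2 x hx)
      · rintro x (hx | hx) y (hy | hy)
        · exact hN.2.2 x hx y hy
        · exact h4 y hy x hx
        · exact (h4 x hx y hy).symm
        · exact h3 x hx y hy
    exact Set.subset_union_right.trans (hNmax.le_of_ge this Set.subset_union_left)
  set W : Set (H →L[ℂ] H) := (M.commutant : Set (H →L[ℂ] H)) ∪ N with hW
  have hWs : ∀ x ∈ W, star x ∈ W := by
    rintro x (hx | hx)
    · left
      exact star_mem (S := VonNeumannAlgebra H) (s := M.commutant) hx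
    · exact Or.inr (hN.2.1 x hx)
  set A : StarSubalgebra ℂ (H →L[ℂ] H) := StarSubalgebra.centralizer ℂ W with hA
  have hAW : ∀ x, x ∈ A ↔ ∀ y ∈ W, y * x = x * y := by
    intro x
    rw [hA, StarSubalgebra.mem_centralizer_iff]
    exact ⟨fun h y hy => (h y hy).1, fun h y hy => ⟨h y hy, h _ (hWs y hy)⟩⟩
  have hAM : ∀ x ∈ A, x ∈ M := by
    intro x hx
    rw [mem_iff_comm]
    intro y hy
    exact (hAW x).1 hx y (Or.inl hy)
  have hAN : ∀ x ∈ A, x ∈ N := by
    intro x hx
    have hxN : ∀ y ∈ N, y * x = x * y := fun y hy => (hAW x).1 hx y (Or.inr hy)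
    have hsx : star x ∈ A := star_mem hx
    have hsxN : ∀ y ∈ N, y * star x = star x * y := fun y hy => (hAW _).1 hsx y (Or.inr hy)
    have hr : x + star x ∈ N := by
      have h := hins {x + star x} ?_ ?_ ?_ ?_
      · exact h rfl
      · rintro _ rfl; exact add_mem (hAM _ hx) (hAM _ hsx)
      · rintro _ rfl
        rw [Set.mem_singleton_iff, star_add, star_star, add_comm]
      · rintro _ rfl _ rfl; rfl
      · rintro _ rfl y hy
        rw [mul_add, add_mul, hxN y hy, hsxN y hy]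
    have hi : Complex.I • (x - star x) ∈ N := by
      have h := hins {Complex.I • (x - star x)} ?_ ?_ ?_ ?_
      · exact h rfl
      · rintro _ rfl; exact smul_mem' M _ (sub_mem (hAM _ hx) (hAM _ hsx))
      · rintro _ rfl
        rw [Set.mem_singleton_iff, star_smul, star_sub, star_star, Complex.star_def, Complex.conj_I]
        module
      · rintro _ rfl _ rfl; rfl
      · rintro _ rfl y hy
        rw [mul_smul_comm, smul_mul_assoc, mul_sub, sub_mul, hxN y hy, hsxN y hy]
    have hri := hN.2.2 _ hr _ hi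
    have hnorm : x * star x = star x * x := by
      rw [mul_smul_comm, smul_mul_assoc] at hri
      have h1 := smul_right_injective (H →L[ℂ] H) Complex.I_ne_zero hri
      simp only [mul_sub, add_mul, sub_mul, mul_add] at h1
      have h2 : (2 : ℂ) • (x * star x) = (2 : ℂ) • (star x * x) := by
        have h3 := congrArg (fun T => x * x - star x * star x + x * star x + star x * x - T) h1
        calc (2 : ℂ) • (x * star x) = x * x - star x * star x + x * star x + star x * x -
              (x * x + star x * x - (x * star x + star x * star x)) := by module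
          _ = _ := h3
          _ = (2 : ℂ) • (star x * x) := by module
      exact smul_right_injective (H →L[ℂ] H) two_ne_zero h2
    have h := hins {x, star x} ?_ ?_ ?_ ?_
    · exact h (Or.inl rfl)
    · rintro _ (rfl | rfl)
      · exact hAM _ hx
      · exact hAM _ hsx
    · rintro _ (rfl | rfl)
      · right; rfl
      · left; exact star_star x
    · rintro _ (rfl | rfl) _ (rfl | rfl)
      · rfl
      · exact hnorm
      · exact hnorm.symm
      · rfl
    · rintro _ (rfl | rfl) y hy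
      · exact hxN y hy
      · exact hsxN y hy
  have hNA : ∀ x ∈ N, x ∈ A := by
    intro x hx
    rw [hAW]
    rintro y (hy | hy)
    · exact (mem_iff_comm M x).1 (hN.1 x hx) y hy
    · exact hN.2.2 y hy x hx
  refine ⟨A, W, ?_, hAM, ?_, hNA v (hvN (Or.inl rfl)), hAW⟩
  · intro x hx y hy
    exact hN.2.2 x (hAN x hx) y (hAN y hy)
  · intro x hx h
    rw [hAW]
    rintro y (hy | hy)
    · exact (mem_iff_comm M x).1 hx y hy
    · exact h y (hNA y hy)

lemma hmid {M : VonNeumannAlgebra H} (hM : NoFin M) : ∀ v ∈ UU M, (2⁻¹ : ℂ) • (1 + v) ∈ CC M := by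
  classical
  intro v hv
  obtain ⟨A, W, hcomm, hAM, hmasa, hvA, hAW⟩ := exists_masa M hv
  have key : phi ((2⁻¹ : ℂ) • (1 + v)) ∈ closure (closure (phi '' UU M)) := by
    apply mem_closure_crit
    intro S ε hε
    obtain ⟨a, haA, ha0, ha1, hfd, haS⟩ := half_point hcomm W hAW (S ∪ S.image v)
    have hx := core hM hcomm hAM hmasa hv hvA _ a haA ha0 ha1 hfd rfl
    refine ⟨_, hx, ?_⟩
    intro ξ hξ η hη
    have e1 := haS ξ (Finset.mem_union_left _ hξ) η (Finset.mem_union_left _ hη)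
    have e2 := haS (v ξ) (Finset.mem_union_right _ (Finset.mem_image_of_mem _ hξ)) η
      (Finset.mem_union_left _ hη)
    have e3 : phi (a + (1 - a) * v) (ξ, η) = phi a (ξ, η) + ⟪η, v ξ⟫_ℂ - phi a (v ξ, η) := by
      simp only [phi]
      change ⟪η, a ξ + (v ξ - a (v ξ))⟫_ℂ = _
      rw [inner_add_right, inner_sub_right]
      ring
    have e4 : phi ((2⁻¹ : ℂ) • (1 + v)) (ξ, η) = 2⁻¹ * (⟪η, ξ⟫_ℂ + ⟪η, v ξ⟫_ℂ) := by
      simp only [phi]
      change ⟪η, (2⁻¹ : ℂ) • (ξ + v ξ)⟫_ℂ = _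
      rw [inner_smul_right, inner_add_right]
    rw [e3, e4, e1, e2]
    have : 2⁻¹ * ⟪η, ξ⟫_ℂ + ⟪η, v ξ⟫_ℂ - 2⁻¹ * ⟪η, v ξ⟫_ℂ - 2⁻¹ * (⟪η, ξ⟫_ℂ + ⟪η, v ξ⟫_ℂ) = 0 := by ring
    rw [this, norm_zero]
    exact hε
  rw [closure_closure] at key
  exact key

theorem unitaries_dense {M : VonNeumannAlgebra H} (hM : NoFin M) {x : H →L[ℂ] H} (hx : x ∈ M)
    (hx1 : ‖x‖ ≤ 1) : phi x ∈ closure (phi '' UU M) :=
  CC_ball (hmid hM) hx hx1

/-- the closed cyclic subspace generated by `X` under the commutant -/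
noncomputable def cyc (M : VonNeumannAlgebra H) (X : Set H) : Submodule ℂ H :=
  (Submodule.span ℂ {ζ | ∃ a ∈ M.commutant, ∃ ξ ∈ X, a ξ = ζ}).topologicalClosure

instance (M : VonNeumannAlgebra H) (X : Set H) : CompleteSpace (cyc M X) :=
  (Submodule.isClosed_topologicalClosure _).completeSpace_coe

/-- the projection onto the cyclic subspace -/
noncomputable def pr (M : VonNeumannAlgebra H) (X : Set H) : H →L[ℂ] H := (cyc M X).starProjection

lemma mem_cyc {M : VonNeumannAlgebra H} {X : Set H} {a : H →L[ℂ] H} (ha : a ∈ M.commutant) {ξ : H}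
    (hξ : ξ ∈ X) : a ξ ∈ cyc M X :=
  Submodule.le_topologicalClosure _ (Submodule.subset_span ⟨a, ha, ξ, hξ, rfl⟩)

lemma pr_proj (M : VonNeumannAlgebra H) (X : Set H) : IsStarProjection (pr M X) :=
  isStarProjection_starProjection

lemma pr_apply {M : VonNeumannAlgebra H} {X : Set H} {ξ : H} (h : ξ ∈ cyc M X) : pr M X ξ = ξ :=
  Submodule.starProjection_eq_self_iff.2 h

lemma pr_mem (M : VonNeumannAlgebra H) (X : Set H) : pr M X ∈ M := by
  rw [VonNeumannAlgebra.IsStarProjection.mem_iff (pr_proj M X)]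
  intro y hy
  have hr : (pr M X).range = cyc M X := by
    rw [pr]; exact Submodule.range_starProjection _
  rw [hr, Module.End.mem_invtSubmodule]
  intro ζ hζ
  rw [Submodule.mem_comap]
  have hmap : ∀ ζ ∈ Submodule.span ℂ {ζ | ∃ a ∈ M.commutant, ∃ ξ ∈ X, a ξ = ζ},
      y ζ ∈ Submodule.span ℂ {ζ | ∃ a ∈ M.commutant, ∃ ξ ∈ X, a ξ = ζ} := by
    intro ζ hζ
    induction hζ using Submodule.span_induction with
    | mem z hz =>
      obtain ⟨a, ha, ξ, hξ, rfl⟩ := hz
      exact Submodule.subset_span ⟨y * a, mul_mem hy ha, ξ, hξ, rfl⟩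
    | zero => simp
    | add z z' _ _ h1 h2 => rw [map_add]; exact add_mem h1 h2
    | smul c z _ h1 => rw [map_smul]; exact Submodule.smul_mem _ _ h1
  exact map_mem_closure y.continuous hζ hmap

end Pool.Agent.Q194.VNA
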