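import Mathlib.Algebra.Polynomial.Inductions
import Mathlib.Algebra.Polynomial.Expand
import Mathlib.Analysis.Complex.Basic
import Mathlib.Analysis.InnerProductSpace.Basic
import Mathlib.Analysis.SpecialFunctions.Choose
import Mathlib.Data.Nat.Choose.Sum

/-!
# The Wiener norm of complex polynomials and a flat polynomial with large powers
-/

set_option autoImplicit false

namespace Pool.Agent.Q194.WienerPoly

open Polynomial Finset

/-- The sum of the absolute values of the coefficients. -/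
noncomputable def W (p : ℂ[X]) : ℝ := ∑ i ∈ p.support, ‖p.coeff i‖

theorem W_eq_range {p : ℂ[X]} {n : ℕ} (h : p.natDegree < n) :
    W p = ∑ i ∈ range n, ‖p.coeff i‖ := by
  unfold W
  refine Finset.sum_subset ?_ ?_
  · intro i hi
    rw [mem_range]
    exact lt_of_le_of_lt (le_natDegree_of_mem_supp i hi) h
  · intro i _ hi
    rw [notMem_support_iff.1 hi, norm_zero]

theorem W_nonneg (p : ℂ[X]) : 0 ≤ W p := Finset.sum_nonneg fun _ _ => norm_nonneg _

@[simp] theorem W_zero : W 0 = 0 := by simp [W]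

theorem W_C (c : ℂ) : W (C c) = ‖c‖ := by
  rw [W_eq_range (n := 1) (by simp)]
  simp

theorem W_one : W 1 = 1 := by
  have := W_C 1
  simpa using this

theorem W_smul (c : ℂ) (p : ℂ[X]) : W (C c * p) = ‖c‖ * W p := by
  have h1 : (C c * p).natDegree < p.natDegree + 1 :=
    Nat.lt_succ_of_le (natDegree_C_mul_le c p)
  rw [W_eq_range h1, W_eq_range (Nat.lt_succ_self _), mul_sum]
  refine sum_congr rfl fun i _ => ?_
  rw [coeff_C_mul, norm_mul]

theorem W_neg (p : ℂ[X]) : W (-p) = W p := by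
  unfold W
  rw [support_neg]
  refine sum_congr rfl fun i _ => ?_
  rw [coeff_neg, norm_neg]

theorem W_add_le (p q : ℂ[X]) : W (p + q) ≤ W p + W q := by
  set n := max p.natDegree q.natDegree + 1 with hn
  have h1 : (p + q).natDegree < n := Nat.lt_succ_of_le (natDegree_add_le p q)
  have h2 : p.natDegree < n := Nat.lt_succ_of_le (le_max_left _ _)
  have h3 : q.natDegree < n := Nat.lt_succ_of_le (le_max_right _ _)
  rw [W_eq_range h1, W_eq_range h2, W_eq_range h3, ← sum_add_distrib]
  refine sum_le_sum fun i _ => ?_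
  rw [coeff_add]
  exact norm_add_le _ _

theorem W_sub_le (p q : ℂ[X]) : W p - W q ≤ W (p + q) := by
  have := W_add_le (p + q) (-q)
  rw [W_neg, add_neg_cancel_right] at this
  linarith

theorem W_sum_le {ι : Type*} (s : Finset ι) (f : ι → ℂ[X]) : W (∑ i ∈ s, f i) ≤ ∑ i ∈ s, W (f i) := by
  classical
  induction s using Finset.induction_on with
  | empty => simp
  | insert a s ha ih =>
    rw [sum_insert ha, sum_insert ha]
    exact (W_add_le _ _).trans (by linarith)

/-- Disjointness of supports: the low part and the part divisible by `X ^ K`. -/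
theorem W_add_X_pow_mul {A B : ℂ[X]} {K : ℕ} (h : A.natDegree < K) :
    W (A + X ^ K * B) = W A + W B := by
  set m := B.natDegree + 1 with hm
  have h1 : (A + X ^ K * B).natDegree < K + m := by
    refine lt_of_le_of_lt (natDegree_add_le _ _) ?_
    refine max_lt (by omega) ?_
    refine lt_of_le_of_lt (natDegree_mul_le) ?_
    rw [natDegree_X_pow]
    omega
  rw [W_eq_range h1, sum_range_add, W_eq_range h, W_eq_range (show B.natDegree < m by omega)]
  congr 1
  · refine sum_congr rfl fun i hi => ?_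
    rw [coeff_add, coeff_X_pow_mul', if_neg (by rw [mem_range] at hi; omega), add_zero]
  · refine sum_congr rfl fun i _ => ?_
    rw [coeff_add, coeff_eq_zero_of_natDegree_lt (by omega), zero_add, add_comm K i,
      coeff_X_pow_mul]

theorem W_X_pow_mul (B : ℂ[X]) (K : ℕ) : W (X ^ K * B) = W B := by
  rcases Nat.eq_zero_or_pos K with rfl | hK
  · simp
  · have := W_add_X_pow_mul (A := 0) (B := B) (K := K) (by simpa using hK)
    simpa using this

theorem W_mul_le (p q : ℂ[X]) : W (p * q) ≤ W p * W q := by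
  have h : p * q = ∑ i ∈ p.support, C (p.coeff i) * (X ^ i * q) := by
    conv_lhs => rw [p.as_sum_support_C_mul_X_pow, sum_mul]
    refine sum_congr rfl fun i _ => ?_
    rw [mul_assoc]
  rw [h]
  refine (W_sum_le _ _).trans ?_
  unfold W
  rw [sum_mul]
  refine le_of_eq (sum_congr rfl fun i _ => ?_)
  change W _ = _ * W q
  rw [W_smul, W_X_pow_mul]

theorem W_pow_le (p : ℂ[X]) (n : ℕ) : W (p ^ n) ≤ W p ^ n := by
  induction n with
  | zero => simp [W_one]
  | succ n ih =>
    rw [pow_succ, pow_succ]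
    exact (W_mul_le _ _).trans (mul_le_mul_of_nonneg_right ih (W_nonneg _))

theorem W_mul_expand {s : ℂ[X]} {M : ℕ} (h : s.natDegree < M) (P : ℂ[X]) :
    W (s * expand ℂ M P) = W s * W P := by
  suffices H : ∀ n : ℕ, ∀ P : ℂ[X], P.natDegree ≤ n → W (s * expand ℂ M P) = W s * W P from
    H _ P le_rfl
  intro n
  induction n with
  | zero =>
    intro P hP
    rw [eq_C_of_natDegree_le_zero hP, expand_C, mul_comm, W_smul, W_C, mul_comm]
  | succ n ih =>
    intro P hP
    have hd : P.divX.natDegree ≤ n := by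
      rw [natDegree_divX_eq_natDegree_tsub_one]
      omega
    have e1 : P = C (P.coeff 0) + X ^ 1 * P.divX := by
      conv_lhs => rw [← divX_mul_X_add P]
      ring
    have e2 : s * expand ℂ M P = C (P.coeff 0) * s + X ^ M * (s * expand ℂ M P.divX) := by
      conv_lhs => rw [e1]
      rw [map_add, map_mul, expand_C, map_pow, expand_X]
      ring
    have h1 : (C (P.coeff 0) * s).natDegree < M := lt_of_le_of_lt (natDegree_C_mul_le _ _) h
    rw [e2, W_add_X_pow_mul h1, ih _ hd, W_smul]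
    conv_rhs => rw [e1]
    rw [W_add_X_pow_mul (by simp), W_C]
    ring

theorem W_expand {M : ℕ} (h : 0 < M) (P : ℂ[X]) : W (expand ℂ M P) = W P := by
  have := W_mul_expand (s := 1) (M := M) (by simpa using h) P
  simpa [W_one] using this

/-! ### Rudin–Shapiro polynomials -/

/-- The pair of Rudin–Shapiro polynomials. -/
noncomputable def RS : ℕ → ℂ[X] × ℂ[X]
  | 0 => (1, 1)
  | k + 1 => ((RS k).1 + X ^ (2 ^ k) * (RS k).2, (RS k).1 + X ^ (2 ^ k) * (-(RS k).2))

theorem RS_natDegree (k : ℕ) : (RS k).1.natDegree < 2 ^ k ∧ (RS k).2.natDegree < 2 ^ k := by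
  induction k with
  | zero => simp [RS]
  | succ k ih =>
    have h2 : (2 : ℕ) ^ (k + 1) = 2 ^ k + 2 ^ k := by ring
    constructor
    · refine lt_of_le_of_lt (natDegree_add_le _ _) (max_lt (by omega) ?_)
      refine lt_of_le_of_lt natDegree_mul_le ?_
      rw [natDegree_X_pow]
      omega
    · refine lt_of_le_of_lt (natDegree_add_le _ _) (max_lt (by omega) ?_)
      refine lt_of_le_of_lt natDegree_mul_le ?_
      rw [natDegree_X_pow, natDegree_neg]
      omega

theorem RS_W (k : ℕ) : W (RS k).1 = 2 ^ k ∧ W (RS k).2 = 2 ^ k := by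
  induction k with
  | zero => simp [RS, W_one]
  | succ k ih =>
    constructor
    · rw [RS, W_add_X_pow_mul (RS_natDegree k).1, ih.1, ih.2]
      ring
    · rw [RS, W_add_X_pow_mul (RS_natDegree k).1, W_neg, ih.1, ih.2]
      ring

theorem RS_eval (k : ℕ) {z : ℂ} (hz : ‖z‖ ≤ 1) :
    ‖(RS k).1.eval z‖ ^ 2 + ‖(RS k).2.eval z‖ ^ 2 ≤ 2 ^ (k + 1) := by
  induction k with
  | zero => norm_num [RS]
  | succ k ih =>
    set a := (RS k).1.eval z with ha
    set b := (RS k).2.eval z with hb
    have e1 : (RS (k + 1)).1.eval z = a + z ^ (2 ^ k) * b := by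
      simp [RS, ha, hb]
    have e2 : (RS (k + 1)).2.eval z = a - z ^ (2 ^ k) * b := by
      simp [RS, ha, hb]
      ring
    rw [e1, e2]
    have hpar := parallelogram_law_with_norm ℝ a (z ^ (2 ^ k) * b)
    have hzb : ‖z ^ (2 ^ k) * b‖ ≤ ‖b‖ := by
      rw [norm_mul, norm_pow]
      exact mul_le_of_le_one_left (norm_nonneg _) (pow_le_one₀ (norm_nonneg _) hz)
    have hzb2 : ‖z ^ (2 ^ k) * b‖ ^ 2 ≤ ‖b‖ ^ 2 := pow_le_pow_left₀ (norm_nonneg _) hzb 2
    have h3 : (2 : ℝ) ^ (k + 1 + 1) = 2 * 2 ^ (k + 1) := by ring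
    rw [h3]
    nlinarith

/-- For every `ε > 0` there is a polynomial of Wiener norm `1` bounded by `ε` on the closed disc. -/
theorem exists_flat {ε : ℝ} (hε : 0 < ε) :
    ∃ P : ℂ[X], W P = 1 ∧ P.coeff 0 = 0 ∧ ∀ z : ℂ, ‖z‖ ≤ 1 → ‖P.eval z‖ ≤ ε := by
  obtain ⟨k, hk⟩ : ∃ k : ℕ, (2 : ℝ) / 2 ^ k ≤ ε ^ 2 := by
    obtain ⟨k, hk⟩ := exists_pow_lt_of_lt_one (show 0 < ε ^ 2 / 2 by positivity)
      (show (1 / 2 : ℝ) < 1 by norm_num)
    refine ⟨k, ?_⟩
    rw [one_div, inv_pow] at hk
    rw [div_eq_mul_inv]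
    linarith
  refine ⟨C ((2 : ℂ) ^ k)⁻¹ * (X ^ 1 * (RS k).1), ?_, ?_, ?_⟩
  · rw [W_smul, W_X_pow_mul, (RS_W k).1, norm_inv, norm_pow]
    simp
  · simp
  · intro z hz
    have h1 := RS_eval k hz
    have h2 : ‖(RS k).1.eval z‖ ^ 2 ≤ 2 ^ (k + 1) := by nlinarith [sq_nonneg ‖(RS k).2.eval z‖]
    have h3 : ‖(C ((2 : ℂ) ^ k)⁻¹ * (X ^ 1 * (RS k).1)).eval z‖ ≤
        (2 ^ k)⁻¹ * ‖(RS k).1.eval z‖ := by
      rw [eval_mul, eval_mul, eval_C, norm_mul, norm_mul, norm_inv, norm_pow]
      have : ‖eval z (X ^ 1)‖ ≤ 1 := by simpa using hz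
      have h5 : ‖(2 : ℂ)‖ = 2 := by simp
      rw [h5]
      refine mul_le_mul_of_nonneg_left ?_ (by positivity)
      exact mul_le_of_le_one_left (norm_nonneg _) this
    refine h3.trans ?_
    refine le_of_sq_le_sq ?_ hε.le
    have h6 : (0 : ℝ) < 2 ^ k := by positivity
    calc ((2 ^ k)⁻¹ * ‖(RS k).1.eval z‖) ^ 2 = ((2 ^ k)⁻¹) ^ 2 * ‖(RS k).1.eval z‖ ^ 2 := by ring
      _ ≤ ((2 ^ k)⁻¹) ^ 2 * 2 ^ (k + 1) := by gcongr
      _ = 2 / 2 ^ k := by
        rw [pow_succ]
        field_simp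
        ring
      _ ≤ ε ^ 2 := hk

/-! ### Sums of widely dilated copies have large powers -/

theorem descFactorial_step (J n : ℕ) :
    (J + 1).descFactorial (n + 1) = J.descFactorial (n + 1) + (n + 1) * J.descFactorial n := by
  rw [Nat.succ_descFactorial_succ, Nat.descFactorial_succ]
  rcases Nat.lt_or_ge J n with h | h
  · rw [Nat.descFactorial_of_lt h]
    simp
  · rw [← add_mul]
    congr 1
    omega

theorem exists_spread (N : ℕ) {ε : ℝ} {P : ℂ[X]} (hP1 : W P = 1) (hP0 : P.coeff 0 = 0)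
    (hPε : ∀ z : ℂ, ‖z‖ ≤ 1 → ‖P.eval z‖ ≤ ε) (J : ℕ) :
    ∃ s : ℂ[X], (∀ n ≤ N, 2 * (J.descFactorial n : ℝ) - (J : ℝ) ^ n ≤ W (s ^ n)) ∧
      (∀ n, W (s ^ n) ≤ (J : ℝ) ^ n) ∧ ∀ z : ℂ, ‖z‖ ≤ 1 → ‖s.eval z‖ ≤ J * ε := by
  induction J with
  | zero =>
    refine ⟨0, ?_, ?_, ?_⟩
    · intro n _
      rcases Nat.eq_zero_or_pos n with rfl | hn
      · norm_num [W_one]
      · rw [zero_pow hn.ne', W_zero, Nat.descFactorial_of_lt hn]
        simp [hn.ne']
    · intro n
      rcases Nat.eq_zero_or_pos n with rfl | hn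
      · norm_num [W_one]
      · rw [zero_pow hn.ne', W_zero]
        simp [hn.ne']
    · intro z _
      simp
  | succ J ih =>
    obtain ⟨s, hs1, hs2, hs3⟩ := ih
    set M : ℕ := N * s.natDegree + 1 with hM
    set y : ℂ[X] := expand ℂ M P with hy
    obtain ⟨y', hy'⟩ : ∃ y', y = X ^ M * y' := by
      refine ⟨expand ℂ M P.divX, ?_⟩
      have e1 : P = C (P.coeff 0) + X ^ 1 * P.divX := by
        conv_lhs => rw [← divX_mul_X_add P]
        ring
      rw [hP0, C_0, zero_add] at e1
      rw [hy]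
      conv_lhs => rw [e1]
      rw [map_mul, map_pow, expand_X]
      ring
    have hyW : W y = 1 := by rw [hy, W_expand (by omega), hP1]
    have hdeg : ∀ n ≤ N, (s ^ n).natDegree < M := by
      intro n hn
      refine lt_of_le_of_lt natDegree_pow_le ?_
      rw [hM]
      have := Nat.mul_le_mul_right s.natDegree hn
      omega
    have hs'W : W (y + s) ≤ ((J + 1 : ℕ) : ℝ) := by
      refine (W_add_le _ _).trans ?_
      have := hs2 1
      rw [pow_one, pow_one] at this
      rw [hyW]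
      push_cast
      linarith
    refine ⟨y + s, ?_, ?_, ?_⟩
    · intro n hn
      rcases n with _ | n
      · norm_num [W_one]
      · -- separate the terms with `y ^ 0` and `y ^ 1`
        have hexp : ∀ {R : Type} [CommSemiring R] (a b : R), (a + b) ^ (n + 1) =
            (∑ m ∈ range n, a ^ (m + 2) * b ^ (n + 1 - (m + 2)) * ((n + 1).choose (m + 2) : R)) +
              ((n : R) + 1) * (b ^ n * a) + b ^ (n + 1) := by
          intro R _ a b
          rw [add_pow, sum_range_succ', sum_range_succ']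
          congr 1
          · congr 1
            simp
            ring
          · simp
        set R : ℂ[X] := ∑ m ∈ range n, y ^ (m + 2) * s ^ (n + 1 - (m + 2)) *
          ((n + 1).choose (m + 2) : ℂ[X]) with hR
        have e1 : (y + s) ^ (n + 1) = R + ((n : ℂ[X]) + 1) * (s ^ n * y) + s ^ (n + 1) := hexp y s
        have e2 := hexp (1 : ℝ) (J : ℝ)
        simp only [one_pow, one_mul, mul_one] at e2
        have hRW : W R ≤ ∑ m ∈ range n, (J : ℝ) ^ (n + 1 - (m + 2)) *
            ((n + 1).choose (m + 2) : ℝ) := by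
          refine (W_sum_le _ _).trans (sum_le_sum fun m _ => ?_)
          have h1 : y ^ (m + 2) * s ^ (n + 1 - (m + 2)) * ((n + 1).choose (m + 2) : ℂ[X]) =
              C (((n + 1).choose (m + 2) : ℂ)) * (y ^ (m + 2) * s ^ (n + 1 - (m + 2))) := by
            rw [mul_comm]
            congr 1
          rw [h1, W_smul, mul_comm]
          have h2 : ‖(((n + 1).choose (m + 2) : ℕ) : ℂ)‖ = ((n + 1).choose (m + 2) : ℝ) :=
            Complex.norm_natCast _
          rw [h2]
          refine mul_le_mul_of_nonneg_right ?_ (by positivity)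
          refine (W_mul_le _ _).trans ?_
          have h3 : W (y ^ (m + 2)) ≤ 1 := by
            have := W_pow_le y (m + 2)
            rwa [hyW, one_pow] at this
          calc W (y ^ (m + 2)) * W (s ^ (n + 1 - (m + 2)))
              ≤ 1 * (J : ℝ) ^ (n + 1 - (m + 2)) :=
                mul_le_mul h3 (hs2 _) (W_nonneg _) zero_le_one
            _ = _ := one_mul _
        -- the middle term
        have hmid : W (((n : ℂ[X]) + 1) * (s ^ n * y)) = ((n : ℝ) + 1) * W (s ^ n) := by
          have h1 : ((n : ℂ[X]) + 1) * (s ^ n * y) = C ((n : ℂ) + 1) * (s ^ n * y) := by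
            congr 1
            simp
          rw [h1, W_smul, hy, W_mul_expand (hdeg n (by omega)), hP1, mul_one]
          congr 1
          have h2 : ((n : ℂ) + 1) = ((n + 1 : ℕ) : ℂ) := by push_cast; rfl
          rw [h2, Complex.norm_natCast]
          push_cast
          rfl
        -- the part divisible by `X ^ M`
        obtain ⟨B, hB⟩ : ∃ B, R + ((n : ℂ[X]) + 1) * (s ^ n * y) = X ^ M * B := by
          have hd1 : X ^ M ∣ y := ⟨y', hy'⟩
          have hdR : X ^ M ∣ R := by
            refine dvd_sum fun m _ => ?_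
            refine Dvd.dvd.mul_right (Dvd.dvd.mul_right ?_ _) _
            exact dvd_pow hd1 (by omega)
          exact dvd_add hdR (Dvd.dvd.mul_left (Dvd.dvd.mul_left hd1 _) _)
        have hBW : ((n : ℝ) + 1) * W (s ^ n) - W R ≤ W B := by
          rw [← W_X_pow_mul B M, ← hB, ← hmid, add_comm R]
          exact W_sub_le _ _
        have htot : W ((y + s) ^ (n + 1)) = W (s ^ (n + 1)) + W B := by
          rw [e1, hB, add_comm, W_add_X_pow_mul (hdeg (n + 1) hn)]
        have i1 := hs1 n (by omega)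
        have i2 := hs1 (n + 1) hn
        rw [htot, descFactorial_step]
        push_cast
        have e3 : ((J : ℝ) + 1) ^ (n + 1) = (1 + (J : ℝ)) ^ (n + 1) := by rw [add_comm]
        rw [e3, e2]
        have i3 : ((n : ℝ) + 1) * (2 * (J.descFactorial n : ℝ) - (J : ℝ) ^ n) ≤
            ((n : ℝ) + 1) * W (s ^ n) := mul_le_mul_of_nonneg_left i1 (by positivity)
        linarith
    · intro n
      exact (W_pow_le _ _).trans (pow_le_pow_left₀ (W_nonneg _) hs'W n)
    · intro z hz
      rw [eval_add]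
      refine (norm_add_le _ _).trans ?_
      have h1 : ‖y.eval z‖ ≤ ε := by
        rw [hy, expand_eval]
        refine hPε _ ?_
        rw [norm_pow]
        exact pow_le_one₀ (norm_nonneg _) hz
      have h2 := hs3 z hz
      push_cast
      linarith

/-- For all `N` and `ε, η > 0` there is a polynomial `g` of Wiener norm `1`, bounded by `ε` on the
closed disc, such that `g ^ n` has Wiener norm at least `1 - η` for `n ≤ N`. -/
theorem exists_flat_powers (N : ℕ) {ε η : ℝ} (hε : 0 < ε) (hη : 0 < η) :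
    ∃ g : ℂ[X], W g = 1 ∧ (∀ n ≤ N, 1 - η ≤ W (g ^ n)) ∧ ∀ z : ℂ, ‖z‖ ≤ 1 → ‖g.eval z‖ ≤ ε := by
  obtain ⟨P, hP1, hP0, hPε⟩ := exists_flat hε
  have hlim : ∀ n : ℕ, ∀ᶠ J : ℕ in Filter.atTop,
      (1 - η / 2 : ℝ) * (J : ℝ) ^ n ≤ (J.descFactorial n : ℝ) := by
    intro n
    have h1 := isEquivalent_descFactorial n
    have hz : ∀ᶠ J : ℕ in Filter.atTop, ((J : ℝ) ^ n) ≠ 0 := by
      filter_upwards [Filter.eventually_gt_atTop 0] with J hJ
      have : (0 : ℝ) < J := by exact_mod_cast hJ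
      positivity
    have h2 := (Asymptotics.isEquivalent_iff_tendsto_one hz).1 h1
    have h3 := h2.eventually (lt_mem_nhds (show (1 - η / 2 : ℝ) < 1 by linarith))
    filter_upwards [h3, Filter.eventually_gt_atTop 0] with J hJ hJ0
    have hJ1 : (0 : ℝ) < J := by exact_mod_cast hJ0
    have h4 : (1 - η / 2 : ℝ) < (J.descFactorial n : ℝ) / (J : ℝ) ^ n := hJ
    rw [lt_div_iff₀ (by positivity)] at h4
    exact h4.le
  have hall : ∀ᶠ J : ℕ in Filter.atTop, ∀ n ∈ range (N + 2),
      (1 - η / 2 : ℝ) * (J : ℝ) ^ n ≤ (J.descFactorial n : ℝ) := by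
    rw [Filter.eventually_all_finset]
    intro n _
    exact hlim n
  obtain ⟨J, hJ, hJ0⟩ := (hall.and (Filter.eventually_gt_atTop 0)).exists
  obtain ⟨s, hs1, hs2, hs3⟩ := exists_spread (N + 1) hP1 hP0 hPε J
  have hJ1 : (0 : ℝ) < J := by exact_mod_cast hJ0
  have hnorm : ‖((J : ℂ))⁻¹‖ = (J : ℝ)⁻¹ := by rw [norm_inv, Complex.norm_natCast]
  refine ⟨C ((J : ℂ))⁻¹ * s, ?_, ?_, ?_⟩
  · rw [W_smul, hnorm]
    have h1 := hs1 1 (by omega)
    have h2 := hs2 1
    rw [pow_one, pow_one] at h2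
    rw [pow_one, pow_one, Nat.descFactorial_one] at h1
    have h3 : W s = J := by linarith
    rw [h3, inv_mul_cancel₀ hJ1.ne']
  · intro n hn
    rw [mul_pow, ← C_pow, W_smul, norm_pow, hnorm]
    have h1 := hs1 n (by omega)
    have h2 := hJ n (by rw [mem_range]; omega)
    have h3 : (0 : ℝ) < (J : ℝ) ^ n := by positivity
    have h4 : (1 - η : ℝ) * (J : ℝ) ^ n ≤ W (s ^ n) := by linarith
    rw [inv_pow]
    calc (1 - η : ℝ) = ((J : ℝ) ^ n)⁻¹ * ((1 - η : ℝ) * (J : ℝ) ^ n) := by
          field_simp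
      _ ≤ ((J : ℝ) ^ n)⁻¹ * W (s ^ n) := mul_le_mul_of_nonneg_left h4 (by positivity)
  · intro z hz
    rw [eval_mul, eval_C, norm_mul, hnorm]
    calc (J : ℝ)⁻¹ * ‖s.eval z‖ ≤ (J : ℝ)⁻¹ * (J * ε) :=
          mul_le_mul_of_nonneg_left (hs3 z hz) (by positivity)
      _ = ε := by field_simp

/-- The Wiener norm of a lacunary combination of powers. -/
theorem W_lacunary (g : ℂ[X]) (c : ℕ → ℂ) (N K : ℕ) (hK : N * g.natDegree < K) :
    (∑ n ∈ range (N + 1), C (c n) * (X ^ K * g) ^ n).natDegree < K * (N + 1) ∧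
    W (∑ n ∈ range (N + 1), C (c n) * (X ^ K * g) ^ n) =
      ∑ n ∈ range (N + 1), ‖c n‖ * W (g ^ n) := by
  have main : ∀ m ≤ N, (∑ n ∈ range (m + 1), C (c n) * (X ^ K * g) ^ n).natDegree < K * (m + 1) ∧
    W (∑ n ∈ range (m + 1), C (c n) * (X ^ K * g) ^ n) =
      ∑ n ∈ range (m + 1), ‖c n‖ * W (g ^ n) := by
    intro m
    induction m with
    | zero =>
      intro _
      constructor
      · simp
        omega
      · simp [W_C, W_one]
    | succ m ih =>
      intro hm
      obtain ⟨h1, h2⟩ := ih (by omega)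
      have e1 : C (c (m + 1)) * (X ^ K * g) ^ (m + 1) =
          X ^ (K * (m + 1)) * (C (c (m + 1)) * g ^ (m + 1)) := by
        rw [mul_pow, ← pow_mul]
        ring
      constructor
      · rw [sum_range_succ]
        refine lt_of_le_of_lt (natDegree_add_le _ _) (max_lt (by nlinarith) ?_)
        rw [e1]
        refine lt_of_le_of_lt natDegree_mul_le ?_
        rw [natDegree_X_pow]
        have h3 : (C (c (m + 1)) * g ^ (m + 1)).natDegree ≤ N * g.natDegree :=
          (natDegree_C_mul_le _ _).trans (natDegree_pow_le.trans (Nat.mul_le_mul_right _ hm))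
        have h4 : K * (m + 1 + 1) = K * (m + 1) + K := by ring
        omega
      · rw [sum_range_succ, e1, W_add_X_pow_mul h1, h2, W_smul,
          sum_range_succ (fun n => ‖c n‖ * W (g ^ n)) (m + 1)]
  exact main N le_rfl

end Pool.Agent.Q194.WienerPoly
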